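import Pool.Agent.K4H92.LP.Shadow
set_option autoImplicit false

/-!
# Paths of shadow vertices; strict dual solutions
-/

namespace Pool.Agent.K4H92.LP

open Finset

variable {E : Type*} [AddCommGroup E] [Module ℝ E] {I : Type*} [Fintype I]
  {a : I → E →ₗ[ℝ] ℝ} {β : I → ℝ}

theorem farkas_set {T : Finset I} {f : E →ₗ[ℝ] ℝ} (h : ∀ x, (∀ i ∈ T, a i x ≤ 0) → f x ≤ 0) :
    ∃ w : I → ℝ, (∀ i ∈ T, 0 ≤ w i) ∧ (∀ i, i ∉ T → w i = 0) ∧ ∀ x, f x = ∑ i, w i * a i x := by
  classical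
  let e := Fintype.equivFin T
  obtain ⟨w, hw, hf⟩ := H575R2.farkas_lin (Fintype.card T) (fun i => a (e.symm i)) f (by
    intro x hx
    refine h x fun i hi => ?_
    have := hx (e ⟨i, hi⟩)
    simpa using this)
  refine ⟨fun i => if hi : i ∈ T then w (e ⟨i, hi⟩) else 0, fun i hi => ?_, fun i hi => ?_,
    fun x => ?_⟩
  · simp only [hi, dif_pos]; exact hw _
  · simp only [hi, dif_neg, not_false_eq_true]
  · rw [hf x, ← e.sum_comp]
    simp only [Equiv.symm_apply_apply]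
    rw [← sum_subset (subset_univ T) (fun i _ hi => by simp [hi]),
      ← sum_coe_sort T (fun i => (if hi : i ∈ T then w (e ⟨i, hi⟩) else 0) * a i x)]
    refine sum_congr rfl fun i _ => ?_
    simp [i.2]

theorem strict_dual {T : Finset I} (hT : Spans a T) {f : E →ₗ[ℝ] ℝ}
    (hf : ∀ e, Dir a T e → f e < 0) :
    ∃ y : I → ℝ, (∀ i ∈ T, 0 < y i) ∧ (∀ i, i ∉ T → y i = 0) ∧ ∀ x, f x = ∑ i, y i * a i x := by
  classical
  set D : Finset E := (dir_finite a T).toFinset with hD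
  have memD : ∀ e, e ∈ D ↔ Dir a T e := fun e => by
    rw [hD, Set.Finite.mem_toFinset]; rfl
  obtain ⟨δ, hδ, hδ'⟩ := exists_small D (fun e => -f e) (fun _ => 1) (fun e he => by
    have := hf e ((memD e).1 he)
    linarith)
  obtain ⟨w, w1, w2, w3⟩ := farkas_set (a := a) (T := T) (f := f + δ • lin a T) (by
    intro x hx
    refine cone_le hT (fun e he => ?_) hx
    have := hδ' e ((memD e).2 he)
    simp only [LinearMap.add_apply, LinearMap.smul_apply, smul_eq_mul, he.2.1]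
    linarith)
  refine ⟨fun i => if i ∈ T then w i + δ else 0, fun i hi => ?_, fun i hi => ?_, fun x => ?_⟩
  · simp only [hi, if_true]
    have := w1 i hi
    linarith
  · simp [hi]
  · have h1 := w3 x
    simp only [LinearMap.add_apply, LinearMap.smul_apply, smul_eq_mul, lin_apply] at h1
    have h2 : ∑ i, w i * a i x = ∑ i ∈ T, w i * a i x :=
      (sum_subset (subset_univ T) (fun i _ hi => by rw [w2 i hi]; ring)).symm
    have h3 : ∑ i, (if i ∈ T then w i + δ else 0) * a i x = ∑ i ∈ T, (w i + δ) * a i x := by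
      rw [← sum_subset (subset_univ T) (fun i _ hi => by simp [hi])]
      refine sum_congr rfl fun i hi => by simp [hi]
    rw [h3]
    rw [h2] at h1
    simp only [add_mul, sum_add_distrib, ← mul_sum]
    linarith

/-- one improving edge -/
def Step (a : I → E →ₗ[ℝ] ℝ) (β : I → ℝ) (c : E →ₗ[ℝ] ℝ) (v w : E) : Prop :=
  Vert a β v ∧ Vert a β w ∧ ∃ (e : E) (t : ℝ), Dir a (tight a β v) e ∧ 0 < c e ∧ 0 < t ∧
    w = v + t • e ∧ ∀ s : ℝ, v + s • e ∈ PP a β → s ≤ t

theorem Step.lt {c : E →ₗ[ℝ] ℝ} {v w : E} (h : Step a β c v w) : c v < c w := by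
  obtain ⟨_, _, e, t, _, h1, h2, rfl, _⟩ := h
  rw [map_add, map_smul, smul_eq_mul]
  have := mul_pos h2 h1
  linarith

/-- the path of the shadow vertex rule -/
theorem path {d c : E →ₗ[ℝ] ℝ} (hg : Gen a β d c) {S : Finset E}
    (hS : ∀ w θ, Sh a β d c w θ → w ∈ S) (v : E) (θ₀ : ℝ) (hv : Sh a β d c v θ₀) :
    ∃ (N : ℕ) (x : ℕ → E) (θ : ℕ → ℝ), N < S.card ∧ x 0 = v ∧ θ 0 = θ₀ ∧
      (∀ k ≤ N, Sh a β d c (x k) (θ k)) ∧
      (∀ k < N, Step a β c (x k) (x (k + 1)) ∧ θ k < θ (k + 1)) ∧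
      ((∀ e, Dir a (tight a β (x N)) e → c e ≤ 0) ∨
        ∃ e, Dir a (tight a β (x N)) e ∧ 0 < c e ∧ ∀ t : ℝ, 0 ≤ t → x N + t • e ∈ PP a β) := by
  classical
  -- the stronger bound
  suffices h : ∀ (M : ℕ) (v : E) (θ₀ : ℝ), Sh a β d c v θ₀ →
      (S.filter fun w => c v < c w).card ≤ M →
      ∃ (N : ℕ) (x : ℕ → E) (θ : ℕ → ℝ), N ≤ M ∧ x 0 = v ∧ θ 0 = θ₀ ∧
        (∀ k ≤ N, Sh a β d c (x k) (θ k)) ∧
        (∀ k < N, Step a β c (x k) (x (k + 1)) ∧ θ k < θ (k + 1)) ∧
        ((∀ e, Dir a (tight a β (x N)) e → c e ≤ 0) ∨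
          ∃ e, Dir a (tight a β (x N)) e ∧ 0 < c e ∧ ∀ t : ℝ, 0 ≤ t → x N + t • e ∈ PP a β) by
    obtain ⟨N, x, θ, h1, h2⟩ := h _ v θ₀ hv le_rfl
    refine ⟨N, x, θ, lt_of_le_of_lt h1 ?_, h2⟩
    apply card_lt_card
    refine ⟨filter_subset _ _, fun hsub => ?_⟩
    exact lt_irrefl _ (mem_filter.1 (hsub (hS v θ₀ hv))).2
  intro M
  induction M with
  | zero =>
    intro v θ₀ hv hc
    rcases next hg hv with h | ⟨e, he, hce, h | ⟨t, θ, ht, hmax, hθ, hsh⟩⟩
    · refine ⟨0, fun _ => v, fun _ => θ₀, le_rfl, rfl, rfl, fun k _ => hv, fun k hk => ?_, Or.inl h⟩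
      omega
    · refine ⟨0, fun _ => v, fun _ => θ₀, le_rfl, rfl, rfl, fun k _ => hv, fun k hk => ?_,
        Or.inr ⟨e, he, hce, h⟩⟩
      omega
    · exfalso
      have h1 := card_eq_zero.1 (Nat.le_zero.1 hc)
      have h2 : v + t • e ∈ S.filter fun w => c v < c w := by
        refine mem_filter.2 ⟨hS _ _ hsh, ?_⟩
        rw [map_add, map_smul, smul_eq_mul]
        have := mul_pos ht hce
        linarith
      rw [h1] at h2
      exact absurd h2 (notMem_empty _)
  | succ M ih =>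
    intro v θ₀ hv hc
    rcases next hg hv with h | ⟨e, he, hce, h | ⟨t, θ, ht, hmax, hθ, hsh⟩⟩
    · refine ⟨0, fun _ => v, fun _ => θ₀, Nat.zero_le _, rfl, rfl, fun k _ => hv,
        fun k hk => ?_, Or.inl h⟩
      omega
    · refine ⟨0, fun _ => v, fun _ => θ₀, Nat.zero_le _, rfl, rfl, fun k _ => hv,
        fun k hk => ?_, Or.inr ⟨e, he, hce, h⟩⟩
      omega
    · have hlt : c v < c (v + t • e) := by
        rw [map_add, map_smul, smul_eq_mul]
        have := mul_pos ht hce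
        linarith
      have hcard : (S.filter fun w => c (v + t • e) < c w).card ≤ M := by
        have : (S.filter fun w => c (v + t • e) < c w).card <
            (S.filter fun w => c v < c w).card := by
          apply card_lt_card
          refine ⟨fun w hw => ?_, fun hsub => ?_⟩
          · obtain ⟨h1, h2⟩ := mem_filter.1 hw
            exact mem_filter.2 ⟨h1, hlt.trans h2⟩
          · exact lt_irrefl _ (mem_filter.1 (hsub (mem_filter.2 ⟨hS _ _ hsh, hlt⟩))).2
        omega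
      obtain ⟨N, x, η, h1, h2, h3, h4, h5, h6⟩ := ih _ θ hsh hcard
      refine ⟨N + 1, fun k => Nat.casesOn k v x, fun k => Nat.casesOn k θ₀ η, by omega, rfl, rfl,
        ?_, ?_, h6⟩
      · intro k hk
        cases k with
        | zero => exact hv
        | succ k => exact h4 k (by omega)
      · intro k hk
        cases k with
        | zero =>
          change Step a β c v (x 0) ∧ θ₀ < η 0
          rw [h2, h3]
          exact ⟨⟨hv.1, hsh.1, e, t, he, hce, ht, rfl, hmax⟩, hθ⟩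
        | succ k => exact h5 k (by omega)

end Pool.Agent.K4H92.LP
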