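import Pool.Agent.K4H92.LP.Steps
set_option autoImplicit false

/-!
# Nested structures
-/

namespace Pool.Agent.K4H92.LP

open Finset Module

variable {m n : ℕ}

/-- The rows `R` and the columns `X` of the matrix `A` form a nested block structure of depth `D`:
at every level one row or one column may be deleted, and then the matrix may be split into blocks
without common rows and columns. -/
inductive Nested (A : Fin m → Fin n → ℝ) : ℕ → Finset (Fin m) → Finset (Fin n) → Prop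
  | nil (D : ℕ) (R : Finset (Fin m)) (X : Finset (Fin n)) (h : ∀ i ∈ R, ∀ j ∈ X, A i j = 0) :
      Nested A D R X
  | union (D : ℕ) (R₁ R₂ : Finset (Fin m)) (X₁ X₂ : Finset (Fin n)) (hR : Disjoint R₁ R₂)
      (hX : Disjoint X₁ X₂) (h₁ : ∀ i ∈ R₁, ∀ j ∈ X₂, A i j = 0)
      (h₂ : ∀ i ∈ R₂, ∀ j ∈ X₁, A i j = 0) (c₁ : Nested A D R₁ X₁) (c₂ : Nested A D R₂ X₂) :
      Nested A D (R₁ ∪ R₂) (X₁ ∪ X₂)
  | row (D : ℕ) (R : Finset (Fin m)) (X : Finset (Fin n)) (i : Fin m) (hi : i ∉ R)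
      (c : Nested A D R X) : Nested A (D + 1) (insert i R) X
  | col (D : ℕ) (R : Finset (Fin m)) (X : Finset (Fin n)) (j : Fin n) (hj : j ∉ X)
      (c : Nested A D R X) : Nested A (D + 1) R (insert j X)

/-- the exponent -/
def ex (D κ : ℕ) : ℕ := (8 * (κ + D + 1)) ^ D

theorem ex_pos (D κ : ℕ) : 1 ≤ ex D κ := Nat.one_le_pow _ _ (by omega)

theorem pow_superadd (a b E : ℕ) (hE : 1 ≤ E) :
    (a + 1) ^ E + (b + 1) ^ E ≤ (a + b + 1) ^ E + 1 := by
  induction E, hE using Nat.le_induction with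
  | base => rw [pow_one, pow_one, pow_one]; omega
  | succ E _ ih =>
    have h1 : 1 ≤ (a + 1) ^ E := Nat.one_le_pow _ _ (by omega)
    have h2 : 1 ≤ (b + 1) ^ E := Nat.one_le_pow _ _ (by omega)
    have h3 : (a + b + 1) * ((a + 1) ^ E + (b + 1) ^ E) ≤ (a + b + 1) * ((a + b + 1) ^ E + 1) :=
      Nat.mul_le_mul_left _ ih
    have h4 : b * 1 ≤ b * (a + 1) ^ E := Nat.mul_le_mul_left _ h1
    have h5 : a * 1 ≤ a * (b + 1) ^ E := Nat.mul_le_mul_left _ h2
    rw [pow_succ, pow_succ, pow_succ]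
    nlinarith [h3, h4, h5]

theorem step_bound {M s D κ : ℕ} (hM : M + 1 ≤ (s + 1) ^ ex D (κ + 1)) :
    2 * (2 * (2 * M + 1) ^ (κ + 1)) ^ 2 + 1 ≤ (s + 1 + 1) ^ ex (D + 1) κ := by
  set E := ex D (κ + 1) with hE
  have hE1 : 1 ≤ E := ex_pos _ _
  have h1 : 2 * M + 1 ≤ (s + 2) ^ (E + 1) := by
    calc 2 * M + 1 ≤ 2 * (s + 1) ^ E := by omega
      _ ≤ (s + 2) * (s + 2) ^ E := Nat.mul_le_mul (by omega) (Nat.pow_le_pow_left (by omega) _)
      _ = (s + 2) ^ (E + 1) := by ring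
  have h2 : (2 * (2 * M + 1) ^ (κ + 1)) ^ 2 ≤ 4 * (s + 2) ^ (2 * (κ + 1) * (E + 1)) := by
    calc (2 * (2 * M + 1) ^ (κ + 1)) ^ 2 ≤ (2 * ((s + 2) ^ (E + 1)) ^ (κ + 1)) ^ 2 :=
          Nat.pow_le_pow_left (Nat.mul_le_mul_left _ (Nat.pow_le_pow_left h1 _)) _
      _ = 4 * (s + 2) ^ (2 * (κ + 1) * (E + 1)) := by
          rw [mul_pow, ← pow_mul, ← pow_mul]
          congr 2
          ring
  have h3 : 1 ≤ (s + 2) ^ (2 * (κ + 1) * (E + 1)) := Nat.one_le_pow _ _ (by omega)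
  have h4 : 2 ^ 4 ≤ (s + 2) ^ 4 := Nat.pow_le_pow_left (by omega) 4
  have h5 : 4 + 2 * (κ + 1) * (E + 1) ≤ ex (D + 1) κ := by
    have : ex (D + 1) κ = 8 * (κ + D + 2) * E := by
      rw [hE]
      unfold ex
      rw [pow_succ]
      have e1 : κ + (D + 1) + 1 = κ + D + 2 := by ring
      have e2 : κ + 1 + D + 1 = κ + D + 2 := by ring
      rw [e1, e2]
      ring
    rw [this]
    nlinarith
  calc 2 * (2 * (2 * M + 1) ^ (κ + 1)) ^ 2 + 1
      ≤ 2 * (4 * (s + 2) ^ (2 * (κ + 1) * (E + 1))) + 1 := by omega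
    _ ≤ 2 ^ 4 * (s + 2) ^ (2 * (κ + 1) * (E + 1)) := by
        have : (2:ℕ) ^ 4 = 16 := by norm_num
        rw [this]
        omega
    _ ≤ (s + 2) ^ 4 * (s + 2) ^ (2 * (κ + 1) * (E + 1)) := Nat.mul_le_mul_right _ h4
    _ = (s + 2) ^ (4 + 2 * (κ + 1) * (E + 1)) := by rw [← pow_add]
    _ ≤ (s + 2) ^ ex (D + 1) κ := Nat.pow_le_pow_right (by omega) h5

theorem Nested.sep {A : Fin m → Fin n → ℝ} {D : ℕ} {R : Finset (Fin m)} {X : Finset (Fin n)}
    (h : Nested A D R X) :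
    ∀ κ, ∃ M, M + 1 ≤ (R.card + X.card + 1) ^ ex D κ ∧ Sep A R X M κ := by
  classical
  induction h with
  | nil D R X h =>
    intro κ
    refine ⟨X.card + R.card, ?_, Sep.nil h⟩
    calc X.card + R.card + 1 = (R.card + X.card + 1) ^ 1 := by ring
      _ ≤ _ := Nat.pow_le_pow_right (by omega) (ex_pos _ _)
  | union D R₁ R₂ X₁ X₂ hR hX h₁ h₂ _ _ i₁ i₂ =>
    intro κ
    obtain ⟨M₁, a1, b1⟩ := i₁ κ
    obtain ⟨M₂, a2, b2⟩ := i₂ κ
    refine ⟨M₁ + M₂, ?_, Sep.union h₁ h₂ b1 b2⟩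
    rw [card_union_of_disjoint hR, card_union_of_disjoint hX]
    have := pow_superadd (R₁.card + X₁.card) (R₂.card + X₂.card) (ex D κ) (ex_pos _ _)
    have e : R₁.card + R₂.card + (X₁.card + X₂.card) + 1 =
      R₁.card + X₁.card + (R₂.card + X₂.card) + 1 := by ring
    rw [e]
    omega
  | row D R X i hi _ ih =>
    intro κ
    obtain ⟨M, a, b⟩ := ih (κ + 1)
    refine ⟨_, ?_, (b.cnt.row hi).sep⟩
    rw [card_insert_of_notMem hi]
    have := step_bound a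
    have e : R.card + 1 + X.card + 1 = R.card + X.card + 1 + 1 := by ring
    rw [e]
    exact this
  | col D R X j hj _ ih =>
    intro κ
    obtain ⟨M, a, b⟩ := ih (κ + 1)
    refine ⟨_, ?_, (b.cnt.col hj).sep⟩
    rw [card_insert_of_notMem hj]
    exact step_bound a

/-- The number of optimal partitions for a nested structure. -/
theorem Nested.cnt {A : Fin m → Fin n → ℝ} {D : ℕ} {R : Finset (Fin m)} {X : Finset (Fin n)}
    (h : Nested A D R X) (κ : ℕ) :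
    Cnt A R X ((R.card + X.card + 1) ^ (8 * (κ + D + 1)) ^ (D + 1)) κ := by
  obtain ⟨M, a, b⟩ := h.sep κ
  intro W U hd
  refine (b.cnt W U hd).trans ?_
  set s := R.card + X.card with hs
  set E := ex D κ with hE
  have hE1 : 1 ≤ E := ex_pos _ _
  have h1 : 2 * M + 1 ≤ (s + 1) ^ (E + 1) := by
    rcases Nat.eq_zero_or_pos s with h0 | h0
    · rw [h0] at a ⊢
      simp only [zero_add, one_pow] at a ⊢
      omega
    · calc 2 * M + 1 ≤ 2 * (s + 1) ^ E := by omega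
        _ ≤ (s + 1) * (s + 1) ^ E := Nat.mul_le_mul_right _ (by omega)
        _ = (s + 1) ^ (E + 1) := by ring
  calc (2 * M + 1) ^ κ ≤ ((s + 1) ^ (E + 1)) ^ κ := Nat.pow_le_pow_left h1 _
    _ = (s + 1) ^ ((E + 1) * κ) := by rw [← pow_mul]
    _ ≤ _ := by
        refine Nat.pow_le_pow_right (by omega) ?_
        rw [pow_succ]
        change (E + 1) * κ ≤ E * (8 * (κ + D + 1))
        nlinarith

end Pool.Agent.K4H92.LP
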