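import Pool.Agent.K4H92.LP.Path
import Pool.Agent.K4H92.LP.Nest
set_option autoImplicit false

/-!
# Linear programs `max c x`, `A x ≤ b`, `x ≥ 0`
-/

namespace Pool.Agent.K4H92.LP

open Finset

section General

variable {E : Type*} [NormedAddCommGroup E] [NormedSpace ℝ E] [FiniteDimensional ℝ E]
  {I : Type*} [Fintype I] {a : I → E →ₗ[ℝ] ℝ} {β : I → ℝ}

theorem Vert.of_extreme {v : E} (hv : v ∈ Set.extremePoints ℝ (PP a β)) : Vert a β v := by
  refine ⟨hv.1, fun g hg => ?_⟩
  by_contra hg0
  obtain ⟨t, ht, h1⟩ := small_step hv.1 (e := g) fun i hi => (hg i hi).le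
  obtain ⟨s, hs, h2⟩ := small_step hv.1 (e := -g) fun i hi => by
    rw [map_neg, hg i hi, neg_zero]
  have hseg : v ∈ openSegment ℝ (v + t • g) (v + s • -g) := by
    have hts : 0 < t + s := by positivity
    refine ⟨s / (t + s), t / (t + s), by positivity, by positivity, by field_simp; ring, ?_⟩
    have e1 : s / (t + s) + t / (t + s) = 1 := by field_simp; ring
    have e2 : s / (t + s) * t - t / (t + s) * s = 0 := by field_simp; ring
    calc (s / (t + s)) • (v + t • g) + (t / (t + s)) • (v + s • -g)
        = (s / (t + s) + t / (t + s)) • v + (s / (t + s) * t - t / (t + s) * s) • g := by module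
      _ = v := by rw [e1, e2]; simp
  have h3 := hv.2 h1 h2 hseg
  have h4 : t • g = 0 := by
    have : v + t • g = v + 0 := by rw [h3, add_zero]
    exact add_left_cancel this
  rcases smul_eq_zero.1 h4 with h5 | h5
  · exact ht.ne' h5
  · exact hg0 h5

theorem Vert.extreme {v : E} (hv : Vert a β v) : v ∈ Set.extremePoints ℝ (PP a β) := by
  refine ⟨hv.1, fun x hx y hy hxy => ?_⟩
  obtain ⟨s, t, hs, ht, hst, h⟩ := hxy
  have h1 : x - v = 0 := by
    apply hv.2
    intro i hi
    have h2 := hx i
    have h3 := hy i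
    have h4 : s * a i x + t * a i y = β i := by
      rw [← mem_tight.1 hi, ← h]; simp
    rw [map_sub, mem_tight.1 hi]
    have h5 : s * a i x ≤ s * β i := mul_le_mul_of_nonneg_left h2 hs.le
    have h6 : t * a i y ≤ t * β i := mul_le_mul_of_nonneg_left h3 ht.le
    have h7 : s * β i + t * β i = β i := by rw [← add_mul, hst, one_mul]
    have h8 : s * a i x = s * β i := by linarith
    have := mul_left_cancel₀ hs.ne' h8
    linarith
  exact sub_eq_zero.1 h1

theorem Step.exposed {c : E →ₗ[ℝ] ℝ} {v w : E} (h : Step a β c v w) :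
    IsExposed ℝ (PP a β) (segment ℝ v w) := by
  obtain ⟨hv, hw, e, t, he, hce, ht, rfl, hmax⟩ := h
  intro _
  obtain ⟨f, hfe, hf1, hf2⟩ := edge_fun hv.1 he
  refine ⟨LinearMap.toContinuousLinearMap f, ?_⟩
  ext x
  simp only [LinearMap.coe_toContinuousLinearMap', Set.mem_setOf_eq]
  constructor
  · rintro ⟨p, q, hp, hq, hpq, rfl⟩
    have hconv : p • v + q • (v + t • e) = v + (q * t) • e := by
      calc p • v + q • (v + t • e) = (p + q) • v + (q * t) • e := by module
        _ = _ := by rw [hpq, one_smul]
    refine ⟨fun i => ?_, fun y hy => ?_⟩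
    · have h1 := hv.1 i
      have h2 := hw.1 i
      rw [map_add, map_smul, map_smul, smul_eq_mul, smul_eq_mul]
      have h3 := mul_le_mul_of_nonneg_left h1 hp
      have h4 := mul_le_mul_of_nonneg_left h2 hq
      have h5 : p * β i + q * β i = β i := by rw [← add_mul, hpq, one_mul]
      linarith
    · rw [hconv, map_add, map_smul, hfe, smul_zero, add_zero]
      exact hf1 y hy
  · rintro ⟨hx, hmx⟩
    have h1 := hf1 x hx
    have h2 := hmx v hv.1
    obtain ⟨s, hs, rfl⟩ := hf2 x hx (le_antisymm h1 h2)
    have h3 := hmax s hx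
    refine ⟨1 - s / t, s / t, ?_, div_nonneg hs ht.le, by ring, ?_⟩
    · rw [sub_nonneg, div_le_one ht]; exact h3
    · calc (1 - s / t) • v + (s / t) • (v + t • e) = v + (s / t * t) • e := by module
        _ = _ := by rw [div_mul_cancel₀ _ ht.ne']

theorem ray_exposed' {v e : E} (hv : Vert a β v) (he : Dir a (tight a β v) e)
    (hr : ∀ t : ℝ, 0 ≤ t → v + t • e ∈ PP a β) :
    IsExposed ℝ (PP a β) {z | ∃ t : ℝ, 0 ≤ t ∧ z = v + t • e} := by
  intro _
  obtain ⟨f, hfe, hf1, hf2⟩ := edge_fun hv.1 he
  refine ⟨LinearMap.toContinuousLinearMap f, ?_⟩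
  ext x
  simp only [LinearMap.coe_toContinuousLinearMap', Set.mem_setOf_eq]
  constructor
  · rintro ⟨t, ht, rfl⟩
    refine ⟨hr t ht, fun y hy => ?_⟩
    rw [map_add, map_smul, hfe, smul_zero, add_zero]
    exact hf1 y hy
  · rintro ⟨hx, hmx⟩
    exact hf2 x hx (le_antisymm (hf1 x hx) (hmx v hv.1))

/-- the unique maximiser of a functional is a strictly optimal vertex -/
theorem of_unique {f : E →ₗ[ℝ] ℝ} {v : E} (hv : v ∈ PP a β)
    (hf : ∀ x ∈ PP a β, x ≠ v → f x < f v) :
    Vert a β v ∧ ∀ e, Dir a (tight a β v) e → f e < 0 := by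
  constructor
  · refine ⟨hv, fun g hg => ?_⟩
    by_contra hg0
    obtain ⟨t, ht, h1⟩ := small_step hv (e := g) fun i hi => (hg i hi).le
    obtain ⟨s, hs, h2⟩ := small_step hv (e := -g) fun i hi => by
      rw [map_neg, hg i hi, neg_zero]
    have h3 := hf _ h1 (fun h => hg0 (by
      have h4 : t • g = 0 := by
        have : v + t • g = v + 0 := by rw [h, add_zero]
        exact add_left_cancel this
      rcases smul_eq_zero.1 h4 with h5 | h5
      · exact absurd h5 ht.ne'
      · exact h5))
    have h4 := hf _ h2 (fun h => hg0 (by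
      have h4 : s • -g = 0 := by
        have : v + s • -g = v + 0 := by rw [h, add_zero]
        exact add_left_cancel this
      rcases smul_eq_zero.1 h4 with h5 | h5
      · exact absurd h5 hs.ne'
      · exact neg_eq_zero.1 h5))
    rw [map_add, map_smul, smul_eq_mul] at h3 h4
    rw [map_neg] at h4
    have h5 : f g < 0 := by
      by_contra hcon
      push Not at hcon
      have := mul_nonneg ht.le hcon
      linarith
    have h6 : 0 < f g := by
      by_contra hcon
      push Not at hcon
      have := mul_nonneg hs.le (neg_nonneg.2 hcon)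
      linarith
    linarith
  · intro e he
    obtain ⟨t, ht, h1⟩ := small_step hv he.1
    have h2 := hf _ h1 (fun h => he.ne_zero (by
      have h4 : t • e = 0 := by
        have : v + t • e = v + 0 := by rw [h, add_zero]
        exact add_left_cancel this
      rcases smul_eq_zero.1 h4 with h5 | h5
      · exact absurd h5 ht.ne'
      · exact h5))
    rw [map_add, map_smul, smul_eq_mul] at h2
    by_contra hcon
    push Not at hcon
    have := mul_nonneg ht.le hcon
    linarith

end General

variable {m n : ℕ}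

/-- the rows of a linear program -/
noncomputable def rows (A : Fin m → Fin n → ℝ) : Fin m ⊕ Fin n → (Fin n → ℝ) →ₗ[ℝ] ℝ
  | Sum.inl i => ∑ j, A i j • LinearMap.proj j
  | Sum.inr j => -LinearMap.proj j

/-- the right-hand sides -/
def rhs (b : Fin m → ℝ) : Fin m ⊕ Fin n → ℝ := Sum.elim b fun _ => 0

/-- the objective -/
noncomputable def lf (c : Fin n → ℝ) : (Fin n → ℝ) →ₗ[ℝ] ℝ := ∑ j, c j • LinearMap.proj j

theorem lf_apply (c x : Fin n → ℝ) : lf c x = ∑ j, c j * x j := by
  simp [lf, LinearMap.sum_apply]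

theorem rows_inl (A : Fin m → Fin n → ℝ) (i : Fin m) (x : Fin n → ℝ) :
    rows A (Sum.inl i) x = ∑ j, A i j * x j := by
  simp [rows, LinearMap.sum_apply]

theorem rows_inr (A : Fin m → Fin n → ℝ) (j : Fin n) (x : Fin n → ℝ) :
    rows A (Sum.inr j) x = -x j := by
  simp [rows]

theorem mem_PP {A : Fin m → Fin n → ℝ} {b : Fin m → ℝ} {x : Fin n → ℝ} :
    x ∈ PP (rows A) (rhs b) ↔ (∀ i, ∑ j, A i j * x j ≤ b i) ∧ ∀ j, 0 ≤ x j := by
  constructor
  · intro h
    refine ⟨fun i => ?_, fun j => ?_⟩
    · have := h (Sum.inl i)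
      rw [rows_inl] at this
      exact this
    · have := h (Sum.inr j)
      rw [rows_inr] at this
      simp only [rhs, Sum.elim_inr] at this
      linarith
  · rintro ⟨h1, h2⟩ (i | j)
    · rw [rows_inl]; exact h1 i
    · rw [rows_inr]
      simp only [rhs, Sum.elim_inr]
      linarith [h2 j]

open Classical in
/-- the optimal partition of a vertex -/
noncomputable def part (A : Fin m → Fin n → ℝ) (b : Fin m → ℝ) (v : Fin n → ℝ) :
    Finset (Fin n) × Finset (Fin m) :=
  (univ.filter fun j => 0 < v j, univ.filter fun i => ∑ j, A i j * v j = b i)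

theorem part_inj {A : Fin m → Fin n → ℝ} {b : Fin m → ℝ} {v w : Fin n → ℝ}
    (hv : Vert (rows A) (rhs b) v) (hw : Vert (rows A) (rhs b) w)
    (h : part A b v = part A b w) : v = w := by
  have h0 : v - w = 0 := by
    apply hv.2
    rintro (i | j) hi
    · rw [mem_tight, rows_inl] at hi
      have h1 : i ∈ (part A b v).2 := by simpa [part, rhs] using hi
      rw [h] at h1
      have h2 : ∑ j, A i j * w j = b i := by simpa [part] using h1
      rw [map_sub, rows_inl, rows_inl, hi, h2]
      exact sub_self _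
    · rw [mem_tight, rows_inr] at hi
      simp only [rhs, Sum.elim_inr, neg_eq_zero] at hi
      have h1 : j ∉ (part A b v).1 := by simp [part, hi]
      rw [h] at h1
      have h2 : ¬ 0 < w j := by simpa [part] using h1
      have h3 : w j = 0 := le_antisymm (not_lt.1 h2) ((mem_PP.1 hw.1).2 j)
      rw [map_sub, rows_inr, rows_inr, hi, h3]
      ring
  exact sub_eq_zero.1 h0

theorem part_type {A : Fin m → Fin n → ℝ} {b : Fin m → ℝ} {v p : Fin n → ℝ}
    (hv : Vert (rows A) (rhs b) v)
    (hp : ∀ e, Dir (rows A) (tight (rows A) (rhs b) v) e → lf p e < 0) :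
    IsType A univ univ p b (part A b v) := by
  classical
  obtain ⟨h1, h2⟩ := mem_PP.1 hv.1
  refine ⟨subset_univ _, subset_univ _, ⟨v, fun j hj => ?_, fun j hj => ?_, fun i hi => ?_,
    fun i _ hi => ?_⟩, ?_⟩
  · simpa [part] using hj
  · have : ¬ 0 < v j := by simpa [part] using hj
    exact le_antisymm (not_lt.1 this) (h2 j)
  · simpa [part] using hi
  · refine lt_of_le_of_ne (h1 i) ?_
    simpa [part] using hi
  · obtain ⟨y, y1, y2, y3⟩ := strict_dual hv.2 hp
    -- coordinates of the identity
    have hcoord : ∀ j, p j = ∑ i, A i j * y (Sum.inl i) - y (Sum.inr j) := by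
      intro j
      have h3 := y3 (Pi.single j 1)
      rw [lf_apply, Fintype.sum_sum_type] at h3
      simp only [rows_inl, rows_inr] at h3
      have e1 : ∑ k, p k * (Pi.single j (1:ℝ) : Fin n → ℝ) k = p j := by
        rw [sum_eq_single j]
        · simp
        · intro k _ hk; simp [Pi.single_eq_of_ne hk]
        · intro hk; exact absurd (mem_univ _) hk
      have e2 : ∀ i, ∑ k, A i k * (Pi.single j (1:ℝ) : Fin n → ℝ) k = A i j := by
        intro i
        rw [sum_eq_single j]
        · simp
        · intro k _ hk; simp [Pi.single_eq_of_ne hk]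
        · intro hk; exact absurd (mem_univ _) hk
      have e3 : ∑ k, y (Sum.inr k) * -(Pi.single j (1:ℝ) : Fin n → ℝ) k = -y (Sum.inr j) := by
        rw [sum_eq_single j]
        · simp
        · intro k _ hk; simp [Pi.single_eq_of_ne hk]
        · intro hk; exact absurd (mem_univ _) hk
      rw [e1, e3] at h3
      simp only [e2] at h3
      rw [h3]
      have : ∑ i, y (Sum.inl i) * A i j = ∑ i, A i j * y (Sum.inl i) :=
        sum_congr rfl fun i _ => mul_comm _ _
      rw [this]
      ring
    refine ⟨fun i => y (Sum.inl i), fun i hi => ?_, fun i hi => ?_, fun j hj => ?_,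
      fun j _ hj => ?_⟩
    · apply y1
      rw [mem_tight, rows_inl]
      simpa [part, rhs] using hi
    · apply y2
      rw [mem_tight, rows_inl]
      simpa [part, rhs] using hi
    · have h4 : 0 < v j := by simpa [part] using hj
      have h5 : y (Sum.inr j) = 0 := by
        apply y2
        rw [mem_tight, rows_inr]
        simp only [rhs, Sum.elim_inr, neg_eq_zero]
        exact h4.ne'
      rw [hcoord j, h5, sub_zero]
    · have h4 : ¬ 0 < v j := by simpa [part] using hj
      have h5 : 0 < y (Sum.inr j) := by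
        apply y1
        rw [mem_tight, rows_inr]
        simp only [rhs, Sum.elim_inr, neg_eq_zero]
        exact le_antisymm (not_lt.1 h4) (h2 j)
      rw [hcoord j]
      linarith

/-- the vertices which are unique maximisers of objectives in `W` -/
def shadowVerts (A : Fin m → Fin n → ℝ) (b : Fin m → ℝ) (W : Submodule ℝ (Fin n → ℝ)) :
    Set (Fin n → ℝ) :=
  {v | Vert (rows A) (rhs b) v ∧ ∃ p ∈ W,
    ∀ e, Dir (rows A) (tight (rows A) (rhs b) v) e → lf p e < 0}

theorem card_shadow {A : Fin m → Fin n → ℝ} {N κ : ℕ} (h : Cnt A univ univ N κ) (b : Fin m → ℝ)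
    (W : Submodule ℝ (Fin n → ℝ)) (hW : Module.finrank ℝ W + 1 ≤ κ) :
    (shadowVerts A b W).Finite ∧ (shadowVerts A b W).ncard ≤ N := by
  have h1 := h W (Submodule.span ℝ {b}) (by
    have h2 : Module.finrank ℝ (Submodule.span ℝ {b}) ≤ 1 := by
      refine (finrank_span_le_card ({b} : Set (Fin m → ℝ))).trans ?_
      simp
    omega)
  have hinj : Set.InjOn (part A b) (shadowVerts A b W) := fun v hv w hw he =>
    part_inj hv.1 hw.1 he
  have hmap : Set.MapsTo (part A b) (shadowVerts A b W)
      (types A univ univ W (Submodule.span ℝ {b})) := by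
    rintro v ⟨hv, p, hp, hpe⟩
    exact ⟨p, hp, b, Submodule.mem_span_singleton_self b, part_type hv hpe⟩
  have hf : (types A univ univ W (Submodule.span ℝ {b})).Finite := Set.toFinite _
  have hfin : (shadowVerts A b W).Finite :=
    Set.Finite.of_finite_image (hf.subset (Set.image_subset_iff.2 hmap)) hinj
  refine ⟨hfin, ?_⟩
  exact (Set.ncard_le_ncard_of_injOn _ hmap hinj hf).trans h1

end Pool.Agent.K4H92.LP
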