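import Mathlib
set_option autoImplicit false

/-!
# Centerpoints, and learning a hidden point of a vector space while walking
-/

namespace Pool.Agent.K4H92.LP

open Finset Module

/-- A finite set `V` in a space of dimension at most `N` has a centerpoint: it lies in the convex hull
of each subset with more than `N / (N + 1) * |V|` elements. -/
theorem centerpoint {E : Type*} [AddCommGroup E] [Module ℝ E] [FiniteDimensional ℝ E] {N : ℕ}
    (hN : finrank ℝ E ≤ N) (V : Finset E) :
    ∃ z : E, ∀ V' ⊆ V, N * V.card < (N + 1) * V'.card → z ∈ convexHull ℝ (V' : Set E) := by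
  classical
  set s : Finset (Finset E) := V.powerset.filter fun V' => N * V.card < (N + 1) * V'.card with hs
  have h := Convex.helly_theorem' (𝕜 := ℝ) (F := fun V' : Finset E => convexHull ℝ (V' : Set E))
    (s := s) (fun V' _ => convex_convexHull ℝ _) (by
      intro I hI hc
      rcases V.eq_empty_or_nonempty with rfl | hV
      · -- then `s` is empty
        have : I = ∅ := by
          rw [eq_empty_iff_forall_notMem]
          intro V' hV'
          have h1 := mem_filter.1 (hI hV')
          have h2 : V' = ∅ := subset_empty.1 (mem_powerset.1 h1.1)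
          rw [h2] at h1
          simp at h1
        rw [this]
        simp
      · have hx : ∃ x ∈ V, ∀ V' ∈ I, x ∈ V' := by
          by_contra hcon
          push Not at hcon
          have hsub : V ⊆ I.biUnion fun V' => V \ V' := by
            intro x hx
            obtain ⟨V', h1, h2⟩ := hcon x hx
            exact mem_biUnion.2 ⟨V', h1, mem_sdiff.2 ⟨hx, h2⟩⟩
          have hIne : I.Nonempty := by
            obtain ⟨x, hx⟩ := hV
            obtain ⟨V', h1, _⟩ := hcon x hx
            exact ⟨V', h1⟩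
          have h1 : V.card ≤ ∑ V' ∈ I, (V \ V').card := (card_le_card hsub).trans card_biUnion_le
          have h2 : ∀ V' ∈ I, (N + 1) * (V \ V').card < V.card := by
            intro V' hV'
            obtain ⟨g1, g2⟩ := mem_filter.1 (hI hV')
            have g3 := card_sdiff_add_card_eq_card (mem_powerset.1 g1)
            nlinarith
          have h3 : (N + 1) * ∑ V' ∈ I, (V \ V').card < I.card * V.card := by
            rw [mul_sum, card_eq_sum_ones, sum_mul]
            exact sum_lt_sum_of_nonempty hIne fun V' hV' => by rw [one_mul]; exact h2 V' hV'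
          have h4 : I.card ≤ N + 1 := hc.trans (by omega)
          have h5 : I.card * V.card ≤ (N + 1) * V.card := Nat.mul_le_mul_right _ h4
          have h6 : (N + 1) * V.card ≤ (N + 1) * ∑ V' ∈ I, (V \ V').card :=
            Nat.mul_le_mul_left _ h1
          omega
        obtain ⟨x, _, hx⟩ := hx
        exact ⟨x, Set.mem_iInter₂.2 fun V' hV' => subset_convexHull ℝ _ (hx V' hV')⟩)
  obtain ⟨z, hz⟩ := h
  refine ⟨z, fun V' hV' hc => ?_⟩
  exact Set.mem_iInter₂.1 hz V' (mem_filter.2 ⟨mem_powerset.2 hV', hc⟩)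

/-- a walk on the states `S` which depends on a hidden point of `Z` -/
structure Sys (Z S O Act : Type*) [AddCommGroup Z] [Module ℝ Z] where
  Val : S → Set Z
  F : Z → S → O
  nx : Z → S → Act → S
  Term : S → O → Prop
  Ok : S → O → Act → Prop
  conv : ∀ s o, Convex ℝ {z | z ∈ Val s ∧ F z s = o}
  conv' : ∀ s o a s' o', Ok s o a →
    Convex ℝ {z | z ∈ Val s ∧ F z s = o ∧ nx z s a = s' ∧ F z s' = o'}
  val : ∀ z s a, z ∈ Val s → Ok s (F z s) a → z ∈ Val (nx z s a)

variable {Z S O Act : Type*} [AddCommGroup Z] [Module ℝ Z]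

namespace Sys

variable (G : Sys Z S O Act)

/-- a plan of at most `n` steps for the point `z` -/
inductive Plan (z : Z) : ℕ → S → Prop
  | done (n : ℕ) (s : S) (h : G.Term s (G.F z s)) : Plan z n s
  | step (n : ℕ) (s : S) (a : Act) (h : G.Ok s (G.F z s) a) (h' : Plan z n (G.nx z s a)) :
      Plan z (n + 1) s

open Classical in
/-- there is a strategy with at most `K` steps for all points of `V` -/
def Wins : ℕ → Finset Z → S → O → Prop
  | 0, V, s, o => V = ∅ ∨ G.Term s o
  | K + 1, V, s, o => V = ∅ ∨ G.Term s o ∨ ∃ a, G.Ok s o a ∧ ∀ s' o',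
      Wins K (V.filter fun z => G.nx z s a = s' ∧ G.F z s' = o') s' o'

variable {G}

theorem Wins.succ {K : ℕ} : ∀ {V : Finset Z} {s : S} {o : O}, G.Wins K V s o →
    G.Wins (K + 1) V s o := by
  induction K with
  | zero =>
    intro V s o h
    rcases h with h | h
    · exact Or.inl h
    · exact Or.inr (Or.inl h)
  | succ K ih =>
    intro V s o h
    rcases h with h | h | ⟨a, ha, h⟩
    · exact Or.inl h
    · exact Or.inr (Or.inl h)
    · exact Or.inr (Or.inr ⟨a, ha, fun s' o' => ih (h s' o')⟩)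

theorem Wins.add {K L : ℕ} {V : Finset Z} {s : S} {o : O} (h : G.Wins K V s o) :
    G.Wins (L + K) V s o := by
  induction L with
  | zero => rwa [zero_add]
  | succ L ih =>
    rw [Nat.succ_add]
    exact ih.succ

theorem wins_empty {K : ℕ} {s : S} {o : O} : G.Wins K ∅ s o := by
  cases K with
  | zero => exact Or.inl rfl
  | succ K => exact Or.inl rfl

theorem follow {N T : ℕ} {V : Finset Z} {z : Z}
    (hz : ∀ V' ⊆ V, N * V.card < (N + 1) * V'.card → z ∈ convexHull ℝ (V' : Set Z))
    (ih : ∀ V' ⊆ V, (N + 1) * V'.card ≤ N * V.card → ∀ s o,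
      (∀ y ∈ V', y ∈ G.Val s ∧ G.F y s = o) → G.Wins T V' s o) (L : ℕ) :
    ∀ V' ⊆ V, ∀ s, z ∈ G.Val s → (∀ y ∈ V', y ∈ G.Val s ∧ G.F y s = G.F z s) →
      G.Plan z L s → G.Wins (L + T) V' s (G.F z s) := by
  classical
  induction L with
  | zero =>
    intro V' hV' s hs hV hp
    cases hp with
    | done _ _ h =>
      rw [zero_add]
      cases T with
      | zero => exact Or.inr h
      | succ T => exact Or.inr (Or.inl h)
  | succ L ihL =>
    intro V' hV' s hs hV hp
    rw [Nat.succ_add]
    cases hp with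
    | done _ _ h => exact Or.inr (Or.inl h)
    | step _ _ a ha hp =>
      refine Or.inr (Or.inr ⟨a, ha, fun s' o' => ?_⟩)
      set V'' := V'.filter fun y => G.nx y s a = s' ∧ G.F y s' = o' with hV''
      by_cases heq : G.nx z s a = s' ∧ G.F z s' = o'
      · obtain ⟨rfl, rfl⟩ := heq
        refine ihL V'' ((filter_subset _ _).trans hV') _ (G.val z s a hs ha) (fun y hy => ?_) hp
        obtain ⟨h1, h2, h3⟩ := mem_filter.1 hy
        refine ⟨?_, h3⟩
        rw [← h2]
        refine G.val y s a (hV y h1).1 ?_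
        rw [(hV y h1).2]
        exact ha
      · have hle : (N + 1) * V''.card ≤ N * V.card := by
          by_contra hcon
          push Not at hcon
          have h1 := hz V'' ((filter_subset _ _).trans hV') hcon
          have h2 : (V'' : Set Z) ⊆ {y | y ∈ G.Val s ∧ G.F y s = G.F z s ∧
              G.nx y s a = s' ∧ G.F y s' = o'} := by
            intro y hy
            obtain ⟨g1, g2, g3⟩ := mem_filter.1 (Finset.mem_coe.1 hy)
            exact ⟨(hV y g1).1, (hV y g1).2, g2, g3⟩
          have h3 := convexHull_min h2 (G.conv' s _ a s' o' ha) h1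
          exact heq ⟨h3.2.2.1, h3.2.2.2⟩
        refine (ih V'' ((filter_subset _ _).trans hV') hle s' o' fun y hy => ?_).add
        obtain ⟨h1, h2, h3⟩ := mem_filter.1 hy
        refine ⟨?_, h3⟩
        rw [← h2]
        refine G.val y s a (hV y h1).1 ?_
        rw [(hV y h1).2]
        exact ha

theorem wins_of_card [FiniteDimensional ℝ Z] {N D : ℕ} (hN : finrank ℝ Z ≤ N)
    (hD : ∀ z s, z ∈ G.Val s → G.Plan z D s) (k : ℕ) :
    ∀ (V : Finset Z) (s : S) (o : O), (∀ y ∈ V, y ∈ G.Val s ∧ G.F y s = o) →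
      V.card * N ^ k < (N + 1) ^ k → G.Wins (D * k) V s o := by
  induction k with
  | zero =>
    intro V s o hV hc
    simp only [pow_zero, mul_one, Nat.lt_one_iff, card_eq_zero] at hc
    rw [hc]
    exact wins_empty
  | succ k ih =>
    intro V s o hV hc
    rcases V.eq_empty_or_nonempty with rfl | hne
    · exact wins_empty
    obtain ⟨z, hz⟩ := centerpoint hN V
    have hzV : z ∈ convexHull ℝ (V : Set Z) := by
      refine hz V (Subset.refl _) ?_
      have := card_pos.2 hne
      nlinarith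
    have hzs : z ∈ {y | y ∈ G.Val s ∧ G.F y s = o} :=
      convexHull_min (fun y hy => hV y (Finset.mem_coe.1 hy)) (G.conv s o) hzV
    have h1 := follow (T := D * k) (G := G) hz (fun V' _ hc' s' o' hV'' => by
      refine ih V' s' o' hV'' ?_
      have h2 : (N + 1) * (V'.card * N ^ k) ≤ V.card * N ^ (k + 1) := by
        calc (N + 1) * (V'.card * N ^ k) = (N + 1) * V'.card * N ^ k := by ring
          _ ≤ N * V.card * N ^ k := Nat.mul_le_mul_right _ hc'
          _ = V.card * N ^ (k + 1) := by ring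
      have h3 : (N + 1) * (V'.card * N ^ k) < (N + 1) * (N + 1) ^ k := by
        calc _ ≤ _ := h2
          _ < _ := hc
          _ = _ := by ring
      exact lt_of_mul_lt_mul_left h3 (Nat.zero_le _)) D V (Subset.refl _) s hzs.1
      (fun y hy => by rw [hzs.2]; exact hV y hy) (hD z s hzs.1)
    rw [hzs.2] at h1
    rw [mul_add, mul_one, add_comm]
    exact h1

/-- the history (in chronological order) and the state after `k` steps -/
def run (G : Sys Z S O Act) (z : Z) (ρ : List (S × O) → Act) (s : S) : ℕ → List (S × O) × S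
  | 0 => ([(s, G.F z s)], s)
  | k + 1 => ((run G z ρ s k).1 ++ [(G.nx z (run G z ρ s k).2 (ρ (run G z ρ s k).1),
      G.F z (G.nx z (run G z ρ s k).2 (ρ (run G z ρ s k).1)))],
      G.nx z (run G z ρ s k).2 (ρ (run G z ρ s k).1))

theorem run_head (z : Z) (ρ : List (S × O) → Act) (s : S) (k : ℕ) :
    ∃ l, (run G z ρ s k).1 = (s, G.F z s) :: l := by
  induction k with
  | zero => exact ⟨[], rfl⟩
  | succ k ih =>
    obtain ⟨l, hl⟩ := ih
    refine ⟨l ++ [(G.nx z (run G z ρ s k).2 (ρ (run G z ρ s k).1),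
      G.F z (G.nx z (run G z ρ s k).2 (ρ (run G z ρ s k).1)))], ?_⟩
    change (run G z ρ s k).1 ++ _ = _
    rw [hl]
    rfl

/-- a strategy for a finite set of points -/
theorem strategy [Nonempty Act] (K : ℕ) : ∀ (V : Finset Z) (s : S) (o : O), G.Wins K V s o →
    ∃ ρ : List (S × O) → Act, ∀ z ∈ V, G.F z s = o → ∃ M ≤ K,
      (∀ j < M, G.Ok (run G z ρ s j).2 (G.F z (run G z ρ s j).2) (ρ (run G z ρ s j).1)) ∧
      G.Term (run G z ρ s M).2 (G.F z (run G z ρ s M).2) := by
  classical
  induction K with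
  | zero =>
    intro V s o h
    refine ⟨fun _ => Classical.arbitrary Act, fun z hz hzo => ⟨0, le_rfl, fun j hj => by omega, ?_⟩⟩
    rcases h with h | h
    · rw [h] at hz; exact absurd hz (notMem_empty _)
    · change G.Term s (G.F z s)
      rw [hzo]; exact h
  | succ K ih =>
    intro V s o h
    rcases h with h | h | ⟨a, ha, h⟩
    · refine ⟨fun _ => Classical.arbitrary Act, fun z hz => ?_⟩
      rw [h] at hz; exact absurd hz (notMem_empty _)
    · refine ⟨fun _ => Classical.arbitrary Act, fun z hz hzo =>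
        ⟨0, Nat.zero_le _, fun j hj => by omega, ?_⟩⟩
      change G.Term s (G.F z s)
      rw [hzo]; exact h
    · choose ρ' hρ' using fun p : S × O => ih _ p.1 p.2 (h p.1 p.2)
      set ρ : List (S × O) → Act := fun l => match l with
        | [] => a
        | [_] => a
        | _ :: p :: l => ρ' p (p :: l) with hρ
      refine ⟨ρ, fun z hz hzo => ?_⟩
      set s1 := G.nx z s a with hs1
      obtain ⟨M, hM, h1, h2⟩ := hρ' (s1, G.F z s1) z (mem_filter.2 ⟨hz, hs1.symm, rfl⟩) rfl
      simp only at h1 h2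
      have hrun : ∀ k, run G z ρ s (k + 1) = ((s, G.F z s) ::
          (run G z (ρ' (s1, G.F z s1)) s1 k).1, (run G z (ρ' (s1, G.F z s1)) s1 k).2) := by
        intro k
        induction k with
        | zero => rfl
        | succ k g1 =>
          obtain ⟨l, g2⟩ := run_head (G := G) z (ρ' (s1, G.F z s1)) s1 k
          have e : run G z ρ s (k + 1 + 1) = ((run G z ρ s (k + 1)).1 ++
            [(G.nx z (run G z ρ s (k + 1)).2 (ρ (run G z ρ s (k + 1)).1),
            G.F z (G.nx z (run G z ρ s (k + 1)).2 (ρ (run G z ρ s (k + 1)).1)))],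
            G.nx z (run G z ρ s (k + 1)).2 (ρ (run G z ρ s (k + 1)).1)) := rfl
          have e2 : ρ ((s, G.F z s) :: (run G z (ρ' (s1, G.F z s1)) s1 k).1) =
              ρ' (s1, G.F z s1) (run G z (ρ' (s1, G.F z s1)) s1 k).1 := by
            rw [g2]
          rw [e, g1]
          simp only
          rw [e2]
          rfl
      refine ⟨M + 1, by omega, fun j hj => ?_, ?_⟩
      · cases j with
        | zero =>
          change G.Ok s (G.F z s) a
          rw [hzo]; exact ha
        | succ j =>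
          obtain ⟨l, g2⟩ := run_head (G := G) z (ρ' (s1, G.F z s1)) s1 j
          have := h1 j (by omega)
          rw [hrun j]
          simp only
          rw [g2] at this ⊢
          exact this
      · rw [hrun M]
        exact h2

/-- one strategy for all points, if they are represented by a finite set -/
theorem strategy_all [Nonempty Act] [FiniteDimensional ℝ Z] {N D k : ℕ} (hN : finrank ℝ Z ≤ N)
    (hD : ∀ z s, z ∈ G.Val s → G.Plan z D s) (V₀ : Finset Z) (hk : V₀.card * N ^ k < (N + 1) ^ k)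
    (hrep : ∀ z, ∃ z' ∈ V₀, ∀ s, z ∈ G.Val s → z' ∈ G.Val s ∧ G.F z s = G.F z' s ∧
      ∀ a, G.Ok s (G.F z s) a → G.nx z s a = G.nx z' s a) :
    ∃ ρ : List (S × O) → Act, ∀ z s, z ∈ G.Val s → ∃ M ≤ D * k,
      (∀ j < M, G.Ok (run G z ρ s j).2 (G.F z (run G z ρ s j).2) (ρ (run G z ρ s j).1)) ∧
      G.Term (run G z ρ s M).2 (G.F z (run G z ρ s M).2) := by
  classical
  have h1 : ∀ p : S × O, ∃ ρ : List (S × O) → Act,
      ∀ z ∈ V₀.filter (fun z => z ∈ G.Val p.1 ∧ G.F z p.1 = p.2), G.F z p.1 = p.2 →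
        ∃ M ≤ D * k, (∀ j < M, G.Ok (run G z ρ p.1 j).2 (G.F z (run G z ρ p.1 j).2)
          (ρ (run G z ρ p.1 j).1)) ∧ G.Term (run G z ρ p.1 M).2 (G.F z (run G z ρ p.1 M).2) := by
    intro p
    refine strategy (D * k) _ p.1 p.2 (wins_of_card hN hD k _ p.1 p.2 (fun y hy => ?_) ?_)
    · exact (mem_filter.1 hy).2
    · exact lt_of_le_of_lt (Nat.mul_le_mul_right _ (card_le_card (filter_subset _ _))) hk
  choose ρ' hρ' using h1
  set ρ : List (S × O) → Act := fun l => match l with
    | [] => Classical.arbitrary Act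
    | p :: l => ρ' p (p :: l) with hρ
  refine ⟨ρ, fun z s hs => ?_⟩
  obtain ⟨z', hz', hr⟩ := hrep z
  obtain ⟨r1, r2, r3⟩ := hr s hs
  obtain ⟨M, hM, h2, h3⟩ := hρ' (s, G.F z s) z' (mem_filter.2 ⟨hz', r1, r2.symm⟩) r2.symm
  simp only at h2 h3
  have key : ∀ j ≤ M, run G z ρ s j = run G z' (ρ' (s, G.F z s)) s j ∧
      z ∈ G.Val (run G z ρ s j).2 := by
    intro j
    induction j with
    | zero =>
      intro _
      refine ⟨?_, hs⟩
      change ([(s, G.F z s)], s) = ([(s, G.F z' s)], s)
      rw [r2]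
    | succ j ih =>
      intro hj
      obtain ⟨i1, i2⟩ := ih (by omega)
      have h4 := h2 j (by omega)
      rw [← i1] at h4
      obtain ⟨q1, q2, q3⟩ := hr _ i2
      have h5 : ρ (run G z ρ s j).1 = ρ' (s, G.F z s) (run G z ρ s j).1 := by
        obtain ⟨l, hl⟩ := run_head (G := G) z ρ s j
        rw [hl]
      rw [← h5] at h4
      rw [← q2] at h4
      have h6 : G.nx z (run G z ρ s j).2 (ρ (run G z ρ s j).1) =
          G.nx z' (run G z ρ s j).2 (ρ (run G z ρ s j).1) := q3 _ h4
      have h7 : z ∈ G.Val (G.nx z (run G z ρ s j).2 (ρ (run G z ρ s j).1)) := G.val z _ _ i2 h4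
      refine ⟨?_, h7⟩
      have e1 : run G z ρ s (j + 1) = ((run G z ρ s j).1 ++
        [(G.nx z (run G z ρ s j).2 (ρ (run G z ρ s j).1),
        G.F z (G.nx z (run G z ρ s j).2 (ρ (run G z ρ s j).1)))],
        G.nx z (run G z ρ s j).2 (ρ (run G z ρ s j).1)) := rfl
      have e2 : run G z' (ρ' (s, G.F z s)) s (j + 1) = ((run G z' (ρ' (s, G.F z s)) s j).1 ++
        [(G.nx z' (run G z' (ρ' (s, G.F z s)) s j).2
          (ρ' (s, G.F z s) (run G z' (ρ' (s, G.F z s)) s j).1),
        G.F z' (G.nx z' (run G z' (ρ' (s, G.F z s)) s j).2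
          (ρ' (s, G.F z s) (run G z' (ρ' (s, G.F z s)) s j).1)))],
        G.nx z' (run G z' (ρ' (s, G.F z s)) s j).2
          (ρ' (s, G.F z s) (run G z' (ρ' (s, G.F z s)) s j).1)) := rfl
      rw [e1, e2, ← i1, ← h5, ← h6, ← (hr _ h7).2.1]
  refine ⟨M, hM, fun j hj => ?_, ?_⟩
  · obtain ⟨k1, k2⟩ := key j hj.le
    have h4 := h2 j hj
    rw [← k1] at h4
    have h5 : ρ (run G z ρ s j).1 = ρ' (s, G.F z s) (run G z ρ s j).1 := by
      obtain ⟨l, hl⟩ := run_head (G := G) z ρ s j
      rw [hl]
    rw [h5, (hr _ k2).2.1]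
    exact h4
  · obtain ⟨k1, k2⟩ := key M le_rfl
    rw [← k1] at h3
    rw [(hr _ k2).2.1]
    exact h3

theorem run_hist (z : Z) (ρ : List (S × O) → Act) (s : S) (k : ℕ) :
    (run G z ρ s k).1 = (List.range (k + 1)).map
      fun j => ((run G z ρ s j).2, G.F z (run G z ρ s j).2) := by
  induction k with
  | zero => rfl
  | succ k ih =>
    rw [List.range_succ, List.map_append, ← ih]
    rfl

end Sys

theorem two_mul_pow (N : ℕ) : 2 * N ^ (N + 1) ≤ (N + 1) ^ (N + 1) := by
  have h : ∀ k : ℕ, N ^ (k + 1) + (k + 1) * N ^ k ≤ (N + 1) ^ (k + 1) := by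
    intro k
    induction k with
    | zero => simp
    | succ k ih =>
      have h1 : (N + 1) * (N ^ (k + 1) + (k + 1) * N ^ k) ≤ (N + 1) * (N + 1) ^ (k + 1) :=
        Nat.mul_le_mul_left _ ih
      calc N ^ (k + 1 + 1) + (k + 1 + 1) * N ^ (k + 1)
          ≤ (N + 1) * (N ^ (k + 1) + (k + 1) * N ^ k) := by
            have : (N + 1) * (N ^ (k + 1) + (k + 1) * N ^ k) =
                N ^ (k + 1 + 1) + (k + 1 + 1) * N ^ (k + 1) + (k + 1) * N ^ k := by ring
            rw [this]
            exact Nat.le_add_right _ _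
        _ ≤ _ := h1
        _ = (N + 1) ^ (k + 1 + 1) := by ring
  calc 2 * N ^ (N + 1) ≤ N ^ (N + 1) + (N + 1) * N ^ N := by
        have : (N + 1) * N ^ N = N ^ (N + 1) + N ^ N := by ring
        rw [this]
        have := Nat.zero_le (N ^ N)
        omega
    _ ≤ _ := h N

theorem pow_gap {N B C : ℕ} (hC : C ≤ 2 ^ B) :
    C * N ^ ((N + 1) * (B + 1)) < (N + 1) ^ ((N + 1) * (B + 1)) := by
  have h1 : 2 ^ (B + 1) * N ^ ((N + 1) * (B + 1)) ≤ (N + 1) ^ ((N + 1) * (B + 1)) := by
    calc 2 ^ (B + 1) * N ^ ((N + 1) * (B + 1)) = (2 * N ^ (N + 1)) ^ (B + 1) := by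
          rw [mul_pow, ← pow_mul]
      _ ≤ ((N + 1) ^ (N + 1)) ^ (B + 1) := Nat.pow_le_pow_left (two_mul_pow N) _
      _ = _ := by rw [← pow_mul]
  rcases Nat.eq_zero_or_pos N with h0 | h0
  · rw [h0]
    simp
  · have h2 : 0 < N ^ ((N + 1) * (B + 1)) := Nat.pow_pos h0
    calc C * N ^ ((N + 1) * (B + 1)) ≤ 2 ^ B * N ^ ((N + 1) * (B + 1)) :=
          Nat.mul_le_mul_right _ hC
      _ < 2 ^ (B + 1) * N ^ ((N + 1) * (B + 1)) := by
          apply Nat.mul_lt_mul_of_pos_right _ h2
          exact Nat.pow_lt_pow_right (by norm_num) (by omega)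
      _ ≤ _ := h1

end Pool.Agent.K4H92.LP
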