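import Pool.Agent.K4H92.LP.Rep
set_option autoImplicit false

/-!
# Edges and names
-/

namespace Pool.Agent.K4H92.LP

open Finset

section General

variable {E : Type*} [NormedAddCommGroup E] [NormedSpace ℝ E] [FiniteDimensional ℝ E]
  {I : Type*} [Fintype I] {a : I → E →ₗ[ℝ] ℝ} {β : I → ℝ}

theorem dir_of_exposed {v h : E} (hv : Vert a β v) (h0 : h ≠ 0) {F : Set E}
    (hF : IsExposed ℝ (PP a β) F) (hvF : v ∈ F) (hmem : v + h ∈ F)
    (hline : ∀ x ∈ F, ∃ t : ℝ, x = v + t • h) :
    0 < lin a (tight a β v) h ∧ Dir a (tight a β v) ((lin a (tight a β v) h)⁻¹ • h) := by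
  classical
  have hsub : F ⊆ PP a β := hF.subset
  have hh : ∀ i ∈ tight a β v, a i h ≤ 0 := by
    intro i hi
    have := tight_sub (hsub hmem) hi
    rwa [add_sub_cancel_left] at this
  obtain ⟨hp, _⟩ := gen_pos hv.2 hh h0
  refine ⟨hp, fun i hi => ?_, ?_, fun g hg => ?_⟩
  · rw [map_smul, smul_eq_mul]
    exact mul_nonpos_of_nonneg_of_nonpos (inv_nonneg.2 hp.le) (hh i hi)
  · rw [map_smul, smul_eq_mul, inv_mul_cancel₀ hp.ne']
  · obtain ⟨l, hl⟩ := hF ⟨v, hvF⟩
    have hg' : ∀ i ∈ tight a β v, a i h = 0 → a i g = 0 := fun i hi h1 => hg i hi (by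
      rw [map_smul, h1, smul_zero])
    have hm : ∀ i, a i (v + (1/2 : ℝ) • h) = (a i v + a i (v + h)) / 2 := fun i => by
      rw [map_add, map_add, map_smul, smul_eq_mul]; ring
    have hmP : v + (1/2 : ℝ) • h ∈ PP a β := fun i => by
      rw [hm]
      have h1 := hsub hvF i
      have h2 := hsub hmem i
      linarith
    have hmt : ∀ i ∈ tight a β (v + (1/2 : ℝ) • h), a i g = 0 := by
      intro i hi
      rw [mem_tight, hm] at hi
      have h1 := hsub hvF i
      have h2 := hsub hmem i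
      have h3 : a i v = β i := by linarith
      have h4 : a i (v + h) = β i := by linarith
      refine hg' i (mem_tight.2 h3) ?_
      rw [map_add] at h4
      linarith
    obtain ⟨t, ht, h1⟩ := small_step hmP (e := g) fun i hi => (hmt i hi).le
    obtain ⟨s, hs, h2⟩ := small_step hmP (e := -g) fun i hi => by
      rw [map_neg, hmt i hi, neg_zero]
    have hmax : ∀ x ∈ F, ∀ y ∈ PP a β, l y ≤ l x := by
      intro x hx y hy
      rw [hl] at hx
      exact hx.2 y hy
    have hl0 : l h = 0 := by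
      have g1 := hmax v hvF _ (hsub hmem)
      have g2 := hmax _ hmem _ (hsub hvF)
      rw [map_add] at g1 g2
      linarith
    have hlm : l (v + (1/2 : ℝ) • h) = l v := by
      rw [map_add, map_smul, hl0, smul_zero, add_zero]
    have g1 := hmax v hvF _ h1
    have g2 := hmax v hvF _ h2
    rw [map_add, map_smul, hlm, smul_eq_mul] at g1 g2
    rw [map_neg] at g2
    have hlg : l g = 0 := by
      have g3 : t * l g ≤ 0 := by linarith
      have g4 : 0 ≤ s * l g := by linarith
      have g5 := nonpos_of_mul_nonpos_right g3 ht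
      have g6 := nonneg_of_mul_nonneg_right g4 hs
      linarith
    have hin : v + (1/2 : ℝ) • h + t • g ∈ F := by
      rw [hl]
      refine ⟨h1, fun y hy => ?_⟩
      rw [map_add, hlm, map_smul, hlg, smul_zero, add_zero]
      exact hmax v hvF y hy
    obtain ⟨q, hq⟩ := hline _ hin
    have h5 : t • g = (q - 1/2) • h := by
      have : v + (1/2 : ℝ) • h + t • g = v + ((1/2 : ℝ) • h + t • g) := by abel
      rw [this] at hq
      have := add_left_cancel hq
      rw [sub_smul, ← this]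
      abel
    refine ⟨t⁻¹ * (q - 1/2) * lin a (tight a β v) h, ?_⟩
    rw [smul_smul, mul_assoc, mul_inv_cancel₀ hp.ne', mul_one, mul_smul, ← h5, smul_smul,
      inv_mul_cancel₀ ht.ne', one_smul]

/-- the direction of an improving edge -/
theorem dir_of_edge {x y : E} (hx : Vert a β x) (hF : IsExposed ℝ (PP a β) (segment ℝ x y))
    {c : E →ₗ[ℝ] ℝ} (hc : c x < c y) :
    ∃ e, ∃ t : ℝ, Dir a (tight a β x) e ∧ 0 < t ∧ y = x + t • e ∧ 0 < c e := by
  have h0 : y - x ≠ 0 := by
    intro h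
    rw [sub_eq_zero] at h
    rw [h] at hc
    exact lt_irrefl _ hc
  obtain ⟨h1, h2⟩ := dir_of_exposed hx h0 hF (left_mem_segment ℝ x y)
    (by rw [add_sub_cancel]; exact right_mem_segment ℝ x y) (by
      rintro _ ⟨p, q, _, _, hpq, rfl⟩
      refine ⟨q, ?_⟩
      have : p = 1 - q := by linarith
      rw [this]
      module)
  refine ⟨_, _, h2, h1, ?_, ?_⟩
  · rw [smul_smul, mul_inv_cancel₀ h1.ne', one_smul, add_sub_cancel]
  · rw [map_smul, smul_eq_mul, map_sub c]
    exact mul_pos (inv_pos.2 h1) (sub_pos.2 hc)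

/-- the direction of an unbounded improving edge -/
theorem dir_of_ray {x d : E} (hx : Vert a β x)
    (hF : IsExposed ℝ (PP a β) {z | ∃ t : ℝ, 0 ≤ t ∧ z = x + t • d}) {c : E →ₗ[ℝ] ℝ}
    (hc : 0 < c d) :
    ∃ e, ∃ t : ℝ, Dir a (tight a β x) e ∧ 0 < t ∧ d = t • e ∧ 0 < c e ∧ ∀ i, a i e ≤ 0 := by
  have h0 : d ≠ 0 := by
    rintro rfl
    rw [map_zero] at hc
    exact lt_irrefl _ hc
  obtain ⟨h1, h2⟩ := dir_of_exposed hx h0 hF ⟨0, le_rfl, by rw [zero_smul, add_zero]⟩
    ⟨1, zero_le_one, by rw [one_smul]⟩ (by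
      rintro _ ⟨t, _, rfl⟩
      exact ⟨t, rfl⟩)
  refine ⟨_, _, h2, h1, ?_, ?_, fun i => ?_⟩
  · rw [smul_smul, mul_inv_cancel₀ h1.ne', one_smul]
  · rw [map_smul, smul_eq_mul]
    exact mul_pos (inv_pos.2 h1) hc
  · have h3 : a i d ≤ 0 := by
      by_contra hcon
      push Not at hcon
      have h4 := hx.1 i
      have h5 : x + ((β i - a i x + 1) / a i d) • d ∈ PP a β :=
        hF.subset ⟨_, div_nonneg (by linarith) hcon.le, rfl⟩
      have h6 := h5 i
      rw [map_add, map_smul, smul_eq_mul, div_mul_cancel₀ _ hcon.ne'] at h6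
      linarith
    rw [map_smul, smul_eq_mul]
    exact mul_nonpos_of_nonneg_of_nonpos (inv_nonneg.2 h1.le) h3

theorem tight_pos {x e : E} {t : ℝ} (hx : Vert a β x) (ht : 0 < t)
    (he : Dir a (tight a β x) e) (hy : Vert a β (x + t • e)) :
    ∃ k ∈ tight a β (x + t • e), 0 < a k e := by
  by_contra hcon
  push Not at hcon
  apply he.ne_zero
  apply hy.2
  intro i hi
  have h1 := hcon i hi
  rw [mem_tight, map_add, map_smul, smul_eq_mul] at hi
  have h2 := hx.1 i
  have h3 : 0 ≤ t * a i e := by linarith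
  have h4 := nonneg_of_mul_nonneg_right h3 ht
  linarith

theorem inter_tight [DecidableEq I] {x e : E} {t : ℝ} (ht : 0 < t) :
    tight a β x ∩ tight a β (x + t • e) = (tight a β x).filter fun i => a i e = 0 := by
  ext i
  rw [mem_inter, mem_filter, mem_tight, mem_tight, map_add, map_smul, smul_eq_mul]
  constructor
  · rintro ⟨h1, h2⟩
    refine ⟨h1, ?_⟩
    rw [h1] at h2
    have h3 : t * a i e = 0 := by linarith
    rcases mul_eq_zero.1 h3 with h4 | h4
    · exact absurd h4 ht.ne'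
    · exact h4
  · rintro ⟨h1, h2⟩
    rw [h1, h2, mul_zero, add_zero]
    exact ⟨rfl, rfl⟩

end General

end Pool.Agent.K4H92.LP
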