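import Pool.Agent.K4H92.LP.Center
import Pool.Agent.K4H92.LP.Link
set_option autoImplicit false

/-!
# The walk on a polyhedron with hidden right-hand side and objective
-/

namespace Pool.Agent.K4H92.LP

open Finset Module

variable {m n : ℕ}

/-- names of rows -/
abbrev Ix (m n : ℕ) : Type := Fin m ⊕ Fin n

/-- hidden data: right-hand side and objective -/
abbrev Hid (m n : ℕ) : Type := (Fin m → ℝ) × (Fin n → ℝ)

open Classical in
/-- the name of a direction: the rows which remain tight -/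
noncomputable def zer (A : Fin m → Fin n → ℝ) (T : Finset (Ix m n)) (e : Fin n → ℝ) :
    Finset (Ix m n) := T.filter fun i => rows A i e = 0

/-- `x` is the vertex with the tight rows `T` -/
def AtT (A : Fin m → Fin n → ℝ) (z : Hid m n) (T : Finset (Ix m n)) (x : Fin n → ℝ) : Prop :=
  Vert (rows A) (rhs z.1) x ∧ tight (rows A) (rhs z.1) x = T

/-- the names of the improving directions -/
def impr (A : Fin m → Fin n → ℝ) (z : Hid m n) (T : Finset (Ix m n)) : Set (Finset (Ix m n)) :=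
  {Z | ∃ e, Dir (rows A) T e ∧ 0 < lf z.2 e ∧ Z = zer A T e}

/-- `T'` are the tight rows at the other end of the edge named `Z` at `T` -/
def NextT (A : Fin m → Fin n → ℝ) (z : Hid m n) (T Z T' : Finset (Ix m n)) : Prop :=
  ∃ x e, ∃ t : ℝ, AtT A z T x ∧ Dir (rows A) T e ∧ Z = zer A T e ∧ 0 < t ∧ AtT A z T' (x + t • e) ∧
    ∃ k ∈ T', 0 < rows A k e

theorem zer_inj {A : Fin m → Fin n → ℝ} {T : Finset (Ix m n)} {e e' : Fin n → ℝ}
    (h : Dir (rows A) T e) (h' : Dir (rows A) T e') (hz : zer A T e = zer A T e') : e = e' := by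
  classical
  obtain ⟨t, ht⟩ := h.2.2 e' (fun i hi h0 => by
    have : i ∈ zer A T e := mem_filter.2 ⟨hi, h0⟩
    rw [hz] at this
    exact (mem_filter.1 this).2)
  exact (h.eq_of_smul h' ht).symm

theorem atT_unique {A : Fin m → Fin n → ℝ} {z : Hid m n} {T : Finset (Ix m n)} {x y : Fin n → ℝ}
    (hx : AtT A z T x) (hy : AtT A z T y) : x = y := by
  have : x - y = 0 := by
    apply hx.1.2
    intro i hi
    have h1 := mem_tight.1 hi
    rw [hx.2, ← hy.2] at hi
    rw [map_sub, h1, mem_tight.1 hi, sub_self]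
  exact sub_eq_zero.1 this

theorem rhs_add (b b' : Fin m → ℝ) (p q : ℝ) (i : Ix m n) :
    rhs (n := n) (p • b + q • b') i = p * rhs b i + q * rhs b' i := by
  cases i <;> simp [rhs]

theorem AtT.comb {A : Fin m → Fin n → ℝ} {z z' : Hid m n} {T : Finset (Ix m n)}
    {x x' : Fin n → ℝ} (h : AtT A z T x) (h' : AtT A z' T x') {p q : ℝ} (hp : 0 ≤ p)
    (hq : 0 ≤ q) (hpq : p + q = 1) : AtT A (p • z + q • z') T (p • x + q • x') := by
  classical
  have hval : ∀ i, rows A i (p • x + q • x') = p * rows A i x + q * rows A i x' := fun i => by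
    simp
  have hmem : ∀ i ∈ T, rows A i (p • x + q • x') = rhs (p • z + q • z').1 i := by
    intro i hi
    rw [hval]
    have h1 := hi
    rw [← h.2] at h1
    rw [← h'.2] at hi
    rw [mem_tight.1 h1, mem_tight.1 hi]
    exact (rhs_add z.1 z'.1 p q i).symm
  have hlt : ∀ i, i ∉ T → rows A i (p • x + q • x') < rhs (p • z + q • z').1 i := by
    intro i hi
    have h1 := hi
    rw [← h.2, mem_tight] at h1
    rw [← h'.2, mem_tight] at hi
    have g1 := lt_of_le_of_ne (h.1.1 i) h1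
    have g2 := lt_of_le_of_ne (h'.1.1 i) hi
    rw [hval]
    have e : rhs (n := n) (p • z + q • z').1 i = p * rhs z.1 i + q * rhs z'.1 i :=
      rhs_add z.1 z'.1 p q i
    rw [e]
    rcases hp.lt_or_eq with h0 | h0
    · have := mul_lt_mul_of_pos_left g1 h0
      have := mul_le_mul_of_nonneg_left g2.le hq
      linarith
    · have hq1 : q = 1 := by linarith
      rw [← h0, hq1]
      linarith
  have ht : tight (rows A) (rhs (p • z + q • z').1) (p • x + q • x') = T := by
    ext i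
    rw [mem_tight]
    by_cases hi : i ∈ T
    · simp [hi, hmem i hi]
    · simp only [hi, iff_false]
      exact (hlt i hi).ne
  refine ⟨⟨fun i => ?_, ?_⟩, ht⟩
  · by_cases hi : i ∈ T
    · exact (hmem i hi).le
    · exact (hlt i hi).le
  · rw [ht, ← h.2]
    exact h.1.2

theorem lf_comb (c c' : Fin n → ℝ) (p q : ℝ) (e : Fin n → ℝ) :
    lf (p • c + q • c') e = p * lf c e + q * lf c' e := by
  simp [lf_apply, add_mul, mul_sum, sum_add_distrib, mul_assoc]

theorem impr_comb {A : Fin m → Fin n → ℝ} {z z' : Hid m n} {T : Finset (Ix m n)}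
    (h : impr A z T = impr A z' T) {p q : ℝ} (hp : 0 ≤ p) (hq : 0 ≤ q) (hpq : p + q = 1) :
    impr A (p • z + q • z') T = impr A z T := by
  classical
  have key : ∀ e, Dir (rows A) T e → (0 < lf z.2 e ↔ 0 < lf z'.2 e) := by
    intro e he
    have h1 : ∀ w : Hid m n, zer A T e ∈ impr A w T ↔ 0 < lf w.2 e := by
      intro w
      constructor
      · rintro ⟨e', he', hc, hz⟩
        rw [zer_inj he he' hz]
        exact hc
      · intro hc
        exact ⟨e, he, hc, rfl⟩
    rw [← h1 z, ← h1 z', h]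
  ext Z
  constructor
  · rintro ⟨e, he, hc, rfl⟩
    refine ⟨e, he, ?_, rfl⟩
    by_contra hcon
    have h2 : ¬ 0 < lf z'.2 e := fun h3 => hcon ((key e he).2 h3)
    have e1 : lf (p • z + q • z').2 e = p * lf z.2 e + q * lf z'.2 e := lf_comb _ _ p q e
    rw [e1] at hc
    have := mul_nonpos_of_nonneg_of_nonpos hp (not_lt.1 hcon)
    have := mul_nonpos_of_nonneg_of_nonpos hq (not_lt.1 h2)
    linarith
  · rintro ⟨e, he, hc, rfl⟩
    refine ⟨e, he, ?_, rfl⟩
    have h2 := (key e he).1 hc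
    have e1 : lf (p • z + q • z').2 e = p * lf z.2 e + q * lf z'.2 e := lf_comb _ _ p q e
    rw [e1]
    rcases hp.lt_or_eq with h0 | h0
    · have := mul_pos h0 hc
      have := mul_nonneg hq h2.le
      linarith
    · have hq1 : q = 1 := by linarith
      rw [← h0, hq1]
      linarith

theorem nextT_unique {A : Fin m → Fin n → ℝ} {z : Hid m n} {T Z T' T'' : Finset (Ix m n)}
    (h : NextT A z T Z T') (h' : NextT A z T Z T'') : T' = T'' := by
  obtain ⟨x, e, t, hx, he, hZ, ht, hy, k, hk, hke⟩ := h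
  obtain ⟨x', e', t', hx', he', hZ', ht', hy', k', hk', hke'⟩ := h'
  obtain rfl := atT_unique hx hx'
  obtain rfl := zer_inj he he' (hZ.symm.trans hZ')
  have h1 : t' ≤ t := by
    have h2 := hy'.1.1 k
    rw [← hy.2, mem_tight] at hk
    rw [← hk, map_add, map_add, map_smul, map_smul, smul_eq_mul, smul_eq_mul] at h2
    have h3 : t' * rows A k e ≤ t * rows A k e := by linarith
    exact le_of_mul_le_mul_right h3 hke
  have h1' : t ≤ t' := by
    have h2 := hy.1.1 k'
    rw [← hy'.2, mem_tight] at hk'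
    rw [← hk', map_add, map_add, map_smul, map_smul, smul_eq_mul, smul_eq_mul] at h2
    have h3 : t * rows A k' e ≤ t' * rows A k' e := by linarith
    exact le_of_mul_le_mul_right h3 hke'
  have : t = t' := le_antisymm h1' h1
  rw [← hy.2, ← hy'.2, this]

theorem NextT.comb {A : Fin m → Fin n → ℝ} {z z' : Hid m n} {T Z T' : Finset (Ix m n)}
    (h : NextT A z T Z T') (h' : NextT A z' T Z T') {p q : ℝ} (hp : 0 ≤ p) (hq : 0 ≤ q)
    (hpq : p + q = 1) : NextT A (p • z + q • z') T Z T' := by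
  obtain ⟨x, e, t, hx, he, hZ, ht, hy, k, hk, hke⟩ := h
  obtain ⟨x', e', t', hx', he', hZ', ht', hy', k', hk', hke'⟩ := h'
  obtain rfl := zer_inj he he' (hZ.symm.trans hZ')
  refine ⟨p • x + q • x', e, p * t + q * t', hx.comb hx' hp hq hpq, he, hZ, ?_, ?_, k, hk, hke⟩
  · rcases hp.lt_or_eq with h0 | h0
    · have := mul_pos h0 ht
      have := mul_nonneg hq ht'.le
      linarith
    · have hq1 : q = 1 := by linarith
      rw [← h0, hq1]
      linarith
  · have h1 := hy.comb hy' hp hq hpq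
    have e1 : p • (x + t • e) + q • (x' + t' • e) = p • x + q • x' + (p * t + q * t') • e := by
      module
    rwa [e1] at h1

theorem exists_next {A : Fin m → Fin n → ℝ} {z : Hid m n} {T : Finset (Ix m n)}
    {x e : Fin n → ℝ} (hx : AtT A z T x) (he : Dir (rows A) T e) (hu : ∃ i, 0 < rows A i e) :
    ∃ t : ℝ, 0 < t ∧ Vert (rows A) (rhs z.1) (x + t • e) ∧
      (∀ s : ℝ, x + s • e ∈ PP (rows A) (rhs z.1) → s ≤ t) ∧
      ∃ k ∈ tight (rows A) (rhs z.1) (x + t • e), 0 < rows A k e := by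
  classical
  have he' := he
  rw [← hx.2] at he'
  rcases step_end hx.1 he' with h | ⟨t, ht, h1, h2⟩
  · exfalso
    obtain ⟨i, hi⟩ := hu
    have h0 := hx.1.1 i
    have h3 := h ((rhs z.1 i - rows A i x + 1) / rows A i e) (div_nonneg (by linarith) hi.le) i
    rw [map_add, map_smul, smul_eq_mul, div_mul_cancel₀ _ hi.ne'] at h3
    linarith
  · refine ⟨t, ht, h1, h2, ?_⟩
    by_contra hcon
    push Not at hcon
    obtain ⟨s, hs, h3⟩ := small_step h1.1 (e := e) hcon
    have h4 : x + (t + s) • e ∈ PP (rows A) (rhs z.1) := by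
      have : x + (t + s) • e = x + t • e + s • e := by module
      rw [this]; exact h3
    have := h2 _ h4
    linarith

open Classical in
/-- the walk on the vertices -/
noncomputable def game (A : Fin m → Fin n → ℝ) :
    Sys (Hid m n) (Finset (Ix m n)) (Set (Finset (Ix m n))) (Finset (Ix m n)) where
  Val T := {z | ∃ x, AtT A z T x}
  F z T := impr A z T
  nx z T Z := if h : ∃ T', NextT A z T Z T' then h.choose else ∅
  Term T o := o = ∅ ∨ ∃ e, Dir (rows A) T e ∧ zer A T e ∈ o ∧ ∀ i, rows A i e ≤ 0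
  Ok T o Z := Z ∈ o ∧ ∃ e, Dir (rows A) T e ∧ Z = zer A T e ∧ ∃ i, 0 < rows A i e
  conv := by
    rintro T o z ⟨⟨x, hx⟩, rfl⟩ z' ⟨⟨x', hx'⟩, hF⟩ p q hp hq hpq
    exact ⟨⟨_, hx.comb hx' hp hq hpq⟩, impr_comb hF.symm hp hq hpq⟩
  conv' := by
    rintro T o Z T' o' ⟨_, e, he, hZ, hu⟩ z ⟨⟨x, hx⟩, hF0, hn, hF⟩ z' ⟨⟨x', hx'⟩, hF0', hn', hF'⟩
      p q hp hq hpq
    have hnx : ∀ (w : Hid m n) (y : Fin n → ℝ), AtT A w T y →
        (if h : ∃ T', NextT A w T Z T' then h.choose else ∅) = T' → NextT A w T Z T' := by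
      intro w y hy h
      obtain ⟨t, ht, h1, h2, h3⟩ := exists_next hy he hu
      have hex : ∃ T', NextT A w T Z T' := ⟨_, y, e, t, hy, he, hZ, ht, ⟨h1, rfl⟩, h3⟩
      rw [dif_pos hex] at h
      rw [← h]
      exact hex.choose_spec
    have g := (hnx z x hx hn).comb (hnx z' x' hx' hn') hp hq hpq
    refine ⟨⟨_, hx.comb hx' hp hq hpq⟩, ?_, ?_, ?_⟩
    · rw [← hF0]
      exact impr_comb (hF0.trans hF0'.symm) hp hq hpq
    · have hex : ∃ T', NextT A (p • z + q • z') T Z T' := ⟨_, g⟩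
      rw [dif_pos hex]
      exact nextT_unique hex.choose_spec g
    · rw [← hF]
      exact impr_comb (hF.trans hF'.symm) hp hq hpq
  val := by
    rintro z T Z ⟨x, hx⟩ ⟨_, e, he, hZ, hu⟩
    obtain ⟨t, ht, h1, h2, h3⟩ := exists_next hx he hu
    have hex : ∃ T', NextT A z T Z T' := ⟨_, x, e, t, hx, he, hZ, ht, ⟨h1, rfl⟩, h3⟩
    simp only [Set.mem_setOf_eq]
    rw [dif_pos hex]
    obtain ⟨x', e', t', _, _, _, _, hy, _⟩ := hex.choose_spec
    exact ⟨_, hy⟩

theorem game_nx {A : Fin m → Fin n → ℝ} {z : Hid m n} {T Z T' : Finset (Ix m n)}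
    (h : NextT A z T Z T') : (game A).nx z T Z = T' := by
  classical
  have hex : ∃ T', NextT A z T Z T' := ⟨_, h⟩
  change (if h : ∃ T', NextT A z T Z T' then h.choose else ∅) = T'
  rw [dif_pos hex]
  exact nextT_unique hex.choose_spec h

end Pool.Agent.K4H92.LP
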