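import Pool.Agent.K4H92.LP.Steps
import Pool.Agent.H575R2.Farkas
set_option autoImplicit false

/-!
# Vertices and edges of polyhedra
-/

namespace Pool.Agent.K4H92.LP

open Finset

variable {E : Type*} [AddCommGroup E] [Module ℝ E] {I : Type*} [Fintype I]

/-- the polyhedron `a i x ≤ β i` -/
def PP (a : I → E →ₗ[ℝ] ℝ) (β : I → ℝ) : Set E := {x | ∀ i, a i x ≤ β i}

open Classical in
/-- the tight rows at `x` -/
noncomputable def tight (a : I → E →ₗ[ℝ] ℝ) (β : I → ℝ) (x : E) : Finset I :=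
  univ.filter fun i => a i x = β i

theorem mem_tight {a : I → E →ₗ[ℝ] ℝ} {β : I → ℝ} {x : E} {i : I} :
    i ∈ tight a β x ↔ a i x = β i := by simp [tight]

/-- the rows in `T` have no common zero except `0` -/
def Spans (a : I → E →ₗ[ℝ] ℝ) (T : Finset I) : Prop := ∀ g, (∀ i ∈ T, a i g = 0) → g = 0

/-- `x` is a vertex -/
def Vert (a : I → E →ₗ[ℝ] ℝ) (β : I → ℝ) (x : E) : Prop :=
  x ∈ PP a β ∧ Spans a (tight a β x)

/-- minus the sum of the rows in `T` -/
def lin (a : I → E →ₗ[ℝ] ℝ) (T : Finset I) : E →ₗ[ℝ] ℝ := -∑ i ∈ T, a i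

theorem lin_apply (a : I → E →ₗ[ℝ] ℝ) (T : Finset I) (x : E) :
    lin a T x = -∑ i ∈ T, a i x := by
  simp [lin, LinearMap.sum_apply]

/-- `e` is a (normalised) direction of an extreme ray of the cone `a i x ≤ 0`, `i ∈ T` -/
def Dir (a : I → E →ₗ[ℝ] ℝ) (T : Finset I) (e : E) : Prop :=
  (∀ i ∈ T, a i e ≤ 0) ∧ lin a T e = 1 ∧ ∀ g, (∀ i ∈ T, a i e = 0 → a i g = 0) → ∃ t : ℝ, g = t • e

variable {a : I → E →ₗ[ℝ] ℝ} {β : I → ℝ} {T : Finset I}

theorem Dir.ne_zero {e : E} (h : Dir a T e) : e ≠ 0 := by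
  rintro rfl
  have := h.2.1
  simp at this

theorem Dir.exists_neg {e : E} (h : Dir a T e) : ∃ i ∈ T, a i e < 0 := by
  by_contra hcon
  push Not at hcon
  have h1 := h.2.1
  rw [lin_apply] at h1
  have := sum_nonneg hcon
  linarith

theorem Dir.eq_of_smul {e e' : E} (h : Dir a T e) (h' : Dir a T e') {t : ℝ} (ht : e' = t • e) :
    e' = e := by
  have h1 := h'.2.1
  rw [ht, map_smul, h.2.1, smul_eq_mul, mul_one] at h1
  rw [ht, h1, one_smul]

theorem dir_finite (a : I → E →ₗ[ℝ] ℝ) (T : Finset I) : {e | Dir a T e}.Finite := by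
  classical
  have : Set.InjOn (fun e => T.filter fun i => a i e = 0) {e | Dir a T e} := by
    intro e he e' he' h
    simp only at h
    obtain ⟨t, ht⟩ := he.2.2 e' (fun i hi h0 => by
      have : i ∈ T.filter fun i => a i e = 0 := mem_filter.2 ⟨hi, h0⟩
      rw [h] at this
      exact (mem_filter.1 this).2)
    exact (he.eq_of_smul he' ht).symm
  exact Set.Finite.of_finite_image (Set.toFinite _) this

/-- move along `g` until a new row becomes tight -/
theorem move [DecidableEq I] {h g : E} (hh : ∀ i ∈ T, a i h ≤ 0)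
    (hz : ∀ i ∈ T, a i h = 0 → a i g = 0) (hp : ∃ i ∈ T, 0 < a i g) :
    ∃ t : ℝ, 0 < t ∧ (∀ i ∈ T, a i (h + t • g) ≤ 0) ∧
      (∀ i ∈ T, a i h = 0 → a i (h + t • g) = 0) ∧ ∃ i ∈ T, a i h < 0 ∧ a i (h + t • g) = 0 := by
  classical
  obtain ⟨i0, hi0, hgi0⟩ := hp
  have hne : (T.filter fun i => 0 < a i g).Nonempty := ⟨i0, mem_filter.2 ⟨hi0, hgi0⟩⟩
  obtain ⟨k, hk, hmin⟩ := exists_min_image _ (fun i => -a i h / a i g) hne
  obtain ⟨hkT, hkg⟩ := mem_filter.1 hk
  have hkh : a k h < 0 := by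
    refine lt_of_le_of_ne (hh k hkT) fun h0 => ?_
    rw [hz k hkT h0] at hkg
    exact lt_irrefl _ hkg
  refine ⟨-a k h / a k g, div_pos (by linarith) hkg, fun i hi => ?_, fun i hi h0 => ?_,
    k, hkT, hkh, ?_⟩
  · rw [map_add, map_smul, smul_eq_mul]
    rcases le_or_gt (a i g) 0 with hg | hg
    · have h1 : 0 < -a k h / a k g := div_pos (by linarith) hkg
      have := mul_nonpos_of_nonneg_of_nonpos h1.le hg
      have := hh i hi
      linarith
    · have h1 := hmin i (mem_filter.2 ⟨hi, hg⟩)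
      have h2 := mul_le_mul_of_nonneg_right h1 hg.le
      rw [div_mul_cancel₀ _ hg.ne'] at h2
      linarith
  · rw [map_add, map_smul, smul_eq_mul, h0, hz i hi h0]; ring
  · rw [map_add, map_smul, smul_eq_mul, div_mul_cancel₀ _ hkg.ne']; ring

theorem gen (hT : Spans a T) (h : E) (hh : ∀ i ∈ T, a i h ≤ 0) (hl : lin a T h = 1) :
    h ∈ convexHull ℝ {e | Dir a T e} := by
  classical
  induction hc : (T.filter fun i => a i h < 0).card using Nat.strong_induction_on generalizing h with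
  | _ c ih =>
  by_cases hd : ∀ g, (∀ i ∈ T, a i h = 0 → a i g = 0) → ∃ t : ℝ, g = t • h
  · exact subset_convexHull ℝ _ ⟨hh, hl, hd⟩
  · push Not at hd
    obtain ⟨g0, hg0, hg0'⟩ := hd
    set g := g0 - (lin a T g0) • h with hg
    have hgne : g ≠ 0 := fun h0 => hg0' _ (sub_eq_zero.1 h0)
    have hgl : lin a T g = 0 := by rw [hg, map_sub, map_smul, hl]; simp
    have hgz : ∀ i ∈ T, a i h = 0 → a i g = 0 := by
      intro i hi h0
      rw [hg, map_sub, map_smul, h0, hg0 i hi h0]; simp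
    have hsum : ∑ i ∈ T, a i g = 0 := by
      rw [lin_apply] at hgl; linarith
    have hnz : ∃ i ∈ T, a i g ≠ 0 := by
      by_contra hcon
      push Not at hcon
      exact hgne (hT g hcon)
    have hpos : ∃ i ∈ T, 0 < a i g := by
      by_contra hcon
      push Not at hcon
      obtain ⟨i, hi, hi'⟩ := hnz
      exact hi' ((sum_eq_zero_iff_of_nonpos hcon).1 hsum i hi)
    have hneg : ∃ i ∈ T, 0 < a i (-g) := by
      by_contra hcon
      push Not at hcon
      obtain ⟨i, hi, hi'⟩ := hnz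
      have h1 : ∀ i ∈ T, 0 ≤ a i g := fun i hi => by
        have := hcon i hi
        rw [map_neg] at this
        linarith
      exact hi' ((sum_eq_zero_iff_of_nonneg h1).1 hsum i hi)
    have key : ∀ g' : E, lin a T g' = 0 → (∀ i ∈ T, a i h = 0 → a i g' = 0) →
        (∃ i ∈ T, 0 < a i g') → ∃ t : ℝ, 0 < t ∧ h + t • g' ∈ convexHull ℝ {e | Dir a T e} := by
      intro g' hl' hz' hp'
      obtain ⟨t, ht, h1, h2, k, hk, hk1, hk2⟩ := move hh hz' hp'
      refine ⟨t, ht, ih _ ?_ (h + t • g') h1 ?_ rfl⟩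
      · rw [← hc]
        apply card_lt_card
        refine ⟨fun i hi => ?_, fun hsub => ?_⟩
        · obtain ⟨hi1, hi2⟩ := mem_filter.1 hi
          refine mem_filter.2 ⟨hi1, lt_of_le_of_ne (hh i hi1) fun h0 => ?_⟩
          rw [h2 i hi1 h0] at hi2
          exact lt_irrefl _ hi2
        · have := (mem_filter.1 (hsub (mem_filter.2 ⟨hk, hk1⟩))).2
          rw [hk2] at this
          exact lt_irrefl _ this
      · rw [map_add, map_smul, hl, hl']; simp
    obtain ⟨t1, ht1, m1⟩ := key g hgl hgz hpos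
    obtain ⟨t2, ht2, m2⟩ := key (-g) (by rw [map_neg, hgl, neg_zero])
      (fun i hi h0 => by rw [map_neg, hgz i hi h0, neg_zero]) hneg
    have hconv := (convex_convexHull ℝ {e | Dir a T e}) m1 m2 (a := t2 / (t1 + t2))
      (b := t1 / (t1 + t2)) (by positivity) (by positivity) (by field_simp; ring)
    have : (t2 / (t1 + t2)) • (h + t1 • g) + (t1 / (t1 + t2)) • (h + t2 • -g) = h := by
      have hs : t1 + t2 ≠ 0 := by positivity
      have e1 : t2 / (t1 + t2) + t1 / (t1 + t2) = 1 := by field_simp; ring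
      have e2 : t2 / (t1 + t2) * t1 - t1 / (t1 + t2) * t2 = 0 := by field_simp; ring
      calc (t2 / (t1 + t2)) • (h + t1 • g) + (t1 / (t1 + t2)) • (h + t2 • -g)
          = (t2 / (t1 + t2) + t1 / (t1 + t2)) • h +
            (t2 / (t1 + t2) * t1 - t1 / (t1 + t2) * t2) • g := by module
        _ = h := by rw [e1, e2]; simp
    rw [this] at hconv
    exact hconv

/-- cone version -/
theorem gen_pos (hT : Spans a T) {h : E} (hh : ∀ i ∈ T, a i h ≤ 0) (h0 : h ≠ 0) :
    0 < lin a T h ∧ (lin a T h)⁻¹ • h ∈ convexHull ℝ {e | Dir a T e} := by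
  have hp : 0 < lin a T h := by
    rw [lin_apply]
    have h1 : ∑ i ∈ T, a i h ≤ 0 := sum_nonpos hh
    rcases h1.lt_or_eq with h2 | h2
    · linarith
    · exfalso
      apply h0
      apply hT
      exact (sum_eq_zero_iff_of_nonpos hh).1 h2
  refine ⟨hp, gen hT _ (fun i hi => ?_) ?_⟩
  · rw [map_smul, smul_eq_mul]
    exact mul_nonpos_of_nonneg_of_nonpos (inv_nonneg.2 hp.le) (hh i hi)
  · rw [map_smul, smul_eq_mul, inv_mul_cancel₀ hp.ne']

theorem cone_le (hT : Spans a T) {f : E →ₗ[ℝ] ℝ} (hf : ∀ e, Dir a T e → f e ≤ 0) {h : E}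
    (hh : ∀ i ∈ T, a i h ≤ 0) : f h ≤ 0 := by
  by_cases h0 : h = 0
  · rw [h0, map_zero]
  · obtain ⟨hp, hm⟩ := gen_pos hT hh h0
    have h1 : convexHull ℝ {e | Dir a T e} ⊆ {x | f x ≤ 0} :=
      convexHull_min hf (convex_halfSpace_le f.isLinear 0)
    have h2 : f ((lin a T h)⁻¹ • h) ≤ 0 := h1 hm
    rw [map_smul, smul_eq_mul, inv_mul_le_iff₀ hp, mul_zero] at h2
    exact h2

theorem cone_lt (hT : Spans a T) {f : E →ₗ[ℝ] ℝ} (hf : ∀ e, Dir a T e → f e < 0) {h : E}
    (hh : ∀ i ∈ T, a i h ≤ 0) (h0 : h ≠ 0) : f h < 0 := by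
  obtain ⟨hp, hm⟩ := gen_pos hT hh h0
  have h1 : convexHull ℝ {e | Dir a T e} ⊆ {x | f x < 0} :=
    convexHull_min hf (convex_halfSpace_lt f.isLinear 0)
  have h2 : f ((lin a T h)⁻¹ • h) < 0 := h1 hm
  rw [map_smul, smul_eq_mul, inv_mul_lt_iff₀ hp, mul_zero] at h2
  exact h2

theorem cone_face (hT : Spans a T) {f : E →ₗ[ℝ] ℝ} {e₀ : E}
    (hf : ∀ e, Dir a T e → e = e₀ ∨ f e < 0) (hf0 : f e₀ ≤ 0) {h : E}
    (hh : ∀ i ∈ T, a i h ≤ 0) (hfh : f h = 0) : ∃ t : ℝ, 0 ≤ t ∧ h = t • e₀ := by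
  by_cases h0 : h = 0
  · exact ⟨0, le_rfl, by rw [h0, zero_smul]⟩
  · obtain ⟨hp, hm⟩ := gen_pos hT hh h0
    have hc : Convex ℝ {x | f x ≤ 0 ∧ (f x = 0 → x = e₀)} := by
      rintro x ⟨hx1, hx2⟩ y ⟨hy1, hy2⟩ s t hs ht hst
      have e1 : f (s • x + t • y) = s * f x + t * f y := by simp
      have n1 := mul_nonpos_of_nonneg_of_nonpos hs hx1
      have n2 := mul_nonpos_of_nonneg_of_nonpos ht hy1
      refine ⟨by rw [e1]; linarith, fun hz => ?_⟩
      rw [e1] at hz
      have z1 : s * f x = 0 := by linarith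
      have z2 : t * f y = 0 := by linarith
      rcases mul_eq_zero.1 z1 with hs0 | hfx
      · have ht1 : t = 1 := by linarith
        rw [ht1, one_mul] at z2
        rw [hs0, ht1, zero_smul, zero_add, one_smul]
        exact hy2 z2
      · rcases mul_eq_zero.1 z2 with ht0 | hfy
        · have hs1 : s = 1 := by linarith
          rw [ht0, hs1, zero_smul, add_zero, one_smul]
          exact hx2 hfx
        · rw [hx2 hfx, hy2 hfy, ← add_smul, hst, one_smul]
    have h1 : convexHull ℝ {e | Dir a T e} ⊆ {x | f x ≤ 0 ∧ (f x = 0 → x = e₀)} := by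
      refine convexHull_min (fun e he => ?_) hc
      rcases hf e he with rfl | h2
      · exact ⟨hf0, fun _ => rfl⟩
      · exact ⟨h2.le, fun h3 => absurd h3 h2.ne⟩
    have h2 := (h1 hm).2 (by rw [map_smul, hfh, smul_zero])
    refine ⟨lin a T h, hp.le, ?_⟩
    rw [← h2, smul_smul, mul_inv_cancel₀ hp.ne', one_smul]

theorem tight_sub {v x : E} (hx : x ∈ PP a β) {i : I} (hi : i ∈ tight a β v) : a i (x - v) ≤ 0 := by
  rw [map_sub, mem_tight.1 hi]
  have := hx i
  linarith

theorem vert_le {v : E} (hv : Vert a β v) {f : E →ₗ[ℝ] ℝ}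
    (hf : ∀ e, Dir a (tight a β v) e → f e ≤ 0) {x : E} (hx : x ∈ PP a β) : f x ≤ f v := by
  have := cone_le hv.2 hf (h := x - v) fun i hi => tight_sub hx hi
  rw [map_sub] at this
  linarith

theorem vert_lt {v : E} (hv : Vert a β v) {f : E →ₗ[ℝ] ℝ}
    (hf : ∀ e, Dir a (tight a β v) e → f e < 0) {x : E} (hx : x ∈ PP a β) (hne : x ≠ v) :
    f x < f v := by
  have := cone_lt hv.2 hf (h := x - v) (fun i hi => tight_sub hx hi) (sub_ne_zero.2 hne)
  rw [map_sub] at this
  linarith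

/-- small steps along a direction stay in the polyhedron -/
theorem small_step {v : E} (hv : v ∈ PP a β) {e : E} (he : ∀ i ∈ tight a β v, a i e ≤ 0) :
    ∃ t : ℝ, 0 < t ∧ v + t • e ∈ PP a β := by
  classical
  obtain ⟨t, ht, h⟩ := exists_small (univ \ tight a β v) (fun i => β i - a i v) (fun i => a i e)
    (fun i hi => by
      have h1 : i ∉ tight a β v := (mem_sdiff.1 hi).2
      rw [mem_tight] at h1
      have := hv i
      exact sub_pos.2 (lt_of_le_of_ne this h1))
  refine ⟨t, ht, fun i => ?_⟩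
  rw [map_add, map_smul, smul_eq_mul]
  by_cases hi : i ∈ tight a β v
  · have h1 := mul_nonpos_of_nonneg_of_nonpos ht.le (he i hi)
    rw [mem_tight.1 hi]
    linarith
  · have := h i (mem_sdiff.2 ⟨mem_univ _, hi⟩)
    linarith

theorem dir_le_of_max {v : E} (hv : v ∈ PP a β) {f : E →ₗ[ℝ] ℝ} (hf : ∀ x ∈ PP a β, f x ≤ f v)
    {e : E} (he : ∀ i ∈ tight a β v, a i e ≤ 0) : f e ≤ 0 := by
  obtain ⟨t, ht, h⟩ := small_step hv he
  have := hf _ h
  rw [map_add, map_smul, smul_eq_mul] at this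
  by_contra hcon
  push Not at hcon
  have := mul_pos ht hcon
  linarith

/-- a step along a direction ends in a vertex or never -/
theorem step_end {v : E} (hv : Vert a β v) {e : E} (he : Dir a (tight a β v) e) :
    (∀ t : ℝ, 0 ≤ t → v + t • e ∈ PP a β) ∨
      ∃ t : ℝ, 0 < t ∧ Vert a β (v + t • e) ∧ ∀ s : ℝ, v + s • e ∈ PP a β → s ≤ t := by
  classical
  by_cases hu : ∀ i, a i e ≤ 0
  · left
    intro t ht i
    rw [map_add, map_smul, smul_eq_mul]
    have := mul_nonpos_of_nonneg_of_nonpos ht (hu i)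
    have := hv.1 i
    linarith
  · right
    push Not at hu
    obtain ⟨i0, hi0⟩ := hu
    have hne : (univ.filter fun i => 0 < a i e).Nonempty := ⟨i0, mem_filter.2 ⟨mem_univ _, hi0⟩⟩
    obtain ⟨k, hk, hmin⟩ := exists_min_image _ (fun i => (β i - a i v) / a i e) hne
    have hke : 0 < a k e := (mem_filter.1 hk).2
    have hkt : k ∉ tight a β v := fun h => absurd (he.1 k h) (not_le.2 hke)
    have hkv : 0 < β k - a k v := by
      rw [mem_tight] at hkt
      exact sub_pos.2 (lt_of_le_of_ne (hv.1 k) hkt)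
    have ht : 0 < (β k - a k v) / a k e := div_pos hkv hke
    have htk : a k (v + ((β k - a k v) / a k e) • e) = β k := by
      rw [map_add, map_smul, smul_eq_mul, div_mul_cancel₀ _ hke.ne']; ring
    refine ⟨(β k - a k v) / a k e, ht, ⟨fun i => ?_, fun g hg => ?_⟩, fun s hs => ?_⟩
    · rw [map_add, map_smul, smul_eq_mul]
      rcases le_or_gt (a i e) 0 with h1 | h1
      · have := mul_nonpos_of_nonneg_of_nonpos ht.le h1
        have := hv.1 i
        linarith
      · have h2 := hmin i (mem_filter.2 ⟨mem_univ _, h1⟩)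
        have h3 := mul_le_mul_of_nonneg_right h2 h1.le
        rw [div_mul_cancel₀ _ h1.ne'] at h3
        linarith
    · obtain ⟨t, rfl⟩ := he.2.2 g (fun i hi h0 => hg i (by
        rw [mem_tight, map_add, map_smul, h0, smul_zero, add_zero]
        exact mem_tight.1 hi))
      have h1 := hg k (mem_tight.2 htk)
      rw [map_smul, smul_eq_mul] at h1
      rcases mul_eq_zero.1 h1 with h2 | h2
      · rw [h2, zero_smul]
      · exact absurd h2 hke.ne'
    · have := hs k
      rw [map_add, map_smul, smul_eq_mul] at this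
      rw [le_div_iff₀ hke]
      linarith

theorem step_nonneg {v : E} {e : E} (he : Dir a (tight a β v) e) {s : ℝ}
    (hs : v + s • e ∈ PP a β) : 0 ≤ s := by
  obtain ⟨i, hi, hie⟩ := he.exists_neg
  have h1 := hs i
  rw [map_add, map_smul, smul_eq_mul, mem_tight.1 hi] at h1
  by_contra hneg
  push Not at hneg
  have := mul_pos_of_neg_of_neg hneg hie
  linarith

/-- the points of the polyhedron on the line of an edge maximise a functional -/
theorem edge_fun {v : E} {e : E} (hv : v ∈ PP a β) (he : Dir a (tight a β v) e) :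
    ∃ f : E →ₗ[ℝ] ℝ, f e = 0 ∧ (∀ x ∈ PP a β, f x ≤ f v) ∧
      ∀ x ∈ PP a β, f x = f v → ∃ s : ℝ, 0 ≤ s ∧ x = v + s • e := by
  classical
  set Z := (tight a β v).filter fun i => a i e = 0 with hZ
  have hsum : ∀ x, (∑ i ∈ Z, a i) x = ∑ i ∈ Z, a i x := fun x => by
    simp [LinearMap.sum_apply]
  refine ⟨∑ i ∈ Z, a i, ?_, fun x hx => ?_, fun x hx h => ?_⟩
  · rw [hsum]
    exact sum_eq_zero fun i hi => (mem_filter.1 hi).2
  · rw [hsum, hsum]
    refine sum_le_sum fun i hi => ?_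
    rw [mem_tight.1 (mem_filter.1 hi).1]
    exact hx i
  · rw [hsum, hsum] at h
    have h1 : ∑ i ∈ Z, a i (x - v) = 0 := by
      simp only [map_sub, sum_sub_distrib]
      linarith
    have h2 := (sum_eq_zero_iff_of_nonpos fun i hi =>
      tight_sub hx (mem_filter.1 hi).1).1 h1
    obtain ⟨s, hs⟩ := he.2.2 (x - v) (fun i hi h0 => h2 i (mem_filter.2 ⟨hi, h0⟩))
    have hxe : x = v + s • e := by rw [← hs]; abel
    refine ⟨s, ?_, hxe⟩
    apply step_nonneg he
    rw [← hxe]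
    exact hx

end Pool.Agent.K4H92.LP
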