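import Pool.Agent.K4H92.LP.Edge
set_option autoImplicit false

/-!
# A rule for hidden data
-/

namespace Pool.Agent.K4H92.LP

open Finset Module

variable {m n : ℕ}

/-- a path of improving steps, given by tight rows -/
def Seq (A : Fin m → Fin n → ℝ) (z : Hid m n) (x : ℕ → Fin n → ℝ) (N : ℕ) : Prop :=
  (∀ k ≤ N, Vert (rows A) (rhs z.1) (x k)) ∧
  ∀ k < N, ∃ e, ∃ t : ℝ, Dir (rows A) (tight (rows A) (rhs z.1) (x k)) e ∧ 0 < t ∧
    x (k + 1) = x k + t • e ∧ 0 < lf z.2 e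

/-- the end of a path -/
def Last (A : Fin m → Fin n → ℝ) (z : Hid m n) (x : Fin n → ℝ) : Prop :=
  (∀ y ∈ PP (rows A) (rhs z.1), lf z.2 y ≤ lf z.2 x) ∨
    ∃ e, Dir (rows A) (tight (rows A) (rhs z.1) x) e ∧ 0 < lf z.2 e ∧ ∀ i, rows A i e ≤ 0

theorem plan_of_seq {A : Fin m → Fin n → ℝ} {z : Hid m n} {x : ℕ → Fin n → ℝ} {N : ℕ}
    (h : Seq A z x N) (hl : Last A z (x N)) (D : ℕ) (hD : N ≤ D) :
    (game A).Plan z D (tight (rows A) (rhs z.1) (x 0)) := by
  classical
  induction N generalizing x D with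
  | zero =>
    refine .done _ _ ?_
    rcases hl with h1 | ⟨e, h1, h2, h3⟩
    · left
      change impr A z _ = ∅
      rw [Set.eq_empty_iff_forall_notMem]
      rintro Z ⟨e, he, hc, rfl⟩
      exact absurd (dir_le_of_max (h.1 0 le_rfl).1 h1 he.1) (not_le.2 hc)
    · right
      exact ⟨e, h1, ⟨e, h1, h2, rfl⟩, h3⟩
  | succ N ih =>
    obtain ⟨D, rfl⟩ : ∃ D', D = D' + 1 := ⟨D - 1, by omega⟩
    obtain ⟨e, t, he, ht, hx1, hc⟩ := h.2 0 (by omega)
    have hv0 := h.1 0 (by omega)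
    have hv1 := h.1 1 (by omega)
    rw [zero_add] at hx1
    rw [hx1] at hv1
    obtain ⟨k, hk, hke⟩ := tight_pos hv0 ht he hv1
    have hn : NextT A z (tight (rows A) (rhs z.1) (x 0))
        (zer A (tight (rows A) (rhs z.1) (x 0)) e) (tight (rows A) (rhs z.1) (x 1)) := by
      refine ⟨x 0, e, t, ⟨hv0, rfl⟩, he, rfl, ht, ?_, k, ?_, hke⟩
      · rw [hx1]; exact ⟨hv1, rfl⟩
      · rw [hx1]; exact hk
    refine .step D _ (zer A (tight (rows A) (rhs z.1) (x 0)) e)
      ⟨⟨e, he, hc, rfl⟩, e, he, rfl, k, hke⟩ ?_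
    rw [game_nx hn]
    exact ih (x := fun k => x (k + 1)) ⟨fun k hk => h.1 (k + 1) (by omega),
      fun k hk => h.2 (k + 1) (by omega)⟩ hl D (by omega)

/-- the view at the vertex `x` -/
noncomputable def vw (A : Fin m → Fin n → ℝ) (z : Hid m n) (x : Fin n → ℝ) :
    Finset (Ix m n) × Set (Finset (Ix m n)) :=
  (tight (rows A) (rhs z.1) x, impr A z (tight (rows A) (rhs z.1) x))

/-- all views up to time `k` -/
noncomputable def hist (A : Fin m → Fin n → ℝ) (z : Hid m n) (x : ℕ → Fin n → ℝ) (k : ℕ) :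
    List (Finset (Ix m n) × Set (Finset (Ix m n))) :=
  (List.range (k + 1)).map fun j => vw A z (x j)

theorem main (A : Fin m → Fin n → ℝ) (D : ℕ)
    (hD : ∀ (z : Hid m n) (v : Fin n → ℝ), Vert (rows A) (rhs z.1) v →
      ∃ N ≤ D, ∃ x : ℕ → Fin n → ℝ, x 0 = v ∧ Seq A z x N ∧ Last A z (x N)) :
    ∃ ρ : List (Finset (Ix m n) × Set (Finset (Ix m n))) → Finset (Ix m n),
      ∀ (z : Hid m n) (v : Fin n → ℝ), Vert (rows A) (rhs z.1) v →
        ∃ N ≤ (2 * (m + n) + 1) * (m + n + 1) ^ 2 * D, ∃ x : ℕ → Fin n → ℝ, x 0 = v ∧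
          Seq A z x N ∧
          (∀ k < N, ∀ e, ∀ t : ℝ, 0 < t → Dir (rows A) (tight (rows A) (rhs z.1) (x k)) e →
            x (k + 1) = x k + t • e →
            zer A (tight (rows A) (rhs z.1) (x k)) e = ρ (hist A z x k)) ∧
          ((∀ y ∈ PP (rows A) (rhs z.1), lf z.2 y ≤ lf z.2 (x N)) ∨
            ∃ e, Dir (rows A) (tight (rows A) (rhs z.1) (x N)) e ∧ 0 < lf z.2 e ∧
              (∀ i, rows A i e ≤ 0) ∧
              zer A (tight (rows A) (rhs z.1) (x N)) e = ρ (hist A z x N)) := by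
  classical
  have hfr : finrank ℝ (Hid m n) ≤ m + n := by
    rw [Module.finrank_prod]
    simp
  obtain ⟨V₀, hV, hrep⟩ := exists_reps A
  obtain ⟨ρ₀, hρ₀⟩ := Sys.strategy_all (G := game A) (N := m + n) (D := D)
    (k := (m + n + 1) * ((2 * (m + n) + 3) * (m + n) + 1)) hfr (fun z T hz => by
      obtain ⟨x, hx⟩ := hz
      obtain ⟨N, hN, y, hy0, hy, hl⟩ := hD z x hx.1
      have := plan_of_seq hy hl D hN
      rw [hy0, hx.2] at this
      exact this) V₀ (pow_gap hV) hrep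
  set good : Finset (Ix m n) × Set (Finset (Ix m n)) → Prop := fun p =>
    ∃ e, Dir (rows A) p.1 e ∧ zer A p.1 e ∈ p.2 ∧ ∀ i, rows A i e ≤ 0 with hgood
  have hρex : ∀ l : List (Finset (Ix m n) × Set (Finset (Ix m n))), ∃ Zn : Finset (Ix m n),
      (∀ p, l.getLast? = some p → good p → ∃ e, Dir (rows A) p.1 e ∧ zer A p.1 e ∈ p.2 ∧
        (∀ i, rows A i e ≤ 0) ∧ zer A p.1 e = Zn) ∧
      ((∀ p, l.getLast? = some p → ¬ good p) → Zn = ρ₀ l) := by
    intro l
    by_cases h : ∃ p, l.getLast? = some p ∧ good p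
    · obtain ⟨p, hp, e, h1, h2, h3⟩ := h
      refine ⟨zer A p.1 e, fun q hq _ => ?_, fun hcon => absurd ⟨e, h1, h2, h3⟩ (hcon p hp)⟩
      rw [hp] at hq
      obtain rfl := Option.some.inj hq
      exact ⟨e, h1, h2, h3, rfl⟩
    · push Not at h
      exact ⟨ρ₀ l, fun p hp hg => absurd hg (h p hp), fun _ => rfl⟩
  choose ρ hρ using hρex
  refine ⟨ρ, fun z v hv => ?_⟩
  set T₀ := tight (rows A) (rhs z.1) v with hT₀
  have hval0 : z ∈ (game A).Val T₀ := ⟨v, hv, rfl⟩
  obtain ⟨M, hM, hok, hterm⟩ := hρ₀ z T₀ hval0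
  set R := fun k => Sys.run (game A) z ρ₀ T₀ k with hR
  -- the first terminal time
  have hex : ∃ N, (game A).Term (R N).2 ((game A).F z (R N).2) := ⟨M, hterm⟩
  set N := Nat.find hex with hN
  have hNM : N ≤ M := Nat.find_min' hex hterm
  have hNt : (game A).Term (R N).2 ((game A).F z (R N).2) := Nat.find_spec hex
  have hNf : ∀ k < N, ¬ (game A).Term (R k).2 ((game A).F z (R k).2) := fun k hk =>
    Nat.find_min hex hk
  have hval : ∀ k ≤ N, z ∈ (game A).Val (R k).2 := by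
    intro k
    induction k with
    | zero => intro _; exact hval0
    | succ k ih =>
      intro hk
      exact (game A).val z _ _ (ih (by omega)) (hok k (by omega))
  set x : ℕ → Fin n → ℝ := fun k => if h : ∃ y, AtT A z (R k).2 y then h.choose else 0 with hx
  have hxA : ∀ k ≤ N, AtT A z (R k).2 (x k) := by
    intro k hk
    have h : ∃ y, AtT A z (R k).2 y := hval k hk
    rw [hx]
    simp only
    rw [dif_pos h]
    exact h.choose_spec
  have hhist : ∀ k ≤ N, hist A z x k = (R k).1 := by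
    intro k hk
    rw [hR]
    simp only
    rw [Sys.run_hist, hist]
    apply List.map_congr_left
    intro j hj
    have hj' : j ≤ N := by
      have := List.mem_range.1 hj
      omega
    have := (hxA j hj').2
    rw [vw, this]
    rfl
  have hlast : ∀ k ≤ N, (hist A z x k).getLast? = some ((R k).2, impr A z (R k).2) := by
    intro k hk
    rw [hist, List.range_succ, List.map_append, List.map_singleton, List.getLast?_concat, vw,
      (hxA k hk).2]
  refine ⟨N, ?_, x, ?_, ⟨fun k hk => (hxA k hk).1, fun k hk => ?_⟩,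
    fun k hk e t ht he hxk => ?_, ?_⟩
  · refine (hNM.trans hM).trans (le_of_eq ?_)
    ring
  · exact atT_unique (hxA 0 (Nat.zero_le _)) ⟨hv, rfl⟩
  · obtain ⟨hin, e, he, hZe, hu⟩ := hok k (by omega)
    obtain ⟨e', he', hc, hZe'⟩ := hin
    obtain rfl := zer_inj he he' (hZe.symm.trans hZe')
    obtain ⟨t, ht, h1, h2, h3⟩ := exists_next (hxA k hk.le) he hu
    have hn : NextT A z (R k).2 (ρ₀ (R k).1) _ := ⟨x k, e, t, hxA k hk.le, he, hZe, ht,
      ⟨h1, rfl⟩, h3⟩
    have h4 := hxA (k + 1) hk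
    have h5 : (R (k + 1)).2 = tight (rows A) (rhs z.1) (x k + t • e) := game_nx hn
    rw [h5] at h4
    refine ⟨e, t, ?_, ht, atT_unique h4 ⟨h1, rfl⟩, hc⟩
    rw [(hxA k hk.le).2]
    exact he
  · obtain ⟨hin, e₁, he₁, hZe₁, hu⟩ := hok k (by omega)
    obtain ⟨t₁, ht₁, h1, h2, h3⟩ := exists_next (hxA k hk.le) he₁ hu
    have hn : NextT A z (R k).2 (ρ₀ (R k).1) _ := ⟨x k, e₁, t₁, hxA k hk.le, he₁, hZe₁, ht₁,
      ⟨h1, rfl⟩, h3⟩
    have h4 := hxA (k + 1) hk
    have h5 : (R (k + 1)).2 = tight (rows A) (rhs z.1) (x k + t₁ • e₁) := game_nx hn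
    rw [h5] at h4
    have h6 : x (k + 1) = x k + t₁ • e₁ := atT_unique h4 ⟨h1, rfl⟩
    have h7 : e = (t₁ / t) • e₁ := by
      have : t • e = t₁ • e₁ := add_left_cancel (hxk.symm.trans h6)
      rw [div_eq_inv_mul, mul_smul, ← this, smul_smul, inv_mul_cancel₀ ht.ne', one_smul]
    rw [(hxA k hk.le).2] at he ⊢
    have h8 : e = e₁ := he₁.eq_of_smul he h7
    rw [h8, ← hZe₁, (hρ _).2 ?_, hhist k hk.le]
    intro p hp1 hp2
    rw [hlast k hk.le] at hp1
    obtain rfl := Option.some.inj hp1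
    exact hNf k hk (Or.inr hp2)
  · by_cases hg : good ((R N).2, impr A z (R N).2)
    · right
      obtain ⟨e, h1, ⟨e', he', hc, hz⟩, h3, h4⟩ := (hρ _).1 _ (hlast N le_rfl) hg
      obtain rfl := zer_inj h1 he' hz
      refine ⟨e, ?_, hc, h3, ?_⟩
      · rw [(hxA N le_rfl).2]; exact h1
      · rw [(hxA N le_rfl).2]; exact h4
    · left
      rcases hNt with h | h
      · intro y hy
        refine vert_le (hxA N le_rfl).1 (fun e he => ?_) hy
        by_contra hcon
        push Not at hcon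
        rw [(hxA N le_rfl).2] at he
        have : zer A (R N).2 e ∈ impr A z (R N).2 := ⟨e, he, hcon, rfl⟩
        have h' : impr A z (R N).2 = ∅ := h
        rw [h'] at this
        exact this
      · exact absurd h hg

end Pool.Agent.K4H92.LP
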