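import Pool.Agent.K4H92.LP.Game
set_option autoImplicit false

/-!
# Finitely many representatives; edges and directions
-/

namespace Pool.Agent.K4H92.LP

open Finset Module

variable {m n : ℕ}

theorem exists_left {A : Fin m → Fin n → ℝ} {T : Finset (Ix m n)} (hT : Spans (rows A) T) :
    ∃ L : (Ix m n → ℝ) →ₗ[ℝ] (Fin n → ℝ), ∀ (x : Fin n → ℝ) (γ : Ix m n → ℝ),
      (∀ i ∈ T, γ i = rows A i x) → L γ = x := by
  classical
  set Θ : (Fin n → ℝ) →ₗ[ℝ] (Ix m n → ℝ) :=
    LinearMap.pi fun i => if i ∈ T then rows A i else 0 with hΘ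
  have hk : LinearMap.ker Θ = ⊥ := by
    rw [LinearMap.ker_eq_bot']
    intro x hx
    apply hT
    intro i hi
    have := congrFun hx i
    simpa [hΘ, hi] using this
  obtain ⟨L₀, hL₀⟩ := LinearMap.exists_leftInverse_of_injective Θ hk
  set R : (Ix m n → ℝ) →ₗ[ℝ] (Ix m n → ℝ) :=
    LinearMap.pi fun i => if i ∈ T then LinearMap.proj i else 0 with hR
  refine ⟨L₀.comp R, fun x γ h => ?_⟩
  have h1 : R γ = Θ x := by
    funext i
    by_cases hi : i ∈ T
    · simp [hR, hΘ, hi, h i hi]
    · simp [hR, hΘ, hi]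
  rw [LinearMap.comp_apply, h1, ← LinearMap.comp_apply, hL₀]
  rfl

open Classical in
/-- the vertex with the tight rows `T`, as a linear function of the right-hand sides -/
noncomputable def vtx (A : Fin m → Fin n → ℝ) (T : Finset (Ix m n)) :
    (Ix m n → ℝ) →ₗ[ℝ] (Fin n → ℝ) :=
  if h : Spans (rows A) T then (exists_left h).choose else 0

theorem vtx_spec {A : Fin m → Fin n → ℝ} {T : Finset (Ix m n)} (hT : Spans (rows A) T)
    (x : Fin n → ℝ) (γ : Ix m n → ℝ) (h : ∀ i ∈ T, γ i = rows A i x) : vtx A T γ = x := by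
  unfold vtx
  rw [dif_pos hT]
  exact (exists_left hT).choose_spec x γ h

/-- the right-hand side as a linear map -/
def rhsL (m n : ℕ) : (Fin m → ℝ) →ₗ[ℝ] (Ix m n → ℝ) :=
  LinearMap.pi (Sum.rec (fun i => LinearMap.proj i) fun _ => 0)

theorem rhsL_apply (b : Fin m → ℝ) : rhsL m n b = rhs b := by
  funext i
  cases i <;> rfl

/-- the slack of the row `i` at the vertex `T` -/
noncomputable def psi (A : Fin m → Fin n → ℝ) (T : Finset (Ix m n)) (i : Ix m n) :
    Hid m n →ₗ[ℝ] ℝ :=
  ((LinearMap.proj i - (rows A i).comp (vtx A T)).comp (rhsL m n)).comp (LinearMap.fst ℝ _ _)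

theorem psi_apply (A : Fin m → Fin n → ℝ) (T : Finset (Ix m n)) (i : Ix m n) (z : Hid m n) :
    psi A T i z = rhs z.1 i - rows A i (vtx A T (rhs z.1)) := by
  simp [psi, rhsL_apply]

/-- the reduced cost of the direction `e` -/
noncomputable def chi (e : Fin n → ℝ) : Hid m n →ₗ[ℝ] ℝ :=
  (∑ j, e j • LinearMap.proj j : (Fin n → ℝ) →ₗ[ℝ] ℝ).comp (LinearMap.snd ℝ _ _)

theorem chi_apply (e : Fin n → ℝ) (z : Hid m n) : chi e z = lf z.2 e := by
  simp [chi, lf_apply, LinearMap.sum_apply, mul_comm]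

/-- the directions at `T` -/
noncomputable def dirs (A : Fin m → Fin n → ℝ) (T : Finset (Ix m n)) : Finset (Fin n → ℝ) :=
  (dir_finite (rows A) T).toFinset

theorem mem_dirs {A : Fin m → Fin n → ℝ} {T : Finset (Ix m n)} {e : Fin n → ℝ} :
    e ∈ dirs A T ↔ Dir (rows A) T e := by
  rw [dirs, Set.Finite.mem_toFinset]; rfl

theorem card_dirs (A : Fin m → Fin n → ℝ) (T : Finset (Ix m n)) :
    (dirs A T).card ≤ 2 ^ (m + n) := by
  classical
  have h : (dirs A T).card ≤ (univ : Finset (Finset (Ix m n))).card := by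
    refine card_le_card_of_injOn (zer A T) (fun _ _ => mem_coe.2 (mem_univ _)) ?_
    intro e he e' he' hz
    exact zer_inj (mem_dirs.1 (mem_coe.1 he)) (mem_dirs.1 (mem_coe.1 he')) hz
  simpa [Fintype.card_finset] using h

/-- all functionals -/
noncomputable def Phi (A : Fin m → Fin n → ℝ) : List (Hid m n →ₗ[ℝ] ℝ) :=
  (univ : Finset (Finset (Ix m n))).toList.flatMap fun T =>
    (univ : Finset (Ix m n)).toList.map (psi A T) ++ (dirs A T).toList.map chi

theorem psi_mem (A : Fin m → Fin n → ℝ) (T : Finset (Ix m n)) (i : Ix m n) : psi A T i ∈ Phi A := by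
  unfold Phi
  rw [List.mem_flatMap]
  exact ⟨T, by simp, List.mem_append_left _ (List.mem_map.2 ⟨i, by simp, rfl⟩)⟩

theorem chi_mem (A : Fin m → Fin n → ℝ) {T : Finset (Ix m n)} {e : Fin n → ℝ}
    (he : Dir (rows A) T e) : chi e ∈ Phi A := by
  unfold Phi
  rw [List.mem_flatMap]
  exact ⟨T, by simp, List.mem_append_right _ (List.mem_map.2 ⟨e, by simpa [mem_dirs] using he, rfl⟩)⟩

theorem length_Phi (A : Fin m → Fin n → ℝ) : 2 * (Phi A).length + 1 ≤ 2 ^ (2 * (m + n) + 3) := by
  classical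
  have h1 : (Phi A).length ≤ 2 ^ (m + n) * ((m + n) + 2 ^ (m + n)) := by
    unfold Phi
    rw [List.length_flatMap]
    have h2 : ∀ l : List (Finset (Ix m n)), (l.map fun T =>
        ((univ : Finset (Ix m n)).toList.map (psi A T) ++ (dirs A T).toList.map chi).length).sum ≤
        l.length * ((m + n) + 2 ^ (m + n)) := by
      intro l
      induction l with
      | nil => simp
      | cons T l ih =>
        rw [List.map_cons, List.sum_cons, List.length_cons, Nat.succ_mul]
        have h3 : ((univ : Finset (Ix m n)).toList.map (psi A T) ++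
            (dirs A T).toList.map (chi (m := m))).length ≤ (m + n) + 2 ^ (m + n) := by
          have h4 := card_dirs A T
          simp only [List.length_append, List.length_map, length_toList, card_univ,
            Fintype.card_sum, Fintype.card_fin]
          omega
        omega
    have h3 := h2 (univ : Finset (Finset (Ix m n))).toList
    simpa [Fintype.card_finset] using h3
  have h2 : m + n ≤ 2 ^ (m + n) := Nat.lt_two_pow_self.le
  have h3 : 2 ^ (m + n) * ((m + n) + 2 ^ (m + n)) ≤ 2 ^ (m + n) * (2 * 2 ^ (m + n)) :=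
    Nat.mul_le_mul_left _ (by omega)
  have h4 : 2 ^ (m + n) * (2 * 2 ^ (m + n)) = 2 * 2 ^ (2 * (m + n)) := by
    rw [two_mul (m + n), pow_add]; ring
  have h5 : (2:ℕ) ^ (2 * (m + n) + 3) = 8 * 2 ^ (2 * (m + n)) := by rw [pow_add]; ring
  have h6 : 1 ≤ 2 ^ (2 * (m + n)) := Nat.one_le_two_pow
  omega

theorem sign_eq {L : List (Hid m n →ₗ[ℝ] ℝ)} {z z' : Hid m n} (h : sv L z = sv L z')
    {f : Hid m n →ₗ[ℝ] ℝ} (hf : f ∈ L) : SignType.sign (f z) = SignType.sign (f z') :=
  List.map_inj_left.1 h f hf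

theorem atT_iff {A : Fin m → Fin n → ℝ} {z : Hid m n} {T : Finset (Ix m n)} :
    (∃ x, AtT A z T x) ↔ Spans (rows A) T ∧ (∀ i ∈ T, psi A T i z = 0) ∧
      ∀ i, i ∉ T → 0 < psi A T i z := by
  constructor
  · rintro ⟨x, hx⟩
    have hT : Spans (rows A) T := by rw [← hx.2]; exact hx.1.2
    have hv : vtx A T (rhs z.1) = x := vtx_spec hT x _ fun i hi => by
      rw [← hx.2] at hi
      exact (mem_tight.1 hi).symm
    refine ⟨hT, fun i hi => ?_, fun i hi => ?_⟩
    · rw [psi_apply, hv]
      rw [← hx.2] at hi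
      rw [mem_tight.1 hi, sub_self]
    · rw [psi_apply, hv]
      rw [← hx.2, mem_tight] at hi
      exact sub_pos.2 (lt_of_le_of_ne (hx.1.1 i) hi)
  · rintro ⟨hT, h1, h2⟩
    refine ⟨vtx A T (rhs z.1), ?_⟩
    have ht : tight (rows A) (rhs z.1) (vtx A T (rhs z.1)) = T := by
      ext i
      rw [mem_tight]
      by_cases hi : i ∈ T
      · have := h1 i hi
        rw [psi_apply] at this
        simp only [hi, iff_true]
        linarith
      · have := h2 i hi
        rw [psi_apply] at this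
        simp only [hi, iff_false]
        intro h
        linarith
    refine ⟨⟨fun i => ?_, ?_⟩, ht⟩
    · by_cases hi : i ∈ T
      · have := h1 i hi
        rw [psi_apply] at this
        linarith
      · have := h2 i hi
        rw [psi_apply] at this
        linarith
    · rw [ht]; exact hT

theorem atT_transfer {A : Fin m → Fin n → ℝ} {z z' : Hid m n} (h : sv (Phi A) z = sv (Phi A) z')
    {T : Finset (Ix m n)} (hx : ∃ x, AtT A z T x) : ∃ x, AtT A z' T x := by
  rw [atT_iff] at hx ⊢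
  obtain ⟨h1, h2, h3⟩ := hx
  refine ⟨h1, fun i hi => ?_, fun i hi => ?_⟩
  · have := sign_eq h (psi_mem A T i)
    rw [h2 i hi, sign_zero] at this
    exact sign_eq_zero_iff.1 this.symm
  · have := sign_eq h (psi_mem A T i)
    rw [sign_pos (h3 i hi)] at this
    exact sign_eq_one_iff.1 this.symm

theorem impr_transfer {A : Fin m → Fin n → ℝ} {z z' : Hid m n} (h : sv (Phi A) z = sv (Phi A) z')
    (T : Finset (Ix m n)) : impr A z T = impr A z' T := by
  have key : ∀ {w w' : Hid m n}, sv (Phi A) w = sv (Phi A) w' → impr A w T ⊆ impr A w' T := by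
    rintro w w' hw Z ⟨e, he, hc, rfl⟩
    refine ⟨e, he, ?_, rfl⟩
    have := sign_eq hw (chi_mem A he)
    rw [chi_apply, chi_apply, sign_pos hc] at this
    exact sign_eq_one_iff.1 this.symm
  exact Set.Subset.antisymm (key h) (key h.symm)

theorem next_transfer {A : Fin m → Fin n → ℝ} {z z' : Hid m n} (h : sv (Phi A) z = sv (Phi A) z')
    {T Z T' : Finset (Ix m n)} (hn : NextT A z T Z T') : NextT A z' T Z T' := by
  classical
  obtain ⟨x, e, t, hx, he, hZ, ht, hy, k, hk, hke⟩ := hn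
  obtain ⟨x', hx'⟩ := atT_transfer h ⟨x, hx⟩
  obtain ⟨y', hy'⟩ := atT_transfer h ⟨_, hy⟩
  have hsub : ∀ i ∈ T, rows A i e = 0 → i ∈ T' := by
    intro i hi h0
    rw [← hy.2, mem_tight, map_add, map_smul, h0, smul_zero, add_zero]
    rw [← hx.2] at hi
    exact mem_tight.1 hi
  obtain ⟨t', ht'⟩ := he.2.2 (y' - x') (fun i hi h0 => by
    have h1 := hsub i hi h0
    rw [← hy'.2] at h1
    rw [← hx'.2] at hi
    rw [map_sub, mem_tight.1 h1, mem_tight.1 hi, sub_self])
  have hyx : y' = x' + t' • e := by rw [← ht']; abel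
  have hkT : k ∉ T := fun hkT => absurd (he.1 k hkT) (not_le.2 hke)
  have hpos : 0 < t' := by
    have h1 : rows A k x' < rhs z'.1 k := by
      rw [← hx'.2, mem_tight] at hkT
      exact lt_of_le_of_ne (hx'.1.1 k) hkT
    have h2 : rows A k y' = rhs z'.1 k := by
      have := hk
      rw [← hy'.2] at this
      exact mem_tight.1 this
    rw [hyx, map_add, map_smul, smul_eq_mul] at h2
    by_contra hcon
    push Not at hcon
    have := mul_nonpos_of_nonpos_of_nonneg hcon hke.le
    linarith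
  rw [hyx] at hy'
  exact ⟨x', e, t', hx', he, hZ, hpos, hy', k, hk, hke⟩

/-- the representatives -/
theorem exists_reps (A : Fin m → Fin n → ℝ) :
    ∃ V₀ : Finset (Hid m n), V₀.card ≤ 2 ^ ((2 * (m + n) + 3) * (m + n)) ∧
      ∀ z, ∃ z' ∈ V₀, ∀ T, z ∈ (game A).Val T → z' ∈ (game A).Val T ∧
        (game A).F z T = (game A).F z' T ∧ ∀ Z, (game A).Ok T ((game A).F z T) Z →
          (game A).nx z T Z = (game A).nx z' T Z := by
  classical
  have hfin := finite_sv (Phi A) (Set.univ : Set (Hid m n))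
  have hw : ∀ τ : sv (Phi A) '' (Set.univ : Set (Hid m n)), ∃ z, sv (Phi A) z = τ := by
    rintro ⟨_, z, _, rfl⟩
    exact ⟨z, rfl⟩
  choose w hw using hw
  have : Fintype (sv (Phi A) '' (Set.univ : Set (Hid m n))) := hfin.fintype
  refine ⟨univ.image w, ?_, fun z => ?_⟩
  · refine card_image_le.trans ?_
    rw [card_univ, ← Nat.card_eq_fintype_card, Nat.card_coe_set_eq]
    have h1 := card_sv (Phi A) (m + n) (⊤ : Submodule ℝ (Hid m n)) (by
      rw [finrank_top, Module.finrank_prod]
      simp)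
    rw [Submodule.top_coe] at h1
    refine h1.trans ?_
    rw [pow_mul]
    exact Nat.pow_le_pow_left (length_Phi A) _
  · set τ : sv (Phi A) '' (Set.univ : Set (Hid m n)) := ⟨sv (Phi A) z, z, Set.mem_univ _, rfl⟩
      with hτ
    have he : sv (Phi A) z = sv (Phi A) (w τ) := (hw τ).symm
    refine ⟨w τ, mem_image_of_mem _ (mem_univ _), fun T hT => ⟨atT_transfer he hT,
      impr_transfer he T, fun Z hZ => ?_⟩⟩
    obtain ⟨x, hx⟩ := hT
    obtain ⟨_, e, hd, hZe, hu⟩ := hZ
    obtain ⟨t, ht, h1, h2, h3⟩ := exists_next hx hd hu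
    have hn : NextT A z T Z _ := ⟨x, e, t, hx, hd, hZe, ht, ⟨h1, rfl⟩, h3⟩
    rw [game_nx hn, game_nx (next_transfer he hn)]

end Pool.Agent.K4H92.LP
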