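import Mathlib
set_option autoImplicit false

/-!
# Separation of relatively open convex cones
-/

namespace Pool.Agent.K4H92.LP

/-- A convex set in a finite-dimensional space which does not contain `0` can be weakly separated
from `0` by a functional which does not vanish on it. -/
theorem exists_weak {V : Type*} [NormedAddCommGroup V] [NormedSpace ℝ V] [FiniteDimensional ℝ V]
    {K : Set V} (hK : Convex ℝ K) (h0 : (0 : V) ∉ K) (hne : K.Nonempty)
    (hspan : Submodule.span ℝ K = ⊤) :
    ∃ g : V →ₗ[ℝ] ℝ, (∀ x ∈ K, 0 ≤ g x) ∧ ∃ x ∈ K, 0 < g x := by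
  by_cases hi : (interior K).Nonempty
  · have hx0 : (0 : V) ∉ interior K := fun h => h0 (interior_subset h)
    obtain ⟨g, hg⟩ := geometric_hahn_banach_point_open hK.interior isOpen_interior hx0
    refine ⟨g.toLinearMap, fun x hx => ?_, ?_⟩
    · have h1 : x ∈ closure (interior K) := by
        rw [hK.closure_interior_eq_closure_of_nonempty_interior hi]
        exact subset_closure hx
      have h2 : closure (interior K) ⊆ {y | 0 ≤ g y} := by
        apply closure_minimal
        · intro y hy
          have := hg y hy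
          rw [map_zero] at this
          exact this.le
        · exact isClosed_le continuous_const g.continuous
      exact h2 h1
    · obtain ⟨y, hy⟩ := hi
      refine ⟨y, interior_subset hy, ?_⟩
      have := hg y hy
      rwa [map_zero] at this
  · have ha : affineSpan ℝ K ≠ ⊤ := fun h => hi (hK.interior_nonempty_iff_affineSpan_eq_top.2 h)
    obtain ⟨x0, hx0⟩ := hne
    have hdir : (affineSpan ℝ K).direction < ⊤ := by
      refine lt_top_iff_ne_top.2 fun h => ha ?_
      exact (AffineSubspace.direction_eq_top_iff_of_nonempty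
        ⟨x0, subset_affineSpan ℝ K hx0⟩).1 h
    obtain ⟨f, hf0, hf⟩ := Submodule.exists_le_ker_of_lt_top _ hdir
    have hconst : ∀ x ∈ K, f x = f x0 := by
      intro x hx
      have h1 : x -ᵥ x0 ∈ (affineSpan ℝ K).direction :=
        AffineSubspace.vsub_mem_direction (subset_affineSpan ℝ K hx) (subset_affineSpan ℝ K hx0)
      have h2 : f (x -ᵥ x0) = 0 := hf h1
      rw [vsub_eq_sub, map_sub] at h2
      linarith
    have hc : f x0 ≠ 0 := by
      intro hc
      apply hf0
      have : Submodule.span ℝ K ≤ LinearMap.ker f := by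
        rw [Submodule.span_le]
        intro x hx
        change f x = 0
        rw [hconst x hx, hc]
      rw [hspan] at this
      exact LinearMap.ker_eq_top.1 (top_le_iff.1 this)
    rcases lt_or_gt_of_ne hc with h | h
    · exact ⟨-f, fun x hx => by simp [hconst x hx, h.le], x0, hx0, by simpa using h⟩
    · exact ⟨f, fun x hx => by rw [hconst x hx]; exact h.le, x0, hx0, h⟩

theorem exists_weak' {V : Type*} [NormedAddCommGroup V] [NormedSpace ℝ V] [FiniteDimensional ℝ V]
    {K : Set V} (hK : Convex ℝ K) (h0 : (0 : V) ∉ K) (hne : K.Nonempty) :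
    ∃ g : V →ₗ[ℝ] ℝ, (∀ x ∈ K, 0 ≤ g x) ∧ ∃ x ∈ K, 0 < g x := by
  set W := Submodule.span ℝ K with hW
  set K' : Set W := (fun x : W => (x : V)) ⁻¹' K with hK'
  have hK'c : Convex ℝ K' := hK.linear_preimage W.subtype
  have h0' : (0 : W) ∉ K' := h0
  obtain ⟨x0, hx0⟩ := hne
  have hne' : K'.Nonempty := ⟨⟨x0, Submodule.subset_span hx0⟩, hx0⟩
  have hs : Submodule.span ℝ K' = ⊤ := by
    have := Submodule.span_span_coe_preimage (R := ℝ) (s := K)
    exact this
  obtain ⟨g, hg, y, hy, hgy⟩ := exists_weak hK'c h0' hne' hs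
  obtain ⟨G, hG⟩ := LinearMap.exists_extend g
  refine ⟨G, fun x hx => ?_, y, hy, ?_⟩
  · have h1 := hg ⟨x, Submodule.subset_span hx⟩ hx
    have h2 : G x = g ⟨x, Submodule.subset_span hx⟩ := by
      rw [← hG]; rfl
    rw [h2]; exact h1
  · have h2 : G y = g y := by
      rw [← hG]; rfl
    rw [h2]; exact hgy

/-- a relatively open convex cone -/
structure Cone {V : Type*} [AddCommGroup V] [Module ℝ V] (A : Set V) : Prop where
  add : ∀ x ∈ A, ∀ y ∈ A, x + y ∈ A
  smul : ∀ t : ℝ, 0 < t → ∀ x ∈ A, t • x ∈ A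
  rel : ∀ x ∈ A, ∀ y ∈ A, ∃ t : ℝ, 0 < t ∧ x - t • y ∈ A

/-- Two disjoint relatively open convex cones are separated by the sign of a functional. -/
theorem separate {V : Type*} [NormedAddCommGroup V] [NormedSpace ℝ V] [FiniteDimensional ℝ V]
    {A B : Set V} (hA : Cone A) (hB : Cone B) (hAB : Disjoint A B) :
    ∃ g : V →ₗ[ℝ] ℝ, ∀ x ∈ A, ∀ y ∈ B, SignType.sign (g x) ≠ SignType.sign (g y) := by
  by_cases hAn : A.Nonempty
  swap
  · exact ⟨0, fun x hx => absurd ⟨x, hx⟩ hAn⟩
  by_cases hBn : B.Nonempty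
  swap
  · exact ⟨0, fun x _ y hy => absurd ⟨y, hy⟩ hBn⟩
  obtain ⟨a0, ha0⟩ := hAn
  obtain ⟨b0, hb0⟩ := hBn
  have hcA : Convex ℝ A := by
    intro x hx y hy s t hs ht hst
    rcases hs.lt_or_eq with h | h
    · rcases ht.lt_or_eq with h' | h'
      · exact hA.add _ (hA.smul _ h _ hx) _ (hA.smul _ h' _ hy)
      · rw [← h', zero_smul, add_zero]; exact hA.smul _ h _ hx
    · have : t = 1 := by linarith
      rw [← h, this, zero_smul, zero_add, one_smul]; exact hy
  have hcB : Convex ℝ B := by
    intro x hx y hy s t hs ht hst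
    rcases hs.lt_or_eq with h | h
    · rcases ht.lt_or_eq with h' | h'
      · exact hB.add _ (hB.smul _ h _ hx) _ (hB.smul _ h' _ hy)
      · rw [← h', zero_smul, add_zero]; exact hB.smul _ h _ hx
    · have : t = 1 := by linarith
      rw [← h, this, zero_smul, zero_add, one_smul]; exact hy
  open Pointwise in
  have hK : Convex ℝ (A - B) := hcA.sub hcB
  open Pointwise in
  have h0 : (0 : V) ∉ A - B := by
    rintro ⟨x, hx, y, hy, hxy⟩
    have : x = y := sub_eq_zero.1 hxy
    exact Set.disjoint_left.1 hAB hx (this ▸ hy)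
  open Pointwise in
  obtain ⟨g, hg, _, ⟨a1, ha1, b1, hb1, rfl⟩, h1⟩ :=
    exists_weak' hK h0 ⟨a0 - b0, a0, ha0, b0, hb0, rfl⟩
  have hge : ∀ x ∈ A, ∀ y ∈ B, g y ≤ g x := by
    intro x hx y hy
    have := hg (x - y) ⟨x, hx, y, hy, rfl⟩
    rw [map_sub] at this
    linarith
  simp only [map_sub] at h1
  have hgA : ∀ x ∈ A, 0 ≤ g x := by
    intro x hx
    by_contra hneg
    push Not at hneg
    -- `t g x ≥ g b0` for all t
    have h2 : ∀ t : ℝ, 0 < t → g b0 ≤ t * g x := by
      intro t ht
      have := hge _ (hA.smul t ht x hx) b0 hb0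
      simpa using this
    have h3 := h2 ((|g b0| + 1) / (-(g x))) (by apply div_pos; positivity; linarith)
    have hx0 : g x ≠ 0 := hneg.ne
    have h4 : (|g b0| + 1) / (-(g x)) * g x = -(|g b0| + 1) := by
      rw [div_neg, neg_mul, div_mul_cancel₀ _ hx0]
    rw [h4] at h3
    have := neg_abs_le (g b0)
    linarith
  have hgB : ∀ y ∈ B, g y ≤ 0 := by
    intro y hy
    by_contra hpos
    push Not at hpos
    have h2 : ∀ t : ℝ, 0 < t → t * g y ≤ g a0 := by
      intro t ht
      have := hge a0 ha0 _ (hB.smul t ht y hy)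
      simpa using this
    have h3 := h2 ((|g a0| + 1) / g y) (by apply div_pos; positivity; linarith)
    have h4 : (|g a0| + 1) / g y * g y = |g a0| + 1 := by
      field_simp
    rw [h4] at h3
    have := le_abs_self (g a0)
    linarith
  rcases (hgA a1 ha1).lt_or_eq with h | h
  · -- g > 0 on A
    refine ⟨g, fun x hx y hy he => ?_⟩
    obtain ⟨t, ht, hxt⟩ := hA.rel x hx a1 ha1
    have h2 := hgA _ hxt
    rw [map_sub, map_smul, smul_eq_mul] at h2
    have h3 : 0 < g x := by
      have := mul_pos ht h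
      linarith
    rw [sign_pos h3] at he
    have := sign_eq_one_iff.1 he.symm
    linarith [hgB y hy]
  · have hb : g b1 < 0 := by linarith
    refine ⟨g, fun x hx y hy he => ?_⟩
    obtain ⟨t, ht, hyt⟩ := hB.rel y hy b1 hb1
    have h2 := hgB _ hyt
    rw [map_sub, map_smul, smul_eq_mul] at h2
    have h3 : g y < 0 := by
      have := mul_neg_of_pos_of_neg ht hb
      linarith
    rw [sign_neg h3] at he
    have := sign_eq_neg_one_iff.1 he
    linarith [hgA x hx]

end Pool.Agent.K4H92.LP
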