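import Pool.Agent.K4H92.LP.Geom
set_option autoImplicit false

/-!
# The shadow vertex path
-/

namespace Pool.Agent.K4H92.LP

open Finset

variable {E : Type*} [AddCommGroup E] [Module ℝ E] {I : Type*} [Fintype I]
  {a : I → E →ₗ[ℝ] ℝ} {β : I → ℝ}

/-- the interpolated objective -/
def mix (d c : E →ₗ[ℝ] ℝ) (θ : ℝ) : E →ₗ[ℝ] ℝ := (1 - θ) • d + θ • c

theorem mix_apply (d c : E →ₗ[ℝ] ℝ) (θ : ℝ) (x : E) : mix d c θ x = (1 - θ) * d x + θ * c x := rfl

/-- `v` is a vertex which is strictly optimal for the interpolated objective -/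
def Sh (a : I → E →ₗ[ℝ] ℝ) (β : I → ℝ) (d c : E →ₗ[ℝ] ℝ) (v : E) (θ : ℝ) : Prop :=
  Vert a β v ∧ 0 ≤ θ ∧ θ < 1 ∧ ∀ e, Dir a (tight a β v) e → mix d c θ e < 0

/-- the auxiliary objective is generic -/
def Gen (a : I → E →ₗ[ℝ] ℝ) (β : I → ℝ) (d c : E →ₗ[ℝ] ℝ) : Prop :=
  ∀ v, Vert a β v → ∀ e e', Dir a (tight a β v) e → Dir a (tight a β v) e' → e ≠ e' →
    ∀ θ : ℝ, 0 ≤ θ → θ < 1 → mix d c θ e = 0 → mix d c θ e' ≠ 0

theorem next {d c : E →ₗ[ℝ] ℝ} (hg : Gen a β d c) {v : E} {θ₀ : ℝ} (hv : Sh a β d c v θ₀) :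
    (∀ e, Dir a (tight a β v) e → c e ≤ 0) ∨
      ∃ e, Dir a (tight a β v) e ∧ 0 < c e ∧ ((∀ t : ℝ, 0 ≤ t → v + t • e ∈ PP a β) ∨
        ∃ (t θ : ℝ), 0 < t ∧ (∀ s : ℝ, v + s • e ∈ PP a β → s ≤ t) ∧ θ₀ < θ ∧
          Sh a β d c (v + t • e) θ) := by
  classical
  obtain ⟨hv, h0, h1, hlt⟩ := hv
  by_cases hc : ∀ e, Dir a (tight a β v) e → c e ≤ 0
  · exact Or.inl hc
  right
  push Not at hc
  obtain ⟨e0, he0, hce0⟩ := hc
  set F : Finset E := (dir_finite a (tight a β v)).toFinset with hF
  have memF : ∀ e, e ∈ F ↔ Dir a (tight a β v) e := fun e => by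
    rw [hF, Set.Finite.mem_toFinset]; rfl
  -- the root of the direction `e`
  have hne : (F.filter fun e => 0 < c e).Nonempty :=
    ⟨e0, mem_filter.2 ⟨(memF _).2 he0, hce0⟩⟩
  obtain ⟨e, he, hmin⟩ := exists_min_image _ (fun e => d e / (d e - c e)) hne
  obtain ⟨heF, hce⟩ := mem_filter.1 he
  have hde := (memF e).1 heF
  -- sign facts
  have hd_neg : ∀ e', Dir a (tight a β v) e' → 0 < c e' → d e' < 0 := by
    intro e' he' hce'
    have := hlt e' he'
    rw [mix_apply] at this
    by_contra hcon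
    push Not at hcon
    have t1 := mul_nonneg (sub_nonneg.2 h1.le) hcon
    have t2 := mul_nonneg h0 hce'.le
    linarith
  have root : ∀ e', Dir a (tight a β v) e' → 0 < c e' → ∀ θ : ℝ,
      mix d c θ e' = (d e' - c e') * (d e' / (d e' - c e') - θ) := by
    intro e' he' hce' θ
    have h2 : d e' - c e' ≠ 0 := by have := hd_neg e' he' hce'; linarith
    rw [mix_apply, mul_sub, mul_div_cancel₀ _ h2]
    ring
  set θs := d e / (d e - c e) with hθs
  have hdc : d e - c e < 0 := by have := hd_neg e hde hce; linarith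
  have hθ0 : θ₀ < θs := by
    have h2 := hlt e hde
    rw [root e hde hce, ← hθs] at h2
    by_contra hcon
    push Not at hcon
    have := mul_nonneg_of_nonpos_of_nonpos hdc.le (by linarith : θs - θ₀ ≤ 0)
    linarith
  have hθ1 : θs < 1 := by
    rw [hθs, div_lt_one_of_neg hdc]
    linarith
  have hmix : mix d c θs e = 0 := by rw [root e hde hce, ← hθs]; ring
  have hθs0 : 0 ≤ θs := h0.trans hθ0.le
  have hothers : ∀ e', Dir a (tight a β v) e' → e' = e ∨ mix d c θs e' < 0 := by
    intro e' he'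
    by_cases hee : e' = e
    · exact Or.inl hee
    right
    have hne0 : mix d c θs e' ≠ 0 := hg v hv e e' hde he' (Ne.symm hee) θs hθs0 hθ1 hmix
    refine lt_of_le_of_ne ?_ hne0
    by_cases hce' : 0 < c e'
    · have h2 := hmin e' (mem_filter.2 ⟨(memF _).2 he', hce'⟩)
      have h3 : d e' - c e' < 0 := by have := hd_neg e' he' hce'; linarith
      rw [root e' he' hce']
      exact mul_nonpos_of_nonpos_of_nonneg h3.le (sub_nonneg.2 h2)
    · push Not at hce'
      have h2 := hlt e' he'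
      rw [mix_apply] at h2 ⊢
      -- convex combination of the values at `θ₀` and `1`
      have h3 : (1 - θs) * d e' + θs * c e' =
          (1 - θs) / (1 - θ₀) * ((1 - θ₀) * d e' + θ₀ * c e') +
            (θs - θ₀) / (1 - θ₀) * c e' := by
        have : (1 - θ₀) ≠ 0 := by linarith
        field_simp
        ring
      rw [h3]
      have h4 : 0 ≤ (1 - θs) / (1 - θ₀) := div_nonneg (by linarith) (by linarith)
      have h5 : 0 ≤ (θs - θ₀) / (1 - θ₀) := div_nonneg (by linarith) (by linarith)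
      have := mul_nonpos_of_nonneg_of_nonpos h4 h2.le
      have := mul_nonpos_of_nonneg_of_nonpos h5 hce'
      linarith
  have hmax : ∀ x ∈ PP a β, mix d c θs x ≤ mix d c θs v := fun x hx =>
    vert_le hv (fun e' he' => by
      rcases hothers e' he' with rfl | h
      · exact hmix.le
      · exact h.le) hx
  refine ⟨e, hde, hce, ?_⟩
  rcases step_end hv hde with hu | ⟨t, ht, hvt, hmaxt⟩
  · exact Or.inl hu
  right
  set w := v + t • e with hw
  have hfw : mix d c θs w = mix d c θs v := by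
    rw [hw, map_add, map_smul, hmix]; simp
  set F' : Finset E := (dir_finite a (tight a β w)).toFinset with hF'
  have memF' : ∀ e, e ∈ F' ↔ Dir a (tight a β w) e := fun e => by
    rw [hF', Set.Finite.mem_toFinset]; rfl
  -- every direction at the new vertex
  have hdir : ∀ e', Dir a (tight a β w) e' → mix d c θs e' < 0 ∨
      (mix d c θs e' = 0 ∧ c e' - d e' < 0) := by
    intro e' he'
    have h2 : mix d c θs e' ≤ 0 := dir_le_of_max (a := a) (β := β) hvt.1
      (fun x hx => by rw [hfw]; exact hmax x hx) he'.1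
    rcases h2.lt_or_eq with h3 | h3
    · exact Or.inl h3
    right
    refine ⟨h3, ?_⟩
    obtain ⟨r, hr, hrP⟩ := small_step hvt.1 he'.1
    have h4 : mix d c θs (w + r • e' - v) = 0 := by
      rw [map_sub, map_add, map_smul, h3, hfw]; simp
    obtain ⟨s, hs, hse⟩ := cone_face hv.2 (f := mix d c θs) (e₀ := e) hothers hmix.le
      (h := w + r • e' - v) (fun i hi => tight_sub hrP hi) h4
    have h5 : v + s • e ∈ PP a β := by
      rw [← hse]
      have : v + (w + r • e' - v) = w + r • e' := by abel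
      rw [this]; exact hrP
    have h6 := hmaxt s h5
    have h7 : r • e' = (s - t) • e := by
      have : r • e' = (w + r • e' - v) - (w - v) := by abel
      rw [this, hse, hw]
      module
    have h8 : e' = ((s - t) / r) • e := by
      rw [div_eq_inv_mul, mul_smul, ← h7, smul_smul, inv_mul_cancel₀ hr.ne', one_smul]
    have h9 : s - t ≠ 0 := by
      intro h0'
      rw [h0', zero_div, zero_smul] at h8
      exact he'.ne_zero h8
    have h10 : (s - t) / r < 0 := div_neg_of_neg_of_pos (lt_of_le_of_ne (by linarith) h9) hr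
    rw [h8, map_smul, map_smul, smul_eq_mul, smul_eq_mul, ← mul_sub]
    exact mul_neg_of_neg_of_pos h10 (by linarith)
  obtain ⟨δ, hδ, hδ'⟩ := exists_small (F'.filter fun e' => mix d c θs e' < 0)
    (fun e' => -mix d c θs e') (fun e' => c e' - d e') (fun e' he' => by
      have := (mem_filter.1 he').2
      linarith)
  set η := min δ ((1 - θs) / 2) with hη
  have hη0 : 0 < η := lt_min hδ (by linarith)
  refine ⟨t, θs + η, ht, hmaxt, by linarith, hvt, by linarith, ?_, ?_⟩
  · have : η ≤ (1 - θs) / 2 := min_le_right _ _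
    linarith
  · intro e' he'
    have e1 : mix d c (θs + η) e' = mix d c θs e' + η * (c e' - d e') := by
      rw [mix_apply, mix_apply]; ring
    rw [e1]
    rcases hdir e' he' with h | ⟨h, h'⟩
    · have h2 := hδ' e' (mem_filter.2 ⟨(memF' _).2 he', h⟩)
      rcases le_or_gt (c e' - d e') 0 with h3 | h3
      · have := mul_nonpos_of_nonneg_of_nonpos hη0.le h3
        linarith
      · have : η * (c e' - d e') ≤ δ * (c e' - d e') :=
          mul_le_mul_of_nonneg_right (min_le_left _ _) h3.le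
        linarith
    · rw [h, zero_add]
      exact mul_neg_of_pos_of_neg hη0 h'

theorem exists_gen (c : E →ₗ[ℝ] ℝ) {v : E} (_hv : Vert a β v) :
    ∃ d : E →ₗ[ℝ] ℝ, Gen a β d c ∧ ∀ e, Dir a (tight a β v) e → d e < 0 := by
  classical
  set F : Finset E := (Finset.univ : Finset (Finset I)).biUnion
    (fun T => (dir_finite a T).toFinset) with hF
  have memF : ∀ T e, Dir a T e → e ∈ F := fun T e he => by
    rw [hF, mem_biUnion]
    exact ⟨T, mem_univ _, by rw [Set.Finite.mem_toFinset]; exact he⟩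
  set L : Finset E := (F ∪ (F ×ˢ F).image fun π => (c π.2) • π.1 - (c π.1) • π.2).erase 0 with hL
  obtain ⟨q, hq⟩ := Module.exists_dual_forall_apply_ne_zero (K := ℝ) (fun w : L => (w : E))
    (fun w => ne_of_mem_erase w.2)
  set d₀ : E →ₗ[ℝ] ℝ := -lin a (tight a β v) with hd₀
  set D : Finset E := (dir_finite a (tight a β v)).toFinset with hD
  have memD : ∀ e, e ∈ D ↔ Dir a (tight a β v) e := fun e => by
    rw [hD, Set.Finite.mem_toFinset]; rfl
  obtain ⟨δ, hδ, hδ'⟩ := exists_small D (fun _ => (1 : ℝ)) (fun e => |q e|) fun _ _ => one_pos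
  -- avoid the bad values
  set bad : Set ℝ := ↑(L.image fun w => -d₀ w / q w) with hbad
  have hinf : (Set.Ioo 0 δ \ bad).Nonempty := by
    have h1 : (Set.Ioo (0:ℝ) δ).Infinite := Set.Ioo_infinite hδ
    exact (h1.sdiff (Finset.finite_toSet _)).nonempty
  obtain ⟨ε, ⟨hε0, hεδ⟩, hε⟩ := hinf
  set d : E →ₗ[ℝ] ℝ := d₀ + ε • q with hd
  have hdne : ∀ w ∈ L, d w ≠ 0 := by
    intro w hw h0
    have hqw := hq ⟨w, hw⟩
    simp only at hqw
    apply hε
    rw [hbad]
    refine Finset.mem_coe.2 (mem_image.2 ⟨w, hw, ?_⟩)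
    have : d₀ w + ε * q w = 0 := h0
    rw [div_eq_iff hqw]
    linarith
  refine ⟨d, ?_, ?_⟩
  · intro u _ e e' he he' hne θ h0 h1 hz hz'
    have hd1 : d e ≠ 0 := hdne e (mem_erase.2 ⟨he.ne_zero, mem_union_left _ (memF _ _ he)⟩)
    rw [mix_apply] at hz hz'
    have hd2 : d ((c e') • e - (c e) • e') = 0 := by
      rw [map_sub, map_smul, map_smul, smul_eq_mul, smul_eq_mul]
      have h2 : (1 - θ) * (c e' * d e - c e * d e') = 0 := by
        calc (1 - θ) * (c e' * d e - c e * d e')
            = c e' * ((1 - θ) * d e + θ * c e) - c e * ((1 - θ) * d e' + θ * c e') := by ring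
          _ = 0 := by rw [hz, hz']; ring
      rcases mul_eq_zero.1 h2 with h3 | h3
      · linarith
      · exact h3
    have hw0 : (c e') • e - (c e) • e' = 0 := by
      by_contra hw0
      refine hdne _ (mem_erase.2 ⟨hw0, mem_union_right _ (mem_image.2
        ⟨(e, e'), mem_product.2 ⟨memF _ _ he, memF _ _ he'⟩, rfl⟩)⟩) hd2
    have h3 := congrArg (lin a (tight a β u)) hw0
    rw [map_sub, map_smul, map_smul, he.2.1, he'.2.1, map_zero, smul_eq_mul, smul_eq_mul, mul_one,
      mul_one] at h3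
    have h4 : c e' = c e := by linarith
    have hce : c e ≠ 0 := by
      intro h5
      rw [h5, mul_zero, add_zero] at hz
      rcases mul_eq_zero.1 hz with h6 | h6
      · linarith
      · exact hd1 h6
    rw [h4, ← smul_sub] at hw0
    rcases smul_eq_zero.1 hw0 with h5 | h5
    · exact hce h5
    · exact hne (sub_eq_zero.1 h5)
  · intro e he
    have h2 := hδ' e ((memD e).2 he)
    have h3 : d e = -1 + ε * q e := by
      rw [hd, hd₀]
      simp only [LinearMap.add_apply, LinearMap.neg_apply, LinearMap.smul_apply, smul_eq_mul]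
      rw [he.2.1]
    rw [h3]
    have h4 : ε * q e ≤ δ * |q e| :=
      (mul_le_mul_of_nonneg_left (le_abs_self _) hε0.le).trans
        (mul_le_mul_of_nonneg_right hεδ.le (abs_nonneg _))
    linarith

end Pool.Agent.K4H92.LP
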