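import Mathlib
set_option autoImplicit false

/-!
# The number of sign vectors of a list of linear functionals on a subspace
-/

namespace Pool.Agent.K4H92.LP

variable {V : Type*} [AddCommGroup V] [Module ℝ V]

/-- the sign vector of `p` -/
noncomputable def sv (L : List (V →ₗ[ℝ] ℝ)) (p : V) : List SignType :=
  L.map fun h => SignType.sign (h p)

theorem sv_convex (L : List (V →ₗ[ℝ] ℝ)) {p q : V} (h : sv L p = sv L q) {s t : ℝ} (hs : 0 ≤ s)
    (ht : 0 ≤ t) (hst : 0 < s + t) : sv L (s • p + t • q) = sv L p := by
  induction L with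
  | nil => rfl
  | cons f L ih =>
    simp only [sv, List.map_cons, List.cons.injEq] at h ih ⊢
    refine ⟨?_, ih h.2⟩
    have h1 := h.1
    simp only [map_add, map_smul, smul_eq_mul]
    rcases lt_trichotomy (f p) 0 with hp | hp | hp
    · have hq : f q < 0 := by
        rw [sign_neg hp] at h1
        exact sign_eq_neg_one_iff.1 h1.symm
      rw [sign_neg hp, sign_neg]
      rcases hs.lt_or_eq with hs' | hs'
      · have := mul_neg_of_pos_of_neg hs' hp
        have := mul_nonpos_of_nonneg_of_nonpos ht hq.le
        linarith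
      · have ht' : 0 < t := by linarith
        have := mul_neg_of_pos_of_neg ht' hq
        have := mul_nonpos_of_nonneg_of_nonpos hs hp.le
        linarith
    · have hq : f q = 0 := by
        rw [hp, sign_zero] at h1
        exact sign_eq_zero_iff.1 h1.symm
      rw [hp, hq]
      simp
    · have hq : 0 < f q := by
        rw [sign_pos hp] at h1
        exact sign_eq_one_iff.1 h1.symm
      rw [sign_pos hp, sign_pos]
      rcases hs.lt_or_eq with hs' | hs'
      · have := mul_pos hs' hp
        have := mul_nonneg ht hq.le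
        linarith
      · have ht' : 0 < t := by linarith
        have := mul_pos ht' hq
        have := mul_nonneg hs hp.le
        linarith

theorem finite_sv (L : List (V →ₗ[ℝ] ℝ)) (W : Set V) : (sv L '' W).Finite := by
  refine Set.Finite.subset (List.finite_length_eq SignType L.length) ?_
  rintro _ ⟨p, _, rfl⟩
  simp [sv]

/-- A list of `l` functionals has at most `(2 l + 1) ^ d` sign vectors on a subspace of dimension
`d`. -/
theorem card_sv [FiniteDimensional ℝ V] (L : List (V →ₗ[ℝ] ℝ)) :
    ∀ (d : ℕ) (W : Submodule ℝ V), Module.finrank ℝ W ≤ d →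
      (sv L '' (W : Set V)).ncard ≤ (2 * L.length + 1) ^ d := by
  induction L with
  | nil =>
    intro d W _
    have : sv ([] : List (V →ₗ[ℝ] ℝ)) '' (W : Set V) ⊆ {[]} := by
      rintro _ ⟨p, _, rfl⟩
      rfl
    calc _ ≤ ({[]} : Set (List SignType)).ncard := Set.ncard_le_ncard this (Set.finite_singleton _)
      _ = 1 := Set.ncard_singleton _
      _ ≤ _ := Nat.one_le_pow _ _ (by simp)
  | cons h L ih =>
    intro d W hd
    by_cases hW : W ≤ LinearMap.ker h
    · have h1 : sv (h :: L) '' (W : Set V) ⊆ (fun τ => (0 : SignType) :: τ) '' (sv L '' (W : Set V)) := by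
        rintro _ ⟨p, hp, rfl⟩
        refine ⟨_, ⟨p, hp, rfl⟩, ?_⟩
        have : h p = 0 := hW hp
        simp [sv, this]
      calc _ ≤ ((fun τ => (0 : SignType) :: τ) '' (sv L '' (W : Set V))).ncard :=
            Set.ncard_le_ncard h1 ((finite_sv L _).image _)
        _ ≤ (sv L '' (W : Set V)).ncard := Set.ncard_image_le (finite_sv L _)
        _ ≤ (2 * L.length + 1) ^ d := ih d W hd
        _ ≤ _ := Nat.pow_le_pow_left (by rw [List.length_cons]; omega) _
    · set W' : Submodule ℝ V := W ⊓ LinearMap.ker h with hW'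
      have hlt : Module.finrank ℝ W' < Module.finrank ℝ W := by
        apply Submodule.finrank_lt_finrank_of_lt
        refine lt_of_le_of_ne inf_le_left ?_
        intro he
        apply hW
        rw [← he]
        exact inf_le_right
      obtain ⟨e, rfl⟩ : ∃ e, d = e + 1 := ⟨d - 1, by omega⟩
      have i1 := ih (e + 1) W hd
      have i2 := ih e W' (by omega)
      set I : Set (List SignType) := sv L '' (W : Set V) with hI
      set I0 : Set (List SignType) := sv L '' (W' : Set V) with hI0
      set P1 : Set (List SignType) := {τ | ∃ p ∈ W, 0 < h p ∧ sv L p = τ} with hP1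
      set P2 : Set (List SignType) := {τ | ∃ p ∈ W, h p < 0 ∧ sv L p = τ} with hP2
      have hIf : I.Finite := finite_sv L _
      have hI0f : I0.Finite := finite_sv L _
      have hP1I : P1 ⊆ I := by
        rintro τ ⟨p, hp, _, rfl⟩
        exact ⟨p, hp, rfl⟩
      have hP2I : P2 ⊆ I := by
        rintro τ ⟨p, hp, _, rfl⟩
        exact ⟨p, hp, rfl⟩
      have hP1f : P1.Finite := hIf.subset hP1I
      have hP2f : P2.Finite := hIf.subset hP2I
      have hU : P1 ∪ P2 ⊆ I := Set.union_subset hP1I hP2I
      have hN : P1 ∩ P2 ⊆ I0 := by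
        rintro τ ⟨⟨p, hp, hp1, rfl⟩, ⟨q, hq, hq1, hq2⟩⟩
        refine ⟨(-(h q)) • p + (h p) • q, ?_, ?_⟩
        · refine ⟨W.add_mem (W.smul_mem _ hp) (W.smul_mem _ hq), ?_⟩
          simp only [SetLike.mem_coe, LinearMap.mem_ker, map_add, map_smul, smul_eq_mul]
          ring
        · exact sv_convex L hq2.symm (by linarith) hp1.le (by linarith)
      have hsub : sv (h :: L) '' (W : Set V) ⊆
          ((fun τ => (0 : SignType) :: τ) '' I0 ∪ (fun τ => (1 : SignType) :: τ) '' P1) ∪
            (fun τ => (-1 : SignType) :: τ) '' P2 := by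
        rintro _ ⟨p, hp, rfl⟩
        rcases lt_trichotomy (h p) 0 with hh | hh | hh
        · right
          exact ⟨sv L p, ⟨p, hp, hh, rfl⟩, by simp [sv, sign_neg hh]⟩
        · left; left
          exact ⟨sv L p, ⟨p, ⟨hp, hh⟩, rfl⟩, by simp [sv, hh]⟩
        · left; right
          exact ⟨sv L p, ⟨p, hp, hh, rfl⟩, by simp [sv, sign_pos hh]⟩
      have hsum : P1.ncard + P2.ncard ≤ I.ncard + I0.ncard := by
        rw [← Set.ncard_union_add_ncard_inter P1 P2 hP1f hP2f]
        exact Nat.add_le_add (Set.ncard_le_ncard hU hIf) (Set.ncard_le_ncard hN hI0f)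
      calc (sv (h :: L) '' (W : Set V)).ncard
          ≤ (((fun τ => (0 : SignType) :: τ) '' I0 ∪ (fun τ => (1 : SignType) :: τ) '' P1) ∪
            (fun τ => (-1 : SignType) :: τ) '' P2).ncard :=
            Set.ncard_le_ncard hsub
              (((hI0f.image _).union (hP1f.image _)).union (hP2f.image _))
        _ ≤ (I0.ncard + P1.ncard) + P2.ncard := by
            refine (Set.ncard_union_le _ _).trans (Nat.add_le_add ?_ (Set.ncard_image_le hP2f))
            exact (Set.ncard_union_le _ _).trans
              (Nat.add_le_add (Set.ncard_image_le hI0f) (Set.ncard_image_le hP1f))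
        _ ≤ I.ncard + 2 * I0.ncard := by omega
        _ ≤ (2 * L.length + 1) ^ (e + 1) + 2 * (2 * L.length + 1) ^ e := by
            have := Nat.mul_le_mul_left 2 i2
            omega
        _ = (2 * L.length + 1) ^ e * (2 * (L.length + 1) + 1) := by ring
        _ ≤ (2 * (L.length + 1) + 1) ^ e * (2 * (L.length + 1) + 1) :=
            Nat.mul_le_mul_right _ (Nat.pow_le_pow_left (by omega) _)
        _ = (2 * (h :: L).length + 1) ^ (e + 1) := by
            rw [List.length_cons, pow_succ]

end Pool.Agent.K4H92.LP
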