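import Pool.Agent.K4H92.LP.Types
set_option autoImplicit false

/-!
# The steps of the induction
-/

namespace Pool.Agent.K4H92.LP

open Finset Module

variable {m n : ℕ}

theorem exists_small {ι : Type*} (s : Finset ι) (f g : ι → ℝ) (hf : ∀ i ∈ s, 0 < f i) :
    ∃ t : ℝ, 0 < t ∧ ∀ i ∈ s, 0 < f i - t * g i := by
  classical
  induction s using Finset.induction with
  | empty => exact ⟨1, one_pos, fun i hi => absurd hi (Finset.notMem_empty i)⟩
  | insert a s ha ih =>
    obtain ⟨t, ht, h⟩ := ih fun i hi => hf i (mem_insert_of_mem hi)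
    have hfa := hf a (mem_insert_self _ _)
    refine ⟨min t (f a / (|g a| + 1) / 2), lt_min ht (by positivity), ?_⟩
    intro i hi
    have hmin0 : 0 < min t (f a / (|g a| + 1) / 2) := lt_min ht (by positivity)
    rcases mem_insert.1 hi with rfl | hi
    · have h1 : min t (f i / (|g i| + 1) / 2) ≤ f i / (|g i| + 1) / 2 := min_le_right _ _
      have h2 : min t (f i / (|g i| + 1) / 2) * g i ≤ f i / (|g i| + 1) / 2 * |g i| :=
        (mul_le_mul_of_nonneg_left (le_abs_self _) hmin0.le).trans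
          (mul_le_mul_of_nonneg_right h1 (abs_nonneg _))
      have h3 : f i / (|g i| + 1) / 2 * |g i| < f i := by
        have h4 : f i / (|g i| + 1) / 2 * |g i| ≤ f i / (|g i| + 1) / 2 * (|g i| + 1) := by
          apply mul_le_mul_of_nonneg_left _ (by positivity)
          linarith
        have h5 : f i / (|g i| + 1) / 2 * (|g i| + 1) = f i / 2 := by
          field_simp
        rw [h5] at h4
        linarith
      linarith
    · have h1 := h i hi
      have h0 := hf i (mem_insert_of_mem hi)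
      rcases le_total (g i) 0 with hg | hg
      · have := mul_nonpos_of_nonneg_of_nonpos hmin0.le hg
        linarith
      · have : min t (f a / (|g a| + 1) / 2) * g i ≤ t * g i :=
          mul_le_mul_of_nonneg_right (min_le_left _ _) hg
        linarith

theorem cone_Pr (A : Fin m → Fin n → ℝ) (R : Finset (Fin m)) (S : Finset (Fin n))
    (T : Finset (Fin m)) (U : Submodule ℝ (Fin m → ℝ)) :
    Cone {u | u ∈ U ∧ Pr A R S T u} where
  add := by
    rintro u ⟨hu, x, x1, x2, x3, x4⟩ u' ⟨hu', x', x1', x2', x3', x4'⟩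
    refine ⟨U.add_mem hu hu', x + x', fun j hj => ?_, fun j hj => ?_, fun i hi => ?_,
      fun i hi hi' => ?_⟩
    · have := x1 j hj; have := x1' j hj; simp only [Pi.add_apply]; linarith
    · simp [x2 j hj, x2' j hj]
    · simp only [Pi.add_apply, mul_add, sum_add_distrib, x3 i hi, x3' i hi]
    · have := x4 i hi hi'; have := x4' i hi hi'
      simp only [Pi.add_apply, mul_add, sum_add_distrib]; linarith
  smul := by
    rintro t ht u ⟨hu, x, x1, x2, x3, x4⟩
    have e : ∀ i, ∑ j, A i j * (t • x) j = t * ∑ j, A i j * x j := by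
      intro i
      rw [mul_sum]
      refine sum_congr rfl fun j _ => ?_
      simp only [Pi.smul_apply, smul_eq_mul]; ring
    refine ⟨U.smul_mem t hu, t • x, fun j hj => ?_, fun j hj => ?_, fun i hi => ?_,
      fun i hi hi' => ?_⟩
    · exact mul_pos ht (x1 j hj)
    · simp [x2 j hj]
    · rw [e, x3 i hi]; rfl
    · rw [e]; exact mul_lt_mul_of_pos_left (x4 i hi hi') ht
  rel := by
    rintro u ⟨hu, x, x1, x2, x3, x4⟩ u' ⟨hu', x', x1', x2', x3', x4'⟩
    obtain ⟨t1, ht1, h1⟩ := exists_small S x x' x1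
    obtain ⟨t2, ht2, h2⟩ := exists_small (R \ T) (fun i => u i - ∑ j, A i j * x j)
      (fun i => u' i - ∑ j, A i j * x' j) (fun i hi => by
        have := x4 i (mem_sdiff.1 hi).1 (mem_sdiff.1 hi).2
        linarith)
    have key : ∀ t : ℝ, 0 < t → t ≤ t1 → ∀ j ∈ S, 0 < x j - t * x' j := by
      intro t ht htt j hj
      have := h1 j hj
      have := mul_le_mul_of_nonneg_right htt (x1' j hj).le
      linarith
    have key2 : ∀ t : ℝ, 0 < t → t ≤ t2 → ∀ i ∈ R \ T,
        0 < (u i - ∑ j, A i j * x j) - t * (u' i - ∑ j, A i j * x' j) := by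
      intro t ht htt i hi
      have := h2 i hi
      have h3 := x4' i (mem_sdiff.1 hi).1 (mem_sdiff.1 hi).2
      have := mul_le_mul_of_nonneg_right htt (sub_pos.2 h3).le
      linarith
    refine ⟨min t1 t2, lt_min ht1 ht2, U.sub_mem hu (U.smul_mem _ hu'), x - (min t1 t2) • x',
      ?_, ?_, ?_, ?_⟩
    · intro j hj
      exact key _ (lt_min ht1 ht2) (min_le_left _ _) j hj
    · intro j hj
      simp [x2 j hj, x2' j hj]
    · intro i hi
      simp only [Pi.sub_apply, Pi.smul_apply, smul_eq_mul]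
      rw [← x3 i hi, ← x3' i hi, mul_sum, ← sum_sub_distrib]
      refine sum_congr rfl fun j _ => by ring
    · intro i hi hi'
      have := key2 _ (lt_min ht1 ht2) (min_le_right _ _) i (mem_sdiff.2 ⟨hi, hi'⟩)
      simp only [Pi.sub_apply, Pi.smul_apply, smul_eq_mul]
      have e : ∑ j, A i j * (x j - min t1 t2 * x' j) =
          ∑ j, A i j * x j - min t1 t2 * ∑ j, A i j * x' j := by
        rw [mul_sum, ← sum_sub_distrib]
        refine sum_congr rfl fun j _ => by ring
      rw [e]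
      linarith

theorem cone_Du (A : Fin m → Fin n → ℝ) (X : Finset (Fin n)) (S : Finset (Fin n))
    (T : Finset (Fin m)) (W : Submodule ℝ (Fin n → ℝ)) :
    Cone {p | p ∈ W ∧ Du A X S T p} where
  add := by
    rintro u ⟨hu, x, x1, x2, x3, x4⟩ u' ⟨hu', x', x1', x2', x3', x4'⟩
    refine ⟨W.add_mem hu hu', x + x', fun j hj => ?_, fun j hj => ?_, fun i hi => ?_,
      fun i hi hi' => ?_⟩
    · have := x1 j hj; have := x1' j hj; simp only [Pi.add_apply]; linarith
    · simp [x2 j hj, x2' j hj]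
    · simp only [Pi.add_apply, mul_add, sum_add_distrib, x3 i hi, x3' i hi]
    · have := x4 i hi hi'; have := x4' i hi hi'
      simp only [Pi.add_apply, mul_add, sum_add_distrib]; linarith
  smul := by
    rintro t ht u ⟨hu, x, x1, x2, x3, x4⟩
    have e : ∀ j, ∑ i, A i j * (t • x) i = t * ∑ i, A i j * x i := by
      intro i
      rw [mul_sum]
      refine sum_congr rfl fun j _ => ?_
      simp only [Pi.smul_apply, smul_eq_mul]; ring
    refine ⟨W.smul_mem t hu, t • x, fun j hj => ?_, fun j hj => ?_, fun i hi => ?_,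
      fun i hi hi' => ?_⟩
    · exact mul_pos ht (x1 j hj)
    · simp [x2 j hj]
    · rw [e, x3 i hi]; rfl
    · rw [e]; exact mul_lt_mul_of_pos_left (x4 i hi hi') ht
  rel := by
    rintro u ⟨hu, x, x1, x2, x3, x4⟩ u' ⟨hu', x', x1', x2', x3', x4'⟩
    obtain ⟨t1, ht1, h1⟩ := exists_small T x x' x1
    obtain ⟨t2, ht2, h2⟩ := exists_small (X \ S) (fun j => ∑ i, A i j * x i - u j)
      (fun j => ∑ i, A i j * x' i - u' j) (fun i hi => by
        have := x4 i (mem_sdiff.1 hi).1 (mem_sdiff.1 hi).2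
        linarith)
    have key : ∀ t : ℝ, 0 < t → t ≤ t1 → ∀ j ∈ T, 0 < x j - t * x' j := by
      intro t ht htt j hj
      have := h1 j hj
      have := mul_le_mul_of_nonneg_right htt (x1' j hj).le
      linarith
    have key2 : ∀ t : ℝ, 0 < t → t ≤ t2 → ∀ j ∈ X \ S,
        0 < (∑ i, A i j * x i - u j) - t * (∑ i, A i j * x' i - u' j) := by
      intro t ht htt i hi
      have := h2 i hi
      have h3 := x4' i (mem_sdiff.1 hi).1 (mem_sdiff.1 hi).2
      have := mul_le_mul_of_nonneg_right htt (sub_pos.2 h3).le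
      linarith
    refine ⟨min t1 t2, lt_min ht1 ht2, W.sub_mem hu (W.smul_mem _ hu'), x - (min t1 t2) • x',
      ?_, ?_, ?_, ?_⟩
    · intro j hj
      exact key _ (lt_min ht1 ht2) (min_le_left _ _) j hj
    · intro j hj
      simp [x2 j hj, x2' j hj]
    · intro i hi
      simp only [Pi.sub_apply, Pi.smul_apply, smul_eq_mul]
      rw [← x3 i hi, ← x3' i hi, mul_sum, ← sum_sub_distrib]
      refine sum_congr rfl fun j _ => by ring
    · intro i hi hi'
      have := key2 _ (lt_min ht1 ht2) (min_le_right _ _) i (mem_sdiff.2 ⟨hi, hi'⟩)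
      simp only [Pi.sub_apply, Pi.smul_apply, smul_eq_mul]
      have e : ∑ j, A j i * (x j - min t1 t2 * x' j) =
          ∑ j, A j i * x j - min t1 t2 * ∑ j, A j i * x' j := by
        rw [mul_sum, ← sum_sub_distrib]
        refine sum_congr rfl fun j _ => by ring
      rw [e]
      linarith

/-- the optimal partitions for the objectives in `W` and the right-hand sides in `U` -/
def types (A : Fin m → Fin n → ℝ) (R : Finset (Fin m)) (X : Finset (Fin n))
    (W : Submodule ℝ (Fin n → ℝ)) (U : Submodule ℝ (Fin m → ℝ)) :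
    Set (Finset (Fin n) × Finset (Fin m)) :=
  {τ | ∃ p ∈ W, ∃ u ∈ U, IsType A R X p u τ}

/-- at most `N` optimal partitions if the parameters have dimension at most `κ` -/
def Cnt (A : Fin m → Fin n → ℝ) (R : Finset (Fin m)) (X : Finset (Fin n)) (N κ : ℕ) : Prop :=
  ∀ (W : Submodule ℝ (Fin n → ℝ)) (U : Submodule ℝ (Fin m → ℝ)),
    finrank ℝ W + finrank ℝ U ≤ κ → (types A R X W U).ncard ≤ N

/-- the signs of `M` functionals determine the optimal partition if the parameters have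
dimension at most `κ` -/
def Sep (A : Fin m → Fin n → ℝ) (R : Finset (Fin m)) (X : Finset (Fin n)) (M κ : ℕ) : Prop :=
  ∀ (W : Submodule ℝ (Fin n → ℝ)) (U : Submodule ℝ (Fin m → ℝ)),
    finrank ℝ W + finrank ℝ U ≤ κ →
    ∃ (H : List ((Fin n → ℝ) →ₗ[ℝ] ℝ)) (G : List ((Fin m → ℝ) →ₗ[ℝ] ℝ)),
      H.length + G.length ≤ M ∧ ∀ p ∈ W, ∀ p' ∈ W, ∀ u ∈ U, ∀ u' ∈ U, ∀ τ τ',
        IsType A R X p u τ → IsType A R X p' u' τ' → sv H p = sv H p' → sv G u = sv G u' → τ = τ'

variable {A : Fin m → Fin n → ℝ} {R : Finset (Fin m)} {X : Finset (Fin n)} {M N κ : ℕ}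

theorem Sep.mono {M' : ℕ} (h : Sep A R X M κ) (hM : M ≤ M') : Sep A R X M' κ := by
  intro W U hd
  obtain ⟨H, G, h1, h2⟩ := h W U hd
  exact ⟨H, G, h1.trans hM, h2⟩

theorem Sep.cnt (h : Sep A R X M κ) : Cnt A R X ((2 * M + 1) ^ κ) κ := by
  classical
  intro W U hd
  obtain ⟨H, G, h1, h2⟩ := h W U hd
  have hw : ∀ τ : types A R X W U, ∃ q : (Fin n → ℝ) × (Fin m → ℝ), q.1 ∈ W ∧ q.2 ∈ U ∧
      IsType A R X q.1 q.2 τ := by
    rintro ⟨τ, p, hp, u, hu, h⟩
    exact ⟨(p, u), hp, hu, h⟩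
  choose q hq1 hq2 hq3 using hw
  set F : Set (List SignType × List SignType) := (sv H '' (W : Set (Fin n → ℝ))) ×ˢ
    (sv G '' (U : Set (Fin m → ℝ))) with hF
  have hFf : F.Finite := (finite_sv H _).prod (finite_sv G _)
  let f : types A R X W U → F := fun τ => ⟨(sv H (q τ).1, sv G (q τ).2),
    ⟨⟨(q τ).1, hq1 τ, rfl⟩, ⟨(q τ).2, hq2 τ, rfl⟩⟩⟩
  have hf : Function.Injective f := by
    intro τ τ' he
    have he' := congrArg Subtype.val he
    simp only [f, Prod.mk.injEq] at he'
    exact Subtype.ext (h2 _ (hq1 τ) _ (hq1 τ') _ (hq2 τ) _ (hq2 τ') _ _ (hq3 τ) (hq3 τ')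
      he'.1 he'.2)
  have : Finite F := hFf
  have hc : (types A R X W U).ncard ≤ F.ncard := by
    rw [← Nat.card_coe_set_eq, ← Nat.card_coe_set_eq]
    exact Nat.card_le_card_of_injective f hf
  refine hc.trans ?_
  rw [hF, Set.ncard_prod]
  have c1 := card_sv H (finrank ℝ W) W le_rfl
  have c2 := card_sv G (finrank ℝ U) U le_rfl
  calc _ ≤ (2 * H.length + 1) ^ finrank ℝ W * (2 * G.length + 1) ^ finrank ℝ U :=
        Nat.mul_le_mul c1 c2
    _ ≤ (2 * M + 1) ^ finrank ℝ W * (2 * M + 1) ^ finrank ℝ U :=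
        Nat.mul_le_mul (Nat.pow_le_pow_left (by omega) _) (Nat.pow_le_pow_left (by omega) _)
    _ = (2 * M + 1) ^ (finrank ℝ W + finrank ℝ U) := (pow_add _ _ _).symm
    _ ≤ (2 * M + 1) ^ κ := Nat.pow_le_pow_right (by omega) hd

theorem Cnt.sep (h : Cnt A R X N κ) : Sep A R X (2 * N ^ 2) κ := by
  classical
  intro W U hd
  have hN := h W U hd
  have hex : ∀ π : (Finset (Fin n) × Finset (Fin m)) × (Finset (Fin n) × Finset (Fin m)),
      ∃ q : ((Fin n → ℝ) →ₗ[ℝ] ℝ) × ((Fin m → ℝ) →ₗ[ℝ] ℝ),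
        (∀ p ∈ W, ∀ p' ∈ W, ∀ u ∈ U, ∀ u' ∈ U, IsType A R X p u π.1 → IsType A R X p' u' π.2 →
          SignType.sign (q.1 p) = SignType.sign (q.1 p') →
          SignType.sign (q.2 u) = SignType.sign (q.2 u') → π.1 = π.2) := by
    rintro ⟨τ, τ'⟩
    by_cases hp : Disjoint {p | p ∈ W ∧ Du A X τ.1 τ.2 p} {p | p ∈ W ∧ Du A X τ'.1 τ'.2 p}
    · obtain ⟨g, hg⟩ := separate (cone_Du A X τ.1 τ.2 W) (cone_Du A X τ'.1 τ'.2 W) hp
      refine ⟨(g, 0), fun p hp p' hp' u hu u' hu' h1 h2 h3 _ => ?_⟩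
      exact absurd h3 (hg p ⟨hp, h1.2.2.2⟩ p' ⟨hp', h2.2.2.2⟩)
    · by_cases hu : Disjoint {u | u ∈ U ∧ Pr A R τ.1 τ.2 u} {u | u ∈ U ∧ Pr A R τ'.1 τ'.2 u}
      · obtain ⟨g, hg⟩ := separate (cone_Pr A R τ.1 τ.2 U) (cone_Pr A R τ'.1 τ'.2 U) hu
        refine ⟨(0, g), fun p hp p' hp' u hu u' hu' h1 h2 _ h3 => ?_⟩
        exact absurd h3 (hg u ⟨hu, h1.2.2.1⟩ u' ⟨hu', h2.2.2.1⟩)
      · obtain ⟨p0, ⟨_, hp1⟩, ⟨_, hp2⟩⟩ := Set.not_disjoint_iff.1 hp
        obtain ⟨u0, ⟨_, hu1⟩, ⟨_, hu2⟩⟩ := Set.not_disjoint_iff.1 hu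
        refine ⟨(0, 0), fun p _ p' _ u _ u' _ h1 h2 _ _ => ?_⟩
        exact IsType.unique (A := A) (R := R) (X := X) (p := p0) (u := u0)
          ⟨h1.1, h1.2.1, hu1, hp1⟩ ⟨h2.1, h2.2.1, hu2, hp2⟩
  choose q hq using hex
  set F : Finset (Finset (Fin n) × Finset (Fin m)) := (Set.toFinite (types A R X W U)).toFinset
    with hF
  have hFc : F.card ≤ N := by
    rw [hF, ← Set.ncard_eq_toFinset_card]; exact hN
  set L := (F ×ˢ F).toList with hL
  have hLl : L.length ≤ N ^ 2 := by
    rw [hL, length_toList, card_product, pow_two]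
    exact Nat.mul_le_mul hFc hFc
  refine ⟨L.map fun π => (q π).1, L.map fun π => (q π).2, ?_, ?_⟩
  · simp only [List.length_map]; omega
  · intro p hp p' hp' u hu u' hu' τ τ' h1 h2 h3 h4
    have hmem : (τ, τ') ∈ L := by
      rw [hL, mem_toList, mem_product, hF]
      simp only [Set.Finite.mem_toFinset]
      exact ⟨⟨p, hp, u, hu, h1⟩, ⟨p', hp', u', hu', h2⟩⟩
    refine hq (τ, τ') p hp p' hp' u hu u' hu' h1 h2 ?_ ?_
    · simp only [sv, List.map_map] at h3
      have := List.map_inj_left.1 h3 (τ, τ') hmem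
      exact this
    · simp only [sv, List.map_map] at h4
      have := List.map_inj_left.1 h4 (τ, τ') hmem
      exact this

theorem finrank_sup_span {V : Type*} [AddCommGroup V] [Module ℝ V] [FiniteDimensional ℝ V]
    (U : Submodule ℝ V) (a : V) :
    finrank ℝ (U ⊔ Submodule.span ℝ {a} : Submodule ℝ V) ≤ finrank ℝ U + 1 := by
  have h1 := Submodule.finrank_add_le_finrank_add_finrank U (Submodule.span ℝ {a})
  have h2 : finrank ℝ (Submodule.span ℝ {a}) ≤ 1 := by
    refine (finrank_span_le_card ({a} : Set V)).trans ?_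
    simp
  omega

theorem Cnt.col (h : Cnt A R X N (κ + 1)) {j₀ : Fin n} (hj₀ : j₀ ∉ X) :
    Cnt A R (insert j₀ X) (2 * N) κ := by
  classical
  intro W U hd
  set a : Fin m → ℝ := fun i => A i j₀ with ha
  have h1 := h W (U ⊔ Submodule.span ℝ {a}) (by have := finrank_sup_span U a; omega)
  have hsub : types A R (insert j₀ X) W U ⊆ types A R X W (U ⊔ Submodule.span ℝ {a}) ∪
      (fun τ => (insert j₀ τ.1, τ.2)) '' types A R X W (U ⊔ Submodule.span ℝ {a}) := by
    rintro ⟨S, T⟩ ⟨p, hp, u, hu, hS, hT, ⟨x, x1, x2, x3, x4⟩, ⟨y, y1, y2, y3, y4⟩⟩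
    simp only at hS hT x1 x2 x3 x4 y1 y2 y3 y4
    by_cases hj : j₀ ∈ S
    swap
    · left
      refine ⟨p, hp, u, Submodule.mem_sup_left hu, ?_, hT, ⟨x, x1, x2, x3, x4⟩,
        ⟨y, y1, y2, y3, fun j hj' hj'' => y4 j (mem_insert_of_mem hj') hj''⟩⟩
      intro j hjS
      rcases mem_insert.1 (hS hjS) with rfl | h
      · exact absurd hjS hj
      · exact h
    · right
      refine ⟨(S.erase j₀, T), ⟨p, hp, u - x j₀ • a, ?_, ?_, hT, ?_, ?_⟩, ?_⟩
      · refine Submodule.sub_mem _ (Submodule.mem_sup_left hu) (Submodule.smul_mem _ _ ?_)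
        exact Submodule.mem_sup_right (Submodule.mem_span_singleton_self a)
      · intro j hj'
        rcases mem_insert.1 (hS (mem_of_mem_erase hj')) with rfl | h
        · exact absurd rfl (ne_of_mem_erase hj')
        · exact h
      · have e : ∀ i, ∑ j, A i j * (Function.update x j₀ 0) j = ∑ j, A i j * x j - x j₀ * a i := by
          intro i
          rw [← add_sum_erase _ _ (mem_univ j₀),
            ← add_sum_erase (univ : Finset (Fin n)) (fun j => A i j * x j) (mem_univ j₀)]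
          have : ∑ j ∈ univ.erase j₀, A i j * (Function.update x j₀ 0) j =
              ∑ j ∈ univ.erase j₀, A i j * x j := by
            refine sum_congr rfl fun j hj' => ?_
            rw [Function.update_of_ne (ne_of_mem_erase hj')]
          rw [this, Function.update_self, ha]
          ring
        refine ⟨Function.update x j₀ 0, ?_, ?_, ?_, ?_⟩
        · intro j hj'
          rw [Function.update_of_ne (ne_of_mem_erase hj')]
          exact x1 j (mem_of_mem_erase hj')
        · intro j hj'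
          by_cases hjj : j = j₀
          · rw [hjj, Function.update_self]
          · rw [Function.update_of_ne hjj]
            exact x2 j fun h => hj' (mem_erase.2 ⟨hjj, h⟩)
        · intro i hi
          rw [e, x3 i hi]; rfl
        · intro i hi hi'
          rw [e]
          have := x4 i hi hi'
          simp only [Pi.sub_apply, Pi.smul_apply, smul_eq_mul]
          linarith
      · refine ⟨y, y1, y2, fun j hj' => y3 j (mem_of_mem_erase hj'), fun j hjX hj' => ?_⟩
        have hjj : j ≠ j₀ := fun h => hj₀ (h ▸ hjX)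
        exact y4 j (mem_insert_of_mem hjX) fun h => hj' (mem_erase.2 ⟨hjj, h⟩)
      · simp only [insert_erase hj]
  have hf := Set.toFinite (types A R X W (U ⊔ Submodule.span ℝ {a}))
  calc (types A R (insert j₀ X) W U).ncard ≤ _ := Set.ncard_le_ncard hsub (hf.union (hf.image _))
    _ ≤ _ := Set.ncard_union_le _ _
    _ ≤ N + N := Nat.add_le_add h1 ((Set.ncard_image_le hf).trans h1)
    _ = 2 * N := by ring

theorem Cnt.row (h : Cnt A R X N (κ + 1)) {i₀ : Fin m} (hi₀ : i₀ ∉ R) :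
    Cnt A (insert i₀ R) X (2 * N) κ := by
  classical
  intro W U hd
  set a : Fin n → ℝ := fun j => A i₀ j with ha
  have h1 := h (W ⊔ Submodule.span ℝ {a}) U (by have := finrank_sup_span W a; omega)
  have hsub : types A (insert i₀ R) X W U ⊆ types A R X (W ⊔ Submodule.span ℝ {a}) U ∪
      (fun τ => (τ.1, insert i₀ τ.2)) '' types A R X (W ⊔ Submodule.span ℝ {a}) U := by
    rintro ⟨S, T⟩ ⟨p, hp, u, hu, hS, hT, ⟨x, x1, x2, x3, x4⟩, ⟨y, y1, y2, y3, y4⟩⟩
    simp only at hS hT x1 x2 x3 x4 y1 y2 y3 y4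
    by_cases hi : i₀ ∈ T
    swap
    · left
      refine ⟨p, Submodule.mem_sup_left hp, u, hu, hS, ?_,
        ⟨x, x1, x2, x3, fun i hi' hi'' => x4 i (mem_insert_of_mem hi') hi''⟩, ⟨y, y1, y2, y3, y4⟩⟩
      intro i hiT
      rcases mem_insert.1 (hT hiT) with rfl | h
      · exact absurd hiT hi
      · exact h
    · right
      refine ⟨(S, T.erase i₀), ⟨p - y i₀ • a, ?_, u, hu, hS, ?_, ?_, ?_⟩, ?_⟩
      · refine Submodule.sub_mem _ (Submodule.mem_sup_left hp) (Submodule.smul_mem _ _ ?_)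
        exact Submodule.mem_sup_right (Submodule.mem_span_singleton_self a)
      · intro i hi'
        rcases mem_insert.1 (hT (mem_of_mem_erase hi')) with rfl | h
        · exact absurd rfl (ne_of_mem_erase hi')
        · exact h
      · refine ⟨x, x1, x2, fun i hi' => x3 i (mem_of_mem_erase hi'), fun i hiR hi' => ?_⟩
        have hii : i ≠ i₀ := fun h => hi₀ (h ▸ hiR)
        exact x4 i (mem_insert_of_mem hiR) fun h => hi' (mem_erase.2 ⟨hii, h⟩)
      · have e : ∀ j, ∑ i, A i j * (Function.update y i₀ 0) i = ∑ i, A i j * y i - y i₀ * a j := by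
          intro j
          rw [← add_sum_erase _ _ (mem_univ i₀),
            ← add_sum_erase (univ : Finset (Fin m)) (fun i => A i j * y i) (mem_univ i₀)]
          have : ∑ i ∈ univ.erase i₀, A i j * (Function.update y i₀ 0) i =
              ∑ i ∈ univ.erase i₀, A i j * y i := by
            refine sum_congr rfl fun j hj' => ?_
            rw [Function.update_of_ne (ne_of_mem_erase hj')]
          rw [this, Function.update_self, ha]
          ring
        refine ⟨Function.update y i₀ 0, ?_, ?_, ?_, ?_⟩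
        · intro i hi'
          rw [Function.update_of_ne (ne_of_mem_erase hi')]
          exact y1 i (mem_of_mem_erase hi')
        · intro i hi'
          by_cases hii : i = i₀
          · rw [hii, Function.update_self]
          · rw [Function.update_of_ne hii]
            exact y2 i fun h => hi' (mem_erase.2 ⟨hii, h⟩)
        · intro j hj
          rw [e, y3 j hj]; rfl
        · intro j hj hj'
          rw [e]
          have := y4 j hj hj'
          simp only [Pi.sub_apply, Pi.smul_apply, smul_eq_mul]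
          linarith
      · simp only [insert_erase hi]
  have hf := Set.toFinite (types A R X (W ⊔ Submodule.span ℝ {a}) U)
  calc (types A (insert i₀ R) X W U).ncard ≤ _ := Set.ncard_le_ncard hsub (hf.union (hf.image _))
    _ ≤ _ := Set.ncard_union_le _ _
    _ ≤ N + N := Nat.add_le_add h1 ((Set.ncard_image_le hf).trans h1)
    _ = 2 * N := by ring

theorem Sep.nil (hA : ∀ i ∈ R, ∀ j ∈ X, A i j = 0) : Sep A R X (X.card + R.card) κ := by
  intro W U _
  refine ⟨X.toList.map fun j => LinearMap.proj j, R.toList.map fun i => LinearMap.proj i, ?_, ?_⟩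
  · simp
  · intro p _ p' _ u _ u' _ τ τ' h h' hp hu
    simp only [sv, List.map_map] at hp hu
    have hp' : ∀ j ∈ X, SignType.sign (p j) = SignType.sign (p' j) := fun j hj =>
      List.map_inj_left.1 hp j (mem_toList.2 hj)
    have hu' : ∀ i ∈ R, SignType.sign (u i) = SignType.sign (u' i) := fun i hi =>
      List.map_inj_left.1 hu i (mem_toList.2 hi)
    have key : ∀ (p : Fin n → ℝ) (u : Fin m → ℝ) (τ : Finset (Fin n) × Finset (Fin m)),
        IsType A R X p u τ → (∀ i ∈ R, i ∈ τ.2 ↔ SignType.sign (u i) = 0) ∧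
          ∀ j ∈ X, j ∈ τ.1 ↔ SignType.sign (p j) = 0 := by
      rintro p u ⟨S, T⟩ ⟨hS, hT, ⟨x, x1, x2, x3, x4⟩, ⟨y, y1, y2, y3, y4⟩⟩
      simp only at hS hT x1 x2 x3 x4 y1 y2 y3 y4
      constructor
      · intro i hi
        have e : ∑ j, A i j * x j = 0 := by
          refine sum_eq_zero fun j _ => ?_
          by_cases hj : j ∈ S
          · rw [hA i hi j (hS hj)]; ring
          · rw [x2 j hj]; ring
        constructor
        · intro hiT
          rw [← x3 i hiT, e, sign_zero]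
        · intro h0
          by_contra hiT
          have := x4 i hi hiT
          rw [e] at this
          rw [sign_eq_zero_iff] at h0
          linarith
      · intro j hj
        have e : ∑ i, A i j * y i = 0 := by
          refine sum_eq_zero fun i _ => ?_
          by_cases hi : i ∈ T
          · rw [hA i (hT hi) j hj]; ring
          · rw [y2 i hi]; ring
        constructor
        · intro hjS
          rw [← y3 j hjS, e, sign_zero]
        · intro h0
          by_contra hjS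
          have := y4 j hj hjS
          rw [e] at this
          rw [sign_eq_zero_iff] at h0
          linarith
    obtain ⟨k1, k2⟩ := key p u τ h
    obtain ⟨k1', k2'⟩ := key p' u' τ' h'
    refine Prod.ext (Finset.ext fun j => ?_) (Finset.ext fun i => ?_)
    · by_cases hj : j ∈ X
      · rw [k2 j hj, k2' j hj, hp' j hj]
      · exact ⟨fun h1 => absurd (h.1 h1) hj, fun h1 => absurd (h'.1 h1) hj⟩
    · by_cases hi : i ∈ R
      · rw [k1 i hi, k1' i hi, hu' i hi]
      · exact ⟨fun h1 => absurd (h.2.1 h1) hi, fun h1 => absurd (h'.2.1 h1) hi⟩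

theorem IsType.restrict {R₁ R₂ : Finset (Fin m)} {X₁ X₂ : Finset (Fin n)}
    (h₁ : ∀ i ∈ R₁, ∀ j ∈ X₂, A i j = 0)
    (h₂ : ∀ i ∈ R₂, ∀ j ∈ X₁, A i j = 0) {p : Fin n → ℝ} {u : Fin m → ℝ}
    {τ : Finset (Fin n) × Finset (Fin m)} (h : IsType A (R₁ ∪ R₂) (X₁ ∪ X₂) p u τ) :
    IsType A R₁ X₁ p u (τ.1 ∩ X₁, τ.2 ∩ R₁) := by
  classical
  obtain ⟨hS, hT, ⟨x, x1, x2, x3, x4⟩, ⟨y, y1, y2, y3, y4⟩⟩ := h
  refine ⟨inter_subset_right, inter_subset_right,
    ⟨fun j => if j ∈ X₁ then x j else 0, ?_, ?_, ?_, ?_⟩,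
    ⟨fun i => if i ∈ R₁ then y i else 0, ?_, ?_, ?_, ?_⟩⟩
  · intro j hj
    simp only [(mem_inter.1 hj).2, if_true]
    exact x1 j (mem_inter.1 hj).1
  · intro j hj
    by_cases hj' : j ∈ X₁
    · simp only [hj', if_true]
      exact x2 j fun h => hj (mem_inter.2 ⟨h, hj'⟩)
    · simp [hj']
  · intro i hi
    rw [← x3 i (mem_inter.1 hi).1]
    refine sum_congr rfl fun j _ => ?_
    by_cases hj' : j ∈ X₁
    · simp [hj']
    · simp only [hj', if_false]
      by_cases hj2 : j ∈ X₂
      · rw [h₁ i (mem_inter.1 hi).2 j hj2]; ring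
      · rw [x2 j fun h => (mem_union.1 (hS h)).elim hj' hj2]
  · intro i hi hi'
    have e : ∑ j, A i j * (if j ∈ X₁ then x j else 0) = ∑ j, A i j * x j := by
      refine sum_congr rfl fun j _ => ?_
      by_cases hj' : j ∈ X₁
      · simp [hj']
      · simp only [hj', if_false]
        by_cases hj2 : j ∈ X₂
        · rw [h₁ i hi j hj2]; ring
        · rw [x2 j fun h => (mem_union.1 (hS h)).elim hj' hj2]
    rw [e]
    exact x4 i (mem_union_left _ hi) fun h => hi' (mem_inter.2 ⟨h, hi⟩)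
  · intro i hi
    simp only [(mem_inter.1 hi).2, if_true]
    exact y1 i (mem_inter.1 hi).1
  · intro i hi
    by_cases hi' : i ∈ R₁
    · simp only [hi', if_true]
      exact y2 i fun h => hi (mem_inter.2 ⟨h, hi'⟩)
    · simp [hi']
  · intro j hj
    rw [← y3 j (mem_inter.1 hj).1]
    refine sum_congr rfl fun i _ => ?_
    by_cases hi' : i ∈ R₁
    · simp [hi']
    · simp only [hi', if_false]
      by_cases hi2 : i ∈ R₂
      · rw [h₂ i hi2 j (mem_inter.1 hj).2]; ring
      · rw [y2 i fun h => (mem_union.1 (hT h)).elim hi' hi2]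
  · intro j hj hj'
    have e : ∑ i, A i j * (if i ∈ R₁ then y i else 0) = ∑ i, A i j * y i := by
      refine sum_congr rfl fun i _ => ?_
      by_cases hi' : i ∈ R₁
      · simp [hi']
      · simp only [hi', if_false]
        by_cases hi2 : i ∈ R₂
        · rw [h₂ i hi2 j hj]; ring
        · rw [y2 i fun h => (mem_union.1 (hT h)).elim hi' hi2]
    rw [e]
    exact y4 j (mem_union_left _ hj) fun h => hj' (mem_inter.2 ⟨h, hj⟩)

theorem Sep.union {R₁ R₂ : Finset (Fin m)} {X₁ X₂ : Finset (Fin n)} {M₁ M₂ : ℕ}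
    (h₁ : ∀ i ∈ R₁, ∀ j ∈ X₂, A i j = 0)
    (h₂ : ∀ i ∈ R₂, ∀ j ∈ X₁, A i j = 0) (s₁ : Sep A R₁ X₁ M₁ κ) (s₂ : Sep A R₂ X₂ M₂ κ) :
    Sep A (R₁ ∪ R₂) (X₁ ∪ X₂) (M₁ + M₂) κ := by
  classical
  intro W U hd
  obtain ⟨H₁, G₁, a1, b1⟩ := s₁ W U hd
  obtain ⟨H₂, G₂, a2, b2⟩ := s₂ W U hd
  refine ⟨H₁ ++ H₂, G₁ ++ G₂, by simp only [List.length_append]; omega, ?_⟩
  intro p hp p' hp' u hu u' hu' τ τ' h h' hs hs'
  have split : ∀ {V : Type} [AddCommGroup V] [Module ℝ V] (L L' : List (V →ₗ[ℝ] ℝ)) (q q' : V),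
      sv (L ++ L') q = sv (L ++ L') q' → sv L q = sv L q' ∧ sv L' q = sv L' q' := by
    intro V _ _ L L' q q' he
    simp only [sv, List.map_append] at he
    exact List.append_inj he (by simp [sv])
  obtain ⟨e1, e2⟩ := split _ _ _ _ hs
  obtain ⟨e3, e4⟩ := split _ _ _ _ hs'
  have c1 := b1 p hp p' hp' u hu u' hu' _ _ (h.restrict h₁ h₂) (h'.restrict h₁ h₂) e1 e3
  rw [union_comm R₁ R₂, union_comm X₁ X₂] at h h'
  have c2 := b2 p hp p' hp' u hu u' hu' _ _ (h.restrict h₂ h₁)
    (h'.restrict h₂ h₁) e2 e4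
  simp only [Prod.mk.injEq] at c1 c2
  have u1 : ∀ {α : Type} [DecidableEq α] (S Y₁ Y₂ : Finset α), S ⊆ Y₂ ∪ Y₁ →
      S = (S ∩ Y₁) ∪ (S ∩ Y₂) := by
    intro α _ S Y₁ Y₂ hS
    rw [← inter_union_distrib_left, union_comm, inter_eq_left.2 hS]
  refine Prod.ext ?_ ?_
  · rw [u1 τ.1 X₁ X₂ h.1, u1 τ'.1 X₁ X₂ h'.1, c1.1, c2.1]
  · rw [u1 τ.2 R₁ R₂ h.2.1, u1 τ'.2 R₁ R₂ h'.2.1, c1.2, c2.2]

end Pool.Agent.K4H92.LP
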