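import Pool.Agent.K4H92.LP.Signs
import Pool.Agent.K4H92.LP.Separate
set_option autoImplicit false

/-!
# Optimal partitions of parametric linear programs

`max p x`, `A x ≤ u`, `x ≥ 0` for the submatrix with the rows `R` and the columns `X`.
-/

namespace Pool.Agent.K4H92.LP

open Finset

variable {m n : ℕ}

/-- primal part of an optimal partition -/
def Pr (A : Fin m → Fin n → ℝ) (R : Finset (Fin m)) (S : Finset (Fin n)) (T : Finset (Fin m))
    (u : Fin m → ℝ) : Prop :=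
  ∃ x : Fin n → ℝ, (∀ j ∈ S, 0 < x j) ∧ (∀ j, j ∉ S → x j = 0) ∧
    (∀ i ∈ T, ∑ j, A i j * x j = u i) ∧ ∀ i ∈ R, i ∉ T → ∑ j, A i j * x j < u i

/-- dual part of an optimal partition -/
def Du (A : Fin m → Fin n → ℝ) (X : Finset (Fin n)) (S : Finset (Fin n)) (T : Finset (Fin m))
    (p : Fin n → ℝ) : Prop :=
  ∃ y : Fin m → ℝ, (∀ i ∈ T, 0 < y i) ∧ (∀ i, i ∉ T → y i = 0) ∧
    (∀ j ∈ S, ∑ i, A i j * y i = p j) ∧ ∀ j ∈ X, j ∉ S → p j < ∑ i, A i j * y i

/-- `τ = (S, T)` is the optimal partition at `(p, u)` -/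
def IsType (A : Fin m → Fin n → ℝ) (R : Finset (Fin m)) (X : Finset (Fin n))
    (p : Fin n → ℝ) (u : Fin m → ℝ) (τ : Finset (Fin n) × Finset (Fin m)) : Prop :=
  τ.1 ⊆ X ∧ τ.2 ⊆ R ∧ Pr A R τ.1 τ.2 u ∧ Du A X τ.1 τ.2 p

theorem IsType.le {A : Fin m → Fin n → ℝ} {R : Finset (Fin m)} {X : Finset (Fin n)}
    {p : Fin n → ℝ} {u : Fin m → ℝ} {τ σ : Finset (Fin n) × Finset (Fin m)}
    (h : IsType A R X p u τ) (h' : IsType A R X p u σ) : σ.1 ⊆ τ.1 ∧ τ.2 ⊆ σ.2 := by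
  obtain ⟨hSX, hTR, ⟨x, x1, x2, x3, x4⟩, ⟨y, y1, y2, y3, y4⟩⟩ := h
  obtain ⟨hSX', hTR', ⟨x', x1', x2', x3', x4'⟩, ⟨y', y1', y2', y3', y4'⟩⟩ := h'
  -- nonnegative gaps
  have dbl : ∀ (x : Fin n → ℝ) (y : Fin m → ℝ),
      ∑ i, y i * ∑ j, A i j * x j = ∑ j, x j * ∑ i, A i j * y i := by
    intro x y
    simp only [mul_sum]
    rw [sum_comm]
    refine sum_congr rfl fun j _ => sum_congr rfl fun i _ => by ring
  have e1 : ∑ i, y i * ∑ j, A i j * x j = ∑ i, y i * u i := by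
    refine sum_congr rfl fun i _ => ?_
    by_cases hi : i ∈ τ.2
    · rw [x3 i hi]
    · rw [y2 i hi]; ring
  have e2 : ∑ j, x j * ∑ i, A i j * y i = ∑ j, x j * p j := by
    refine sum_congr rfl fun j _ => ?_
    by_cases hj : j ∈ τ.1
    · rw [y3 j hj]
    · rw [x2 j hj]; ring
  have e1' : ∑ i, y' i * ∑ j, A i j * x' j = ∑ i, y' i * u i := by
    refine sum_congr rfl fun i _ => ?_
    by_cases hi : i ∈ σ.2
    · rw [x3' i hi]
    · rw [y2' i hi]; ring
  have e2' : ∑ j, x' j * ∑ i, A i j * y' i = ∑ j, x' j * p j := by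
    refine sum_congr rfl fun j _ => ?_
    by_cases hj : j ∈ σ.1
    · rw [y3' j hj]
    · rw [x2' j hj]; ring
  -- cross terms
  have g1 : ∀ i, 0 ≤ y i * (u i - ∑ j, A i j * x' j) := by
    intro i
    by_cases hi : i ∈ τ.2
    · refine mul_nonneg (y1 i hi).le ?_
      by_cases hi' : i ∈ σ.2
      · rw [x3' i hi']; simp
      · linarith [x4' i (hTR hi) hi']
    · rw [y2 i hi]; simp
  have g2 : ∀ j, 0 ≤ x' j * (∑ i, A i j * y i - p j) := by
    intro j
    by_cases hj : j ∈ σ.1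
    · refine mul_nonneg (x1' j hj).le ?_
      by_cases hj' : j ∈ τ.1
      · rw [y3 j hj']; simp
      · linarith [y4 j (hSX' hj) hj']
    · rw [x2' j hj]; simp
  have g1' : ∀ i, 0 ≤ y' i * (u i - ∑ j, A i j * x j) := by
    intro i
    by_cases hi : i ∈ σ.2
    · refine mul_nonneg (y1' i hi).le ?_
      by_cases hi' : i ∈ τ.2
      · rw [x3 i hi']; simp
      · linarith [x4 i (hTR' hi) hi']
    · rw [y2' i hi]; simp
  have g2' : ∀ j, 0 ≤ x j * (∑ i, A i j * y' i - p j) := by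
    intro j
    by_cases hj : j ∈ τ.1
    · refine mul_nonneg (x1 j hj).le ?_
      by_cases hj' : j ∈ σ.1
      · rw [y3' j hj']; simp
      · linarith [y4' j (hSX hj) hj']
    · rw [x2 j hj]; simp
  have s1 : ∑ i, y i * (u i - ∑ j, A i j * x' j) + ∑ j, x' j * (∑ i, A i j * y i - p j) =
      ∑ i, y i * u i - ∑ j, x' j * p j := by
    simp only [mul_sub, sum_sub_distrib]
    rw [← dbl x' y]
    ring
  have s2 : ∑ i, y' i * (u i - ∑ j, A i j * x j) + ∑ j, x j * (∑ i, A i j * y' i - p j) =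
      ∑ i, y' i * u i - ∑ j, x j * p j := by
    simp only [mul_sub, sum_sub_distrib]
    rw [← dbl x y']
    ring
  have v1 : ∑ i, y i * u i = ∑ j, x j * p j := by rw [← e1, dbl, e2]
  have v2 : ∑ i, y' i * u i = ∑ j, x' j * p j := by rw [← e1', dbl, e2']
  have n1 := sum_nonneg fun i (_ : i ∈ (univ : Finset (Fin m))) => g1 i
  have n2 := sum_nonneg fun j (_ : j ∈ (univ : Finset (Fin n))) => g2 j
  have n3 := sum_nonneg fun i (_ : i ∈ (univ : Finset (Fin m))) => g1' i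
  have n4 := sum_nonneg fun j (_ : j ∈ (univ : Finset (Fin n))) => g2' j
  have z1 : ∑ i, y i * (u i - ∑ j, A i j * x' j) = 0 := by linarith
  have z2 : ∑ j, x' j * (∑ i, A i j * y i - p j) = 0 := by linarith
  rw [sum_eq_zero_iff_of_nonneg fun i _ => g1 i] at z1
  rw [sum_eq_zero_iff_of_nonneg fun i _ => g2 i] at z2
  constructor
  · intro j hj
    by_contra hj'
    have h1 := z2 j (mem_univ _)
    have h2 := mul_pos (x1' j hj) (sub_pos.2 (y4 j (hSX' hj) hj'))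
    linarith
  · intro i hi
    by_contra hi'
    have h1 := z1 i (mem_univ _)
    have h2 := mul_pos (y1 i hi) (sub_pos.2 (x4' i (hTR hi) hi'))
    linarith

theorem IsType.unique {A : Fin m → Fin n → ℝ} {R : Finset (Fin m)} {X : Finset (Fin n)}
    {p : Fin n → ℝ} {u : Fin m → ℝ} {τ σ : Finset (Fin n) × Finset (Fin m)}
    (h : IsType A R X p u τ) (h' : IsType A R X p u σ) : τ = σ :=
  Prod.ext (Finset.Subset.antisymm (h'.le h).1 (h.le h').1)
    (Finset.Subset.antisymm (h.le h').2 (h'.le h).2)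

end Pool.Agent.K4H92.LP
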